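import Mathlib
import Pool.Agent.TH165.Tan.Omega

set_option autoImplicit false
set_option linter.unusedVariables false

open CategoryTheory TensorProduct

namespace Pool.Agent.TH165.Tan

/-- Full faithfulness on the level of objects: natural monoidal semilinear families of maps come
from unique morphisms. -/
def Fib.FFProp (X : Fib) : Prop :=
  ∀ {R S : Type} [CommRing R] [CommRing S] (φ : R →+* S) (x : X.Obj R) (y : X.Obj S)
    (θ : ∀ M : QSh X, Slin φ (M.sec x) (M.sec y)),
    (∀ (M N : QSh X) (a : QSh.Hom M N) (m : (M.sec x).carrier),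
      (a.app y).app ((θ M).app m) = (θ N).app ((a.app x).app m)) →
    ((θ (QSh.unit X)).app (1 : R) = (1 : S)) →
    (∀ (M N : QSh X) (m : (M.sec x).carrier) (n : (N.sec x).carrier),
      (θ (M.tens N)).app (m ⊗ₜ[R] n) = ((θ M).app m) ⊗ₜ[S] ((θ N).app n)) →
    ∃! f : X.Hom φ x y, ∀ M : QSh X, M.res f = θ M

/-- Every fibre functor of a cocontinuous tensor functor comes from an object. -/
def Fib.ESProp (X : Fib) : Prop :=
  ∀ (T : Fib) (F : CTF X T) {R : Type} [CommRing R] (t : T.Obj R),
    ∃ (x : X.Obj R) (θ : ∀ M : QSh X, Slin (RingHom.id R) (M.sec x) ((F.F.obj M).sec t)),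
      (∀ M, Function.Bijective (θ M).app) ∧
      (∀ (M N : QSh X) (a : QSh.Hom M N) (m : (M.sec x).carrier),
        (QSh.Hom.app (F.F.map a) t).app ((θ M).app m) = (θ N).app ((a.app x).app m)) ∧
      ((θ (QSh.unit X)).app (1 : R) =
        (QSh.Hom.app (Functor.LaxMonoidal.ε F.F) t).app (1 : R)) ∧
      (∀ (M N : QSh X) (m : (M.sec x).carrier) (n : (N.sec x).carrier),
        (θ (M.tens N)).app (m ⊗ₜ[R] n) =
          (QSh.Hom.app (Functor.LaxMonoidal.μ F.F M N) t).app
            (((θ M).app m) ⊗ₜ[R] ((θ N).app n)))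

section

variable {X T : Fib} (F : CTF X T) {R : Type} [CommRing R] (t : T.Obj R)

/-- The sections of `F(M)` over `t`. -/
def Vs (M : QSh X) : Type := ((F.F.obj M).sec t).carrier

instance (M : QSh X) : AddCommGroup (Vs F t M) := ((F.F.obj M).sec t).grp
instance (M : QSh X) : Module R (Vs F t M) := ((F.F.obj M).sec t).mod

/-- The map induced by a morphism. -/
def Vm {M N : QSh X} (a : QSh.Hom M N) : Vs F t M →ₗ[R] Vs F t N :=
  (QSh.Hom.app (F.F.map a) t).lin

/-- The external product of sections. -/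
noncomputable def bx {M N : QSh X} : Vs F t M →ₗ[R] Vs F t N →ₗ[R] Vs F t (M.tens N) :=
  LinearMap.compr₂ (TensorProduct.mk R (Vs F t M) (Vs F t N))
    (QSh.Hom.app (Functor.LaxMonoidal.μ F.F M N) t).lin

/-- The unit section. -/
noncomputable def v1 : Vs F t (QSh.unit X) := (QSh.Hom.app (Functor.LaxMonoidal.ε F.F) t).app (1 : R)

end

end Pool.Agent.TH165.Tan
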