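import Mathlib
import Pool.Agent.TH165.Tan.Basic

set_option autoImplicit false
set_option linter.unusedVariables false

open CategoryTheory

namespace Pool.Agent.TH165.Tan

/-! ## The example -/

/-- The objects over `Spec R`. -/
structure Ob (t : Prop) (R : Type) [CommRing R] : Type 2 where
  pi : R
  eta : R
  a : R
  c : R
  two : (2 : R) = 0
  sq : eta ^ 2 = 0
  cond : t → eta = 0

variable {t : Prop} {R S T U : Type} [CommRing R] [CommRing S] [CommRing T] [CommRing U]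

lemma add_self_two (h : (2 : R) = 0) (x : R) : x + x = 0 := by
  rw [← two_mul, h, zero_mul]

lemma neg_two (h : (2 : R) = 0) (x : R) : -x = x := by
  rw [neg_eq_iff_add_eq_zero, add_self_two h]

lemma sub_two (h : (2 : R) = 0) (x y : R) : x - y = x + y := by
  rw [sub_eq_add_neg, neg_two h]

lemma add_sq_two (h : (2 : R) = 0) (x y : R) : (x + y) ^ 2 = x ^ 2 + y ^ 2 := by
  have : (x + y) ^ 2 = x ^ 2 + y ^ 2 + 2 * (x * y) := by ring
  rw [this, h, zero_mul, add_zero]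

/-- The subgroup of relations. -/
def Ob.K (x : Ob t R) : AddSubgroup (R × R × R) where
  carrier := {u | ∃ w : R, u = (x.pi * w, x.eta * w, x.pi * w ^ 2 + w)}
  zero_mem' := ⟨0, by simp [Prod.ext_iff]⟩
  add_mem' := by
    rintro _ _ ⟨w, rfl⟩ ⟨w', rfl⟩
    refine ⟨w + w', ?_⟩
    simp only [Prod.mk_add_mk, Prod.mk.injEq]
    refine ⟨by ring, by ring, ?_⟩
    rw [add_sq_two x.two]
    ring
  neg_mem' := by
    rintro _ ⟨w, rfl⟩
    refine ⟨w, ?_⟩
    simp only [Prod.neg_mk, Prod.mk.injEq]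
    exact ⟨neg_two x.two _, neg_two x.two _, neg_two x.two _⟩

lemma Ob.mem_K (x : Ob t R) (u : R × R × R) :
    u ∈ x.K ↔ ∃ w : R, u = (x.pi * w, x.eta * w, x.pi * w ^ 2 + w) := Iff.rfl

/-- The group of classes of triples. -/
abbrev Ob.G (x : Ob t R) : Type := (R × R × R) ⧸ x.K

/-- The class of a triple. -/
def Ob.cl (x : Ob t R) (p q s : R) : x.G := QuotientAddGroup.mk (p, q, s)

lemma Ob.cl_surj (x : Ob t R) (g : x.G) : ∃ p q s : R, x.cl p q s = g := by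
  obtain ⟨⟨p, q, s⟩, h⟩ := QuotientAddGroup.mk_surjective g
  exact ⟨p, q, s, h⟩

lemma Ob.cl_add (x : Ob t R) (p q s p' q' s' : R) :
    x.cl p q s + x.cl p' q' s' = x.cl (p + p') (q + q') (s + s') := rfl

lemma Ob.cl_zero (x : Ob t R) : x.cl 0 0 0 = 0 := rfl

lemma Ob.cl_neg (x : Ob t R) (p q s : R) : -x.cl p q s = x.cl p q s := by
  change x.cl (-p) (-q) (-s) = _
  rw [neg_two x.two, neg_two x.two, neg_two x.two]

lemma Ob.cl_eq (x : Ob t R) (p q s p' q' s' : R) :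
    x.cl p q s = x.cl p' q' s' ↔
      ∃ w, p' = p + x.pi * w ∧ q' = q + x.eta * w ∧ s' = s + x.pi * w ^ 2 + w := by
  unfold Ob.cl
  rw [QuotientAddGroup.eq, x.mem_K]
  refine exists_congr fun w => ?_
  simp only [Prod.neg_mk, Prod.mk_add_mk, Prod.mk.injEq, neg_add_eq_iff_eq_add, add_assoc]

lemma Ob.cl_eq_zero (x : Ob t R) (p q s : R) :
    x.cl p q s = 0 ↔ ∃ w, p = x.pi * w ∧ q = x.eta * w ∧ s = x.pi * w ^ 2 + w := by
  rw [eq_comm, ← x.cl_zero, x.cl_eq]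
  simp only [zero_add]

/-- Functoriality. -/
def Ob.gm {x : Ob t R} {y : Ob t S} (φ : R →+* S) (h : φ x.pi = y.pi) (h' : φ x.eta = y.eta) :
    x.G →+ y.G :=
  QuotientAddGroup.map x.K y.K
    ((φ : R →+ S).prodMap ((φ : R →+ S).prodMap (φ : R →+ S))) (by
      rintro _ ⟨w, rfl⟩
      refine ⟨φ w, ?_⟩
      simp [h, h'])

lemma Ob.gm_cl {x : Ob t R} {y : Ob t S} (φ : R →+* S) (h : φ x.pi = y.pi)
    (h' : φ x.eta = y.eta) (p q s : R) :
    Ob.gm φ h h' (x.cl p q s) = y.cl (φ p) (φ q) (φ s) := rfl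

lemma Ob.gm_id {x : Ob t R} (h : (RingHom.id R) x.pi = x.pi) (h' : (RingHom.id R) x.eta = x.eta)
    (g : x.G) : Ob.gm (RingHom.id R) h h' g = g := by
  obtain ⟨p, q, s, rfl⟩ := x.cl_surj g
  rfl

lemma Ob.gm_comp {x : Ob t R} {y : Ob t S} {z : Ob t T} (φ : R →+* S) (ψ : S →+* T)
    (h : φ x.pi = y.pi) (h' : φ x.eta = y.eta) (k : ψ y.pi = z.pi) (k' : ψ y.eta = z.eta)
    (l : (ψ.comp φ) x.pi = z.pi) (l' : (ψ.comp φ) x.eta = z.eta) (g : x.G) :
    Ob.gm (ψ.comp φ) l l' g = Ob.gm ψ k k' (Ob.gm φ h h' g) := by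
  obtain ⟨p, q, s, rfl⟩ := x.cl_surj g
  rfl

/-- The action on the parameters. -/
def Ob.lam (x : Ob t R) : x.G →+ R × R :=
  QuotientAddGroup.lift x.K
    (AddMonoidHom.mk' (fun u : R × R × R => (u.1 ^ 2 + u.1 + x.pi * u.2.2, u.2.1 ^ 2)) (by
      rintro ⟨p, q, s⟩ ⟨p', q', s'⟩
      simp only [Prod.mk_add_mk, Prod.mk.injEq]
      refine ⟨?_, add_sq_two x.two _ _⟩
      rw [add_sq_two x.two]
      ring)) (by
      rintro _ ⟨w, rfl⟩
      refine Prod.ext ?_ ?_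
      · change (x.pi * w) ^ 2 + x.pi * w + x.pi * (x.pi * w ^ 2 + w) = 0
        have : (x.pi * w) ^ 2 + x.pi * w + x.pi * (x.pi * w ^ 2 + w) =
          2 * ((x.pi * w) ^ 2 + x.pi * w) := by ring
        rw [this, x.two, zero_mul]
      · change (x.eta * w) ^ 2 = 0
        rw [mul_pow, x.sq, zero_mul])

lemma Ob.lam_cl (x : Ob t R) (p q s : R) :
    x.lam (x.cl p q s) = (p ^ 2 + p + x.pi * s, q ^ 2) := rfl

lemma Ob.lam_gm {x : Ob t R} {y : Ob t S} (φ : R →+* S) (h : φ x.pi = y.pi)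
    (h' : φ x.eta = y.eta) (g : x.G) :
    y.lam (Ob.gm φ h h' g) = (φ (x.lam g).1, φ (x.lam g).2) := by
  obtain ⟨p, q, s, rfl⟩ := x.cl_surj g
  rw [Ob.gm_cl, Ob.lam_cl, Ob.lam_cl]
  simp [h]

/-- The morphisms. -/
@[ext]
structure XHom (φ : R →+* S) (x : Ob t R) (y : Ob t S) : Type 1 where
  cls : y.G
  pi_eq : φ x.pi = y.pi
  eta_eq : φ x.eta = y.eta
  lam_eq : y.lam cls = (φ x.a + y.a, φ x.c + y.c)

/-- The pullback. -/
def Ob.pull (φ : R →+* S) (x : Ob t R) : Ob t S where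
  pi := φ x.pi
  eta := φ x.eta
  a := φ x.a
  c := φ x.c
  two := by rw [← map_ofNat φ 2, x.two, map_zero]
  sq := by rw [← map_pow, x.sq, map_zero]
  cond h := by rw [x.cond h, map_zero]

variable {φ : R →+* S} {ψ : S →+* T} {x : Ob t R} {y : Ob t S} {z : Ob t T}

lemma XHom.comp_pi (f : XHom φ x y) (g : XHom ψ y z) : (ψ.comp φ) x.pi = z.pi := by
  rw [RingHom.comp_apply, f.pi_eq, g.pi_eq]

lemma XHom.comp_eta (f : XHom φ x y) (g : XHom ψ y z) : (ψ.comp φ) x.eta = z.eta := by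
  rw [RingHom.comp_apply, f.eta_eq, g.eta_eq]

/-- Composition. -/
def XHom.comp (f : XHom φ x y) (g : XHom ψ y z) : XHom (ψ.comp φ) x z where
  cls := Ob.gm ψ g.pi_eq g.eta_eq f.cls + g.cls
  pi_eq := f.comp_pi g
  eta_eq := f.comp_eta g
  lam_eq := by
    rw [map_add, Ob.lam_gm, f.lam_eq, g.lam_eq]
    simp only [Prod.mk_add_mk, map_add, Prod.mk.injEq, RingHom.comp_apply]
    constructor
    · linear_combination (ψ y.a) * z.two
    · linear_combination (ψ y.c) * z.two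

/-- The fibred category. -/
def XX (t : Prop) : Fib where
  Obj R := Ob t R
  Hom φ x y := XHom φ x y
  id x := ⟨0, rfl, rfl, by
    rw [map_zero, RingHom.id_apply, RingHom.id_apply, add_self_two x.two, add_self_two x.two]
    rfl⟩
  comp f g := f.comp g
  id_comp {R S _ _ φ x y} f := by
    apply XHom.ext
    change Ob.gm φ _ _ 0 + f.cls = f.cls
    rw [map_zero, zero_add]
  comp_id {R S _ _ φ x y} f := by
    apply XHom.ext
    change Ob.gm (RingHom.id S) _ _ f.cls + 0 = f.cls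
    rw [add_zero, Ob.gm_id]
  assoc {R S T U _ _ _ _ φ ψ χ x y z w} f g h := by
    apply XHom.ext
    change Ob.gm χ _ _ (Ob.gm ψ _ _ f.cls + g.cls) + h.cls =
      Ob.gm (χ.comp ψ) _ _ f.cls + (Ob.gm χ _ _ g.cls + h.cls)
    rw [map_add, Ob.gm_comp ψ χ g.pi_eq g.eta_eq h.pi_eq h.eta_eq, add_assoc]
  pull φ x := x.pull φ
  toPull φ x := ⟨0, rfl, rfl, by
    rw [map_zero]
    have h := (x.pull φ).two
    change 0 = (φ x.a + φ x.a, φ x.c + φ x.c)
    rw [add_self_two h, add_self_two h]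
    rfl⟩
  cart {R S T _ _ _ φ ψ x y z} f g := by
    have h1 : ψ y.pi = z.pi := by rw [← f.pi_eq]; exact g.pi_eq
    have h2 : ψ y.eta = z.eta := by rw [← f.eta_eq]; exact g.eta_eq
    refine ⟨⟨g.cls - Ob.gm ψ h1 h2 f.cls, h1, h2, ?_⟩, ?_, ?_⟩
    · rw [map_sub, Ob.lam_gm, f.lam_eq, g.lam_eq]
      simp only [Prod.mk_sub_mk, map_add, Prod.mk.injEq, RingHom.comp_apply]
      constructor
      · linear_combination (-ψ y.a) * z.two
      · linear_combination (-ψ y.c) * z.two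
    · apply XHom.ext
      change Ob.gm ψ _ _ f.cls + (g.cls - Ob.gm ψ h1 h2 f.cls) = g.cls
      abel
    · rintro h rfl
      apply XHom.ext
      change h.cls = (Ob.gm ψ _ _ f.cls + h.cls) - Ob.gm ψ h1 h2 f.cls
      abel

end Pool.Agent.TH165.Tan
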