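import Mathlib
import Pool.Agent.TH165.Tan2.Kit2
import Pool.Agent.TH165.Tan2.XX
import Pool.Agent.TH165.Tan.QShLem

set_option autoImplicit false
set_option linter.unusedVariables false

open CategoryTheory

namespace Pool.Agent.TH165.Tan

variable {t : Prop} {R S T U : Type} [CommRing R] [CommRing S] [CommRing T] [CommRing U]

/-! ### Quadratic algebras -/

/-- Ring maps out of a quadratic algebra. -/
def qaL {a b : R} (φ : R →+* S) (ρ : S) (h : ρ * ρ = φ a + φ b * ρ) :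
    QuadraticAlgebra R a b →+* S where
  toFun z := φ z.re + φ z.im * ρ
  map_one' := by
    rw [QuadraticAlgebra.re_one, QuadraticAlgebra.im_one, map_one, map_zero, zero_mul, add_zero]
  map_mul' z w := by
    rw [QuadraticAlgebra.re_mul, QuadraticAlgebra.im_mul]
    simp only [map_add, map_mul]
    linear_combination (-(φ z.im * φ w.im)) * h
  map_zero' := by
    rw [QuadraticAlgebra.re_zero, QuadraticAlgebra.im_zero, map_zero, zero_mul, add_zero]
  map_add' z w := by
    rw [QuadraticAlgebra.re_add, QuadraticAlgebra.im_add, map_add, map_add]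
    ring

lemma qaL_alg {a b : R} (φ : R →+* S) (ρ : S) (h : ρ * ρ = φ a + φ b * ρ) :
    (qaL φ ρ h).comp (algebraMap R (QuadraticAlgebra R a b)) = φ := by
  ext r
  change φ r + φ 0 * ρ = φ r
  rw [map_zero, zero_mul, add_zero]

lemma qaL_alg' {a b : R} (φ : R →+* S) (ρ : S) (h : ρ * ρ = φ a + φ b * ρ) (r : R) :
    qaL φ ρ h (algebraMap R (QuadraticAlgebra R a b) r) = φ r :=
  RingHom.congr_fun (qaL_alg φ ρ h) r

lemma qaL_omega {a b : R} (φ : R →+* S) (ρ : S) (h : ρ * ρ = φ a + φ b * ρ) :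
    qaL φ ρ h QuadraticAlgebra.omega = ρ := by
  change φ 0 + φ 1 * ρ = ρ
  rw [map_zero, zero_add, map_one, one_mul]

lemma omega_sq (a b : R) : (QuadraticAlgebra.omega : QuadraticAlgebra R a b) *
    QuadraticAlgebra.omega = algebraMap R (QuadraticAlgebra R a b) a +
      algebraMap R (QuadraticAlgebra R a b) b * QuadraticAlgebra.omega := by
  apply QuadraticAlgebra.ext
  · simp [QuadraticAlgebra.omega]
  · simp [QuadraticAlgebra.omega]

lemma qa_hom_ext {a b : R} {f g : QuadraticAlgebra R a b →+* S}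
    (h : f.comp (algebraMap R _) = g.comp (algebraMap R _))
    (h' : f QuadraticAlgebra.omega = g QuadraticAlgebra.omega) : f = g := by
  ext z
  have hz : z = algebraMap R _ z.re + algebraMap R _ z.im * QuadraticAlgebra.omega := by
    apply QuadraticAlgebra.ext
    · simp [QuadraticAlgebra.omega]
    · simp [QuadraticAlgebra.omega]
  rw [hz, map_add, map_add, map_mul, map_mul, h']
  have e1 := RingHom.congr_fun h z.re
  have e2 := RingHom.congr_fun h z.im
  rw [RingHom.comp_apply, RingHom.comp_apply] at e1 e2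
  rw [e1, e2]

/-! ### Morphisms given by triples -/

/-- The conditions for a triple to define a morphism. -/
structure Mp (φ : R →+* S) (x : Ob t R) (y : Ob t S) (p q s : S) : Prop where
  pi : φ x.pi = y.pi
  eta : φ x.eta = y.eta
  a : p ^ 2 + p + y.pi * s = φ x.a + y.a
  c : q ^ 2 = φ x.c + y.c

variable {φ φ' : R →+* S} {ψ : S →+* T} {x x' : Ob t R} {y y' : Ob t S} {z : Ob t T}
  {p q s p₁ q₁ s₁ : S} {p' q' s' : T}

/-- The morphism. -/
def Mp.hom (H : Mp φ x y p q s) : XHom φ x y := ⟨y.cl p q s, H.pi, H.eta, Prod.ext H.a H.c⟩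

lemma exists_mp (f : XHom φ x y) : ∃ (p q s : S) (H : Mp φ x y p q s), f = H.hom := by
  obtain ⟨p, q, s, h⟩ := y.cl_surj f.cls
  have h1 := f.lam_eq
  rw [← h, Ob.lam_cl] at h1
  exact ⟨p, q, s, ⟨f.pi_eq, f.eta_eq, congrArg Prod.fst h1, congrArg Prod.snd h1⟩,
    XHom.ext h.symm⟩

lemma Mp.comp (H : Mp φ x y p q s) (H' : Mp ψ y z p' q' s') :
    Mp (ψ.comp φ) x z (ψ p + p') (ψ q + q') (ψ s + s') where
  pi := by rw [RingHom.comp_apply, H.pi, H'.pi]
  eta := by rw [RingHom.comp_apply, H.eta, H'.eta]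
  a := by
    have e1 := congrArg ψ H.a
    have e2 := H'.a
    simp only [map_add, map_mul, map_pow] at e1
    rw [H'.pi] at e1
    rw [RingHom.comp_apply]
    linear_combination e1 + e2 + (ψ p * p' + ψ y.a) * z.two
  c := by
    have e1 := congrArg ψ H.c
    have e2 := H'.c
    simp only [map_add, map_pow] at e1
    rw [RingHom.comp_apply]
    linear_combination e1 + e2 + (ψ q * q' + ψ y.c) * z.two

/-- The sections. -/
def Sc (M : QSh (XX t)) (x : Ob t R) : Type := (M.sec (X := XX t) x).carrier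

instance (M : QSh (XX t)) (x : Ob t R) : AddCommGroup (Sc M x) := (M.sec (X := XX t) x).grp
instance (M : QSh (XX t)) (x : Ob t R) : Module R (Sc M x) := (M.sec (X := XX t) x).mod

variable (M : QSh (XX t))

/-- The action of a morphism. -/
def ac (H : Mp φ x y p q s) : Sc M x →ₛₗ[φ] Sc M y := (M.res (X := XX t) H.hom).lin

lemma ac_isExt (H : Mp φ x y p q s) : IsExtL (ac M H) :=
  Slin.isExt_iff.mp (M.isExt (X := XX t) H.hom)

lemma ac_ac (H : Mp φ x y p q s) (H' : Mp ψ y z p' q' s') (m : Sc M x) :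
    ac M H' (ac M H m) = ac M (H.comp H') m :=
  (M.res_comp_app (X := XX t) H.hom H'.hom m).symm

lemma ac_id (H : Mp (RingHom.id R) x x 0 0 0) (m : Sc M x) : ac M H m = m :=
  M.res_id_app (X := XX t) x m

lemma ac_congr (H : Mp φ x y p q s) (H' : Mp φ' x y p₁ q₁ s₁) (e : φ = φ') (w : S)
    (e1 : p₁ = p + y.pi * w) (e2 : q₁ = q + y.eta * w) (e3 : s₁ = s + y.pi * w ^ 2 + w)
    (m : Sc M x) : ac M H m = ac M H' m := by
  subst e
  have h : H.hom = H'.hom := XHom.ext ((y.cl_eq _ _ _ _ _ _).mpr ⟨w, e1, e2, e3⟩)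
  unfold ac
  rw [h]

lemma ac_eq (H : Mp φ x y p q s) (H' : Mp φ' x y p₁ q₁ s₁) (e : φ = φ') (e1 : p = p₁)
    (e2 : q = q₁) (e3 : s = s₁) (m : Sc M x) : ac M H m = ac M H' m := by
  subst e e1 e2 e3
  rfl

/-- Comparison of two composites. -/
lemma ac_sq {S' : Type} [CommRing S'] {φ₂ : R →+* S'} {ψ₂ : S' →+* T} {y₂ : Ob t S'}
    {p₂ q₂ s₂ : S'} {p₃ q₃ s₃ : T} (H : Mp φ x y p q s) (H' : Mp ψ y z p' q' s')
    (H₂ : Mp φ₂ x y₂ p₂ q₂ s₂) (H₃ : Mp ψ₂ y₂ z p₃ q₃ s₃) (e : ψ.comp φ = ψ₂.comp φ₂)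
    (e1 : ψ p + p' = ψ₂ p₂ + p₃) (e2 : ψ q + q' = ψ₂ q₂ + q₃) (e3 : ψ s + s' = ψ₂ s₂ + s₃)
    (m : Sc M x) : ac M H' (ac M H m) = ac M H₃ (ac M H₂ m) := by
  rw [ac_ac, ac_ac]
  exact ac_eq M _ _ e e1 e2 e3 m

lemma ac_fac (H : Mp φ x y p q s) (H' : Mp ψ y z p' q' s') {χ : R →+* T} {p₃ q₃ s₃ : T}
    (H₃ : Mp χ x z p₃ q₃ s₃) (e : ψ.comp φ = χ)
    (e1 : ψ p + p' = p₃) (e2 : ψ q + q' = q₃) (e3 : ψ s + s' = s₃)
    (m : Sc M x) : ac M H' (ac M H m) = ac M H₃ m := by
  rw [ac_ac]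
  exact ac_eq M _ _ e e1 e2 e3 m

lemma Mp.pull (φ : R →+* S) (x : Ob t R) : Mp φ x (x.pull φ) 0 0 0 where
  pi := rfl
  eta := rfl
  a := by
    have := add_self_two (x.pull φ).two (φ x.a)
    change _ = φ x.a + φ x.a
    rw [this]
    ring
  c := by
    have := add_self_two (x.pull φ).two (φ x.c)
    change _ = φ x.c + φ x.c
    rw [this]
    ring

lemma sc_two (x : Ob t R) (m : Sc M x) : m + m = 0 := by
  have h : (2 : R) • m = 0 := by rw [x.two, zero_smul]
  rwa [two_smul] at h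

/-! ### The operator `D` -/

section

variable (x)

/-- The dual numbers. -/
abbrev Dn (R : Type) [CommRing R] : Type := QuadraticAlgebra R (0 : R) (0 : R)

/-- The element `ε`. -/
def eps (R : Type) [CommRing R] : Dn R := QuadraticAlgebra.omega

lemma eps_sq (R : Type) [CommRing R] : eps R * eps R = 0 := by
  unfold eps
  rw [omega_sq]
  simp

lemma mpEps : Mp (algebraMap R (Dn R)) x (x.pull (algebraMap R (Dn R))) 0 (eps R) 0 where
  pi := rfl
  eta := rfl
  a := (Mp.pull (algebraMap R (Dn R)) x).a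
  c := by
    rw [pow_two, eps_sq]
    have := (Mp.pull (algebraMap R (Dn R)) x).c
    rw [← this]
    ring

lemma dn_decomp (m : Sc M (x.pull (algebraMap R (Dn R)))) : ∃! u : Sc M x × Sc M x,
    ac M (Mp.pull (algebraMap R (Dn R)) x) u.1 +
      eps R • ac M (Mp.pull (algebraMap R (Dn R)) x) u.2 = m :=
  qa_decomp (ac_isExt M (Mp.pull (algebraMap R (Dn R)) x)) m

variable {x}

lemma dn_inj {u v u' v' : Sc M x} (h : ac M (Mp.pull (algebraMap R (Dn R)) x) u +
      eps R • ac M (Mp.pull (algebraMap R (Dn R)) x) v =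
      ac M (Mp.pull (algebraMap R (Dn R)) x) u' +
      eps R • ac M (Mp.pull (algebraMap R (Dn R)) x) v') : u = u' ∧ v = v' := by
  have := (dn_decomp x M _).unique (y₁ := (u, v)) (y₂ := (u', v')) h rfl
  exact ⟨congrArg Prod.fst this, congrArg Prod.snd this⟩

/-- The operator `D`. -/
noncomputable def DD (m : Sc M x) : Sc M x :=
  (dn_decomp x M (ac M (mpEps x) m)).exists.choose.2

/-- Ring maps out of the dual numbers. -/
def dnL (φ : R →+* S) (ρ : S) (h : ρ * ρ = 0) : Dn R →+* S :=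
  qaL φ ρ (by rw [h, map_zero, zero_mul, add_zero])

lemma dnL_alg (φ : R →+* S) (ρ : S) (h : ρ * ρ = 0) :
    (dnL φ ρ h).comp (algebraMap R (Dn R)) = φ := qaL_alg _ _ _

lemma dnL_alg' (φ : R →+* S) (ρ : S) (h : ρ * ρ = 0) (r : R) :
    dnL φ ρ h (algebraMap R (Dn R) r) = φ r := qaL_alg' _ _ _ _

lemma dnL_eps (φ : R →+* S) (ρ : S) (h : ρ * ρ = 0) : dnL φ ρ h (eps R) = ρ := qaL_omega _ _ _

lemma mp_dnL (φ : R →+* S) (ρ : S) (h : ρ * ρ = 0) (H : Mp φ x y 0 0 0) :
    Mp (dnL φ ρ h) (x.pull (algebraMap R (Dn R))) y 0 0 0 where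
  pi := (dnL_alg' φ ρ h _).trans H.pi
  eta := (dnL_alg' φ ρ h _).trans H.eta
  a := by
    have h1 : dnL φ ρ h (x.pull (algebraMap R (Dn R))).a = φ x.a := dnL_alg' φ ρ h _
    rw [h1]
    exact H.a
  c := by
    have h1 : dnL φ ρ h (x.pull (algebraMap R (Dn R))).c = φ x.c := dnL_alg' φ ρ h _
    rw [h1]
    exact H.c

lemma ac_eps (m : Sc M x) : ac M (mpEps x) m = ac M (Mp.pull (algebraMap R (Dn R)) x) m +
    eps R • ac M (Mp.pull (algebraMap R (Dn R)) x) (DD M m) := by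
  have h := (dn_decomp x M (ac M (mpEps x) m)).exists.choose_spec
  have h0 : (dn_decomp x M (ac M (mpEps x) m)).exists.choose.1 = m := by
    have h0' : Mp (RingHom.id R) x x 0 0 0 := by
      constructor
      · rfl
      · rfl
      · rw [RingHom.id_apply, add_self_two x.two]; ring
      · rw [RingHom.id_apply, add_self_two x.two]; ring
    have h1 := congrArg (ac M (mp_dnL (RingHom.id R) 0 (mul_zero _) h0')) h
    rw [map_add, map_smulₛₗ, dnL_eps, zero_smul, add_zero] at h1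
    have h2 := ac_fac M (Mp.pull (algebraMap R (Dn R)) x) (mp_dnL (RingHom.id R) 0 (mul_zero _) h0')
      h0' (dnL_alg _ _ _) (by rw [map_zero, add_zero]) (by rw [map_zero, add_zero])
      (by rw [map_zero, add_zero]) (dn_decomp x M (ac M (mpEps x) m)).exists.choose.1
    have h3 := ac_fac M (mpEps x) (mp_dnL (RingHom.id R) 0 (mul_zero _) h0')
      h0' (dnL_alg _ _ _) (by rw [map_zero, add_zero]) (by rw [dnL_eps, add_zero])
      (by rw [map_zero, add_zero]) m
    rw [h2, h3, ac_id, ac_id] at h1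
    exact h1
  rw [h0] at h
  exact h.symm

lemma ac_rho (H : Mp φ x y 0 0 0) (ρ : S) (h : ρ * ρ = 0) (H' : Mp φ x y 0 ρ 0) (m : Sc M x) :
    ac M H' m = ac M H m + ρ • ac M H (DD M m) := by
  have h1 := congrArg (ac M (mp_dnL φ ρ h H)) (ac_eps M m)
  rw [map_add, map_smulₛₗ, dnL_eps] at h1
  have h2 := ac_fac M (mpEps x) (mp_dnL φ ρ h H)
      H' (dnL_alg _ _ _) (by rw [map_zero, add_zero]) (by rw [dnL_eps, add_zero])
      (by rw [map_zero, add_zero]) m
  have h3 := fun m => ac_fac M (Mp.pull (algebraMap R (Dn R)) x) (mp_dnL φ ρ h H)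
      H (dnL_alg _ _ _) (by rw [map_zero, add_zero]) (by rw [map_zero, add_zero])
      (by rw [map_zero, add_zero]) m
  rw [h2, h3, h3] at h1
  exact h1

end

end Pool.Agent.TH165.Tan
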