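import Mathlib
import Pool.Agent.TH165.Tan2.Ops

set_option autoImplicit false
set_option linter.unusedVariables false

open CategoryTheory

namespace Pool.Agent.TH165.Tan

variable {t : Prop} {R S T U : Type} [CommRing R] [CommRing S] [CommRing T] [CommRing U]
  {φ φ' : R →+* S} {ψ : S →+* T} {x x' : Ob t R} {y y' : Ob t S} {z : Ob t T}
  {p q s p₁ q₁ s₁ : S} {p' q' s' : T} (M : QSh (XX t))

/-- The inclusion of `x` in its pullback to the dual numbers. -/
lemma mpI (x : Ob t R) : Mp (algebraMap R (Dn R)) x (x.pull (algebraMap R (Dn R))) 0 0 0 :=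
  Mp.pull _ x

lemma DD_add (m m' : Sc M x) : DD M (m + m') = DD M m + DD M m' := by
  have h := ac_eps M (m + m')
  rw [map_add, ac_eps, ac_eps, map_add] at h
  refine (dn_inj M (u := m + m') (u' := m + m') ?_).2
  rw [← map_add (ac M (Mp.pull (algebraMap R (Dn R)) x)) m m'] at h
  rw [← h, map_add, map_add, smul_add]
  abel

lemma DD_smul (r : R) (m : Sc M x) : DD M (r • m) = r • DD M m := by
  have h := ac_eps M (r • m)
  rw [map_smulₛₗ, ac_eps] at h
  refine (dn_inj M (u := r • m) (u' := r • m) ?_).2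
  rw [← h, smul_add, map_smulₛₗ, map_smulₛₗ, smul_comm]

/-- The operator `D` as a linear map. -/
noncomputable def DL (x : Ob t R) : Sc M x →ₗ[R] Sc M x where
  toFun := DD M
  map_add' := DD_add M
  map_smul' := DD_smul M

/-- The map between the dual numbers. -/
noncomputable def dnM (φ : R →+* S) : Dn R →+* Dn S :=
  dnL ((algebraMap S (Dn S)).comp φ) (eps S) (eps_sq S)

lemma mpM (H : Mp φ x y p q s) : Mp (dnM φ) (x.pull (algebraMap R (Dn R)))
    (y.pull (algebraMap S (Dn S))) (algebraMap S (Dn S) p) (algebraMap S (Dn S) q)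
      (algebraMap S (Dn S) s) where
  pi := by
    refine (dnL_alg' _ _ _ _).trans ?_
    rw [RingHom.comp_apply, H.pi]
    rfl
  eta := by
    refine (dnL_alg' _ _ _ _).trans ?_
    rw [RingHom.comp_apply, H.eta]
    rfl
  a := by
    have h1 : dnM φ (x.pull (algebraMap R (Dn R))).a = algebraMap S (Dn S) (φ x.a) :=
      dnL_alg' _ _ _ _
    rw [h1]
    have h2 := congrArg (algebraMap S (Dn S)) H.a
    rw [map_add, map_add, map_add, map_mul, map_pow] at h2
    exact h2
  c := by
    have h1 : dnM φ (x.pull (algebraMap R (Dn R))).c = algebraMap S (Dn S) (φ x.c) :=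
      dnL_alg' _ _ _ _
    rw [h1]
    have h2 := congrArg (algebraMap S (Dn S)) H.c
    rw [map_add, map_pow] at h2
    exact h2

lemma DD_nat (H : Mp φ x y p q s) (m : Sc M x) : ac M H (DD M m) = DD M (ac M H m) := by
  have h1 := ac_sq M (mpEps x) (mpM H) H (mpEps y) (dnL_alg _ _ _)
    (by rw [map_zero, zero_add, add_zero])
    (by rw [dnM, dnL_eps, add_comm]) (by rw [map_zero, zero_add, add_zero]) m
  have h2 := fun m => ac_sq M (mpI x) (mpM H) H (mpI y) (dnL_alg _ _ _)
    (by rw [map_zero, zero_add, add_zero])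
    (by rw [map_zero, zero_add, add_zero]) (by rw [map_zero, zero_add, add_zero]) m
  rw [ac_eps, map_add, map_smulₛₗ, ac_eps] at h1
  have h3 : dnM φ (eps R) = eps S := dnL_eps _ _ _
  rw [h3] at h1
  have h4 : ac M (mpM H) (ac M (Mp.pull (algebraMap R (Dn R)) x) m) =
    ac M (mpI y) (ac M H m) := h2 m
  have h5 : ac M (mpM H) (ac M (Mp.pull (algebraMap R (Dn R)) x) (DD M m)) =
    ac M (mpI y) (ac M H (DD M m)) := h2 (DD M m)
  rw [h4, h5] at h1
  exact (dn_inj M h1).2

lemma DD_zero : DD M (0 : Sc M x) = 0 := (DL M x).map_zero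

lemma DD_DD (m : Sc M x) : DD M (DD M m) = 0 := by
  have t2 : (2 : Dn (Dn R)) = 0 := (((x.pull (algebraMap R (Dn R))).pull
    (algebraMap (Dn R) (Dn (Dn R))))).two
  have hρ : (algebraMap (Dn R) (Dn (Dn R)) (eps R) + eps (Dn R)) *
      (algebraMap (Dn R) (Dn (Dn R)) (eps R) + eps (Dn R)) = 0 := by
    have e1 := congrArg (algebraMap (Dn R) (Dn (Dn R))) (eps_sq R)
    rw [map_mul, map_zero] at e1
    have e2 := eps_sq (Dn R)
    linear_combination e1 + e2 + (algebraMap (Dn R) (Dn (Dn R)) (eps R) * eps (Dn R)) * t2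
  have H' : Mp ((algebraMap (Dn R) (Dn (Dn R))).comp (algebraMap R (Dn R))) x
      ((x.pull (algebraMap R (Dn R))).pull (algebraMap (Dn R) (Dn (Dn R)))) 0
      (algebraMap (Dn R) (Dn (Dn R)) (eps R) + eps (Dn R)) 0 := by
    have := (mpEps x).comp (mpEps (x.pull (algebraMap R (Dn R))))
    rwa [map_zero, zero_add] at this
  have H : Mp ((algebraMap (Dn R) (Dn (Dn R))).comp (algebraMap R (Dn R))) x
      ((x.pull (algebraMap R (Dn R))).pull (algebraMap (Dn R) (Dn (Dn R)))) 0 0 0 := by
    have := (mpI x).comp (mpI (x.pull (algebraMap R (Dn R))))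
    rwa [map_zero, zero_add] at this
  have h1 := ac_rho M H _ hρ H' m
  have h2 := ac_fac M (mpEps x) (mpEps (x.pull (algebraMap R (Dn R)))) H' rfl
    (by rw [map_zero, zero_add]) rfl (by rw [map_zero, zero_add]) m
  have h3 := fun m => ac_fac M (mpI x) (mpI (x.pull (algebraMap R (Dn R)))) H rfl
    (by rw [map_zero, zero_add]) (by rw [map_zero, zero_add]) (by rw [map_zero, zero_add]) m
  rw [← h2, ac_eps, ← DD_nat, ac_eps, ac_eps, ← h3, ← h3] at h1
  change ac M (mpI _) (ac M (mpI _) m + eps R • ac M (mpI _) (DD M m)) +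
    eps (Dn R) • ac M (mpI _) (ac M (mpI _) (DD M m) +
      eps R • ac M (mpI _) (DD M (DD M m))) = _ at h1
  have h4 : ac M (mpI (x.pull (algebraMap R (Dn R)))) 0 + eps (Dn R) •
      ac M (mpI (x.pull (algebraMap R (Dn R)))) (eps R • ac M (mpI x) (DD M (DD M m))) =
      ac M (mpI (x.pull (algebraMap R (Dn R)))) 0 + eps (Dn R) •
      ac M (mpI (x.pull (algebraMap R (Dn R)))) 0 := by
    rw [map_add, map_smulₛₗ, map_add, smul_add, add_smul] at h1
    rw [map_zero, smul_zero, add_zero, zero_add]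
    have h5 := sub_eq_zero.mpr h1
    rw [← h5]
    abel
  have h6 := (dn_inj M h4).2
  have h7 : ac M (mpI x) 0 + eps R • ac M (mpI x) (DD M (DD M m)) =
      ac M (mpI x) 0 + eps R • ac M (mpI x) 0 := by
    rw [h6, map_zero, smul_zero]
  exact (dn_inj M h7).2

/-! ### The operator `δ` -/

lemma mpSig (x : Ob t R) : Mp (RingHom.id R) x x 1 0 0 where
  pi := rfl
  eta := rfl
  a := by
    rw [RingHom.id_apply]
    linear_combination (1 - x.a) * x.two
  c := by
    rw [RingHom.id_apply]
    linear_combination (-x.c) * x.two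

lemma mpId (x : Ob t R) : Mp (RingHom.id R) x x 0 0 0 where
  pi := rfl
  eta := rfl
  a := by
    rw [RingHom.id_apply]
    linear_combination (- x.a) * x.two
  c := by
    rw [RingHom.id_apply]
    linear_combination (-x.c) * x.two

/-- The operator `δ`. -/
def dl (m : Sc M x) : Sc M x := ac M (mpSig x) m - m

lemma ac_sig (m : Sc M x) : ac M (mpSig x) m = m + dl M m := by
  unfold dl
  abel

lemma dl_add (m m' : Sc M x) : dl M (m + m') = dl M m + dl M m' := by
  unfold dl
  rw [map_add]
  abel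

lemma dl_smul (r : R) (m : Sc M x) : dl M (r • m) = r • dl M m := by
  unfold dl
  rw [map_smulₛₗ, smul_sub, RingHom.id_apply]

lemma dl_zero : dl M (0 : Sc M x) = 0 := by
  unfold dl
  rw [map_zero, sub_zero]

lemma dl_nat (H : Mp φ x y p q s) (m : Sc M x) : ac M H (dl M m) = dl M (ac M H m) := by
  unfold dl
  rw [map_sub]
  congr 1
  exact ac_sq M (mpSig x) H H (mpSig y) rfl (by rw [map_one, RingHom.id_apply, add_comm])
    (by rw [map_zero, RingHom.id_apply, add_comm]) (by rw [map_zero, RingHom.id_apply, add_comm]) m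

lemma dl_dl (m : Sc M x) : dl M (dl M m) = 0 := by
  have h : ac M (mpSig x) (ac M (mpSig x) m) = m := by
    rw [ac_fac M (mpSig x) (mpSig x) (mpId x) rfl
      (by rw [map_one]; linear_combination x.two)
      (by rw [map_zero, zero_add]) (by rw [map_zero, zero_add]) m, ac_id]
  have h2 : dl M (dl M m) = (m + m) - (ac M (mpSig x) m + ac M (mpSig x) m) := by
    unfold dl
    rw [map_sub, h]
    abel
  rw [h2, sc_two, sc_two, sub_zero]

lemma dl_DD (m : Sc M x) : dl M (DD M m) = DD M (dl M m) := by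
  have h := DD_nat M (mpSig x) m
  rw [ac_sig, ac_sig, DD_add] at h
  exact add_left_cancel h

lemma exists_tor (m : Sc M x) : ∃ n : ℕ, x.pi ^ n • (x.pi • dl M m - x.eta • DD M m) = 0 := by
  let L := Localization.Away x.pi
  let i : Mp (algebraMap R L) x (x.pull (algebraMap R L)) 0 0 0 := Mp.pull _ x
  have t2 : (2 : L) = 0 := (x.pull (algebraMap R L)).two
  let u : L := IsLocalization.Away.invSelf x.pi
  have hu : algebraMap R L x.pi * u = 1 := IsLocalization.Away.mul_invSelf x.pi
  have hsq : algebraMap R L x.eta * u * (algebraMap R L x.eta * u) = 0 := by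
    have := congrArg (algebraMap R L) x.sq
    rw [map_pow, map_zero] at this
    linear_combination u ^ 2 * this
  have H₁ : Mp (algebraMap R L) x (x.pull (algebraMap R L)) 1 0 0 := by
    refine ⟨i.pi, i.eta, ?_, i.c⟩
    linear_combination i.a + t2
  have H₂ : Mp (algebraMap R L) x (x.pull (algebraMap R L)) 0 (algebraMap R L x.eta * u) 0 := by
    refine ⟨i.pi, i.eta, i.a, ?_⟩
    linear_combination i.c + hsq
  have h1 : ac M H₂ m = ac M H₁ m := by
    refine ac_congr M H₂ H₁ rfl u ?_ ?_ ?_ m
    · change 1 = 0 + algebraMap R L x.pi * u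
      rw [hu, zero_add]
    · change 0 = algebraMap R L x.eta * u + algebraMap R L x.eta * u
      linear_combination (-(algebraMap R L x.eta * u)) * t2
    · change 0 = 0 + algebraMap R L x.pi * u ^ 2 + u
      linear_combination (-u) * t2 - u * hu
  have h2 : ac M i (ac M (mpSig x) m) = ac M H₁ m :=
    ac_fac M (mpSig x) i H₁ rfl (by rw [map_one, add_zero]) (by rw [map_zero, zero_add])
      (by rw [map_zero, zero_add]) m
  have h3 := ac_rho M i _ hsq H₂ m
  have h4 : ac M i (x.pi • dl M m - x.eta • DD M m) = 0 := by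
    rw [map_sub, map_smulₛₗ, map_smulₛₗ]
    unfold dl
    rw [map_sub, h2, ← h1, h3, add_sub_cancel_left, smul_smul, ← sub_smul]
    have : algebraMap R L x.pi * (algebraMap R L x.eta * u) - algebraMap R L x.eta = 0 := by
      linear_combination algebraMap R L x.eta * hu
    rw [this, zero_smul]
  exact loc_ker x.pi (ac_isExt M i) h4

end Pool.Agent.TH165.Tan
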