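import Mathlib
import Pool.Agent.TH165.Tan2.Ops2

set_option autoImplicit false
set_option linter.unusedVariables false

open CategoryTheory

namespace Pool.Agent.TH165.Tan

variable {R S T U : Type} [CommRing R] [CommRing S] [CommRing T] [CommRing U]
  {φ φ' : R →+* S} {ψ : S →+* T} {x x' : Ob True R} {y y' : Ob True S} {z : Ob True T}
  {p q s p₁ q₁ s₁ : S} {p' q' s' : T} (M : QSh (XX True))

lemma eta_zero (x : Ob True R) : x.eta = 0 := x.cond trivial

lemma exists_norm (htwo : (2 : R) = 0) (π s : R) (n : ℕ) :
    ∃ w e : R, s = π * w ^ 2 + w + π ^ n * e := by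
  induction n with
  | zero => exact ⟨0, s, by ring⟩
  | succ n ih =>
    obtain ⟨w, e, h⟩ := ih
    refine ⟨w + π ^ n * e, π ^ n * e ^ 2, ?_⟩
    rw [h]
    have : π ^ (n + 1) = π ^ n * π := pow_succ _ _
    rw [this]
    linear_combination (-(π * w * π ^ n * e) - π * π ^ n * π ^ n * e ^ 2) * htwo

lemma cop_zero {A : Type} [AddCommGroup A] [Module R A] {a b : R} (h : IsCoprime a b) {k l : ℕ}
    {m : A} (h1 : a ^ k • m = 0) (h2 : b ^ l • m = 0) : m = 0 := by
  obtain ⟨c, d, hcd⟩ := (h.pow (m := k) (n := l))
  have : m = (c * a ^ k + d * b ^ l) • m := by rw [hcd, one_smul]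
  rw [this, add_smul, mul_smul, mul_smul, h1, h2, smul_zero, smul_zero, add_zero]

/-- The action of the automorphisms in the étale direction. -/
lemma ac_p (H : Mp (RingHom.id S) y y p 0 s) {n : ℕ} {e : S} (he : s = y.pi ^ n * e)
    (m : Sc M y) (hm : y.pi ^ n • dl M m = 0) : ac M H m = m + p • dl M m := by
  have htwo := y.two
  have hp : p ^ 2 + p + y.pi * s = 0 := by
    have := H.a
    rw [RingHom.id_apply] at this
    linear_combination this + y.a * htwo
  have hc : IsCoprime p (1 + p) := ⟨-1, 1, by ring⟩
  rw [← sub_eq_zero]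
  -- over the localization at `p`
  have key1 : ∃ k, p ^ k • (ac M H m - (m + p • dl M m)) = 0 := by
    let L := Localization.Away p
    let i : Mp (algebraMap S L) y (y.pull (algebraMap S L)) 0 0 0 := Mp.pull _ y
    have t2 : (2 : L) = 0 := (y.pull (algebraMap S L)).two
    let u : L := IsLocalization.Away.invSelf p
    have hu : algebraMap S L p * u = 1 := IsLocalization.Away.mul_invSelf p
    have hp' := congrArg (algebraMap S L) hp
    rw [map_add, map_add, map_mul, map_pow, map_zero] at hp'
    have H₁ : Mp (algebraMap S L) y (y.pull (algebraMap S L)) 1 0 0 := by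
      refine ⟨i.pi, i.eta, ?_, i.c⟩
      linear_combination i.a + t2
    have H₂ : Mp (algebraMap S L) y (y.pull (algebraMap S L)) (algebraMap S L p) 0
        (algebraMap S L s) := by
      refine ⟨i.pi, i.eta, ?_, i.c⟩
      have h0 : (y.pull (algebraMap S L)).pi = algebraMap S L y.pi := rfl
      rw [h0]
      linear_combination i.a + hp'
    have hw1 : algebraMap S L p = 1 + algebraMap S L y.pi * (algebraMap S L s * u) := by
      linear_combination (algebraMap S L p) * t2 + (algebraMap S L p + 1) * hu - u * hp'
    have h1 : ac M H₁ m = ac M H₂ m := by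
      refine ac_congr M H₁ H₂ rfl (algebraMap S L s * u) hw1 ?_ ?_ m
      · have : (y.pull (algebraMap S L)).eta = 0 := eta_zero _
        rw [this]
        ring
      · change algebraMap S L s = 0 + algebraMap S L y.pi * (algebraMap S L s * u) ^ 2 +
          algebraMap S L s * u
        have : algebraMap S L y.pi * (algebraMap S L s * u) = algebraMap S L p + 1 := by
          linear_combination (-1 : L) * hw1 - t2
        have h3 : algebraMap S L y.pi * (algebraMap S L s * u) ^ 2 =
            (algebraMap S L p + 1) * (algebraMap S L s * u) := by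
          rw [← this]; ring
        rw [h3]
        linear_combination (-(algebraMap S L s)) * hu - (algebraMap S L s * u) * t2
    have h2 : ac M i (ac M (mpSig y) m) = ac M H₁ m :=
      ac_fac M (mpSig y) i H₁ rfl (by rw [map_one, add_zero]) (by rw [map_zero, zero_add])
        (by rw [map_zero, zero_add]) m
    have h3 : ac M i (ac M H m) = ac M H₂ m :=
      ac_fac M H i H₂ rfl (by rw [add_zero]) (by rw [map_zero, zero_add])
        (by rw [add_zero]) m
    refine loc_ker p (ac_isExt M i) ?_
    rw [map_sub, h3, ← h1, ← h2, ac_sig, ← map_sub, add_sub_add_left_eq_sub, map_sub,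
      map_smulₛₗ]
    have h4 : ac M i (dl M m) - algebraMap S L p • ac M i (dl M m) =
        (1 - algebraMap S L p) • ac M i (dl M m) := by
      rw [sub_smul, one_smul]
    rw [h4]
    have h5 : 1 - algebraMap S L p = (-(algebraMap S L y.pi * algebraMap S L e * u)) *
        algebraMap S L (y.pi ^ n) := by
      rw [he, map_mul] at hw1
      linear_combination (-1 : L) * hw1
    rw [h5, mul_smul, ← map_smulₛₗ, hm, map_zero, smul_zero]
  have key2 : ∃ k, (1 + p) ^ k • (ac M H m - (m + p • dl M m)) = 0 := by
    let L := Localization.Away (1 + p)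
    let i : Mp (algebraMap S L) y (y.pull (algebraMap S L)) 0 0 0 := Mp.pull _ y
    have t2 : (2 : L) = 0 := (y.pull (algebraMap S L)).two
    let u : L := IsLocalization.Away.invSelf (1 + p)
    have hu : algebraMap S L (1 + p) * u = 1 := IsLocalization.Away.mul_invSelf (1 + p)
    rw [map_add, map_one] at hu
    have hp' := congrArg (algebraMap S L) hp
    rw [map_add, map_add, map_mul, map_pow, map_zero] at hp'
    have H₂ : Mp (algebraMap S L) y (y.pull (algebraMap S L)) (algebraMap S L p) 0
        (algebraMap S L s) := by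
      refine ⟨i.pi, i.eta, ?_, i.c⟩
      have h0 : (y.pull (algebraMap S L)).pi = algebraMap S L y.pi := rfl
      rw [h0]
      linear_combination i.a + hp'
    have hw1 : algebraMap S L y.pi * (algebraMap S L s * u) = algebraMap S L p := by
      linear_combination u * hp' - (algebraMap S L p) * t2 - (algebraMap S L p) * hu
    have h1 : ac M i m = ac M H₂ m := by
      refine ac_congr M i H₂ rfl (algebraMap S L s * u) ?_ ?_ ?_ m
      · change algebraMap S L p = 0 + algebraMap S L y.pi * (algebraMap S L s * u)
        rw [hw1, zero_add]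
      · have : (y.pull (algebraMap S L)).eta = 0 := eta_zero _
        rw [this]
        ring
      · change algebraMap S L s = 0 + algebraMap S L y.pi * (algebraMap S L s * u) ^ 2 +
          algebraMap S L s * u
        have h3 : algebraMap S L y.pi * (algebraMap S L s * u) ^ 2 =
            (algebraMap S L p) * (algebraMap S L s * u) := by
          rw [← hw1]; ring
        rw [h3]
        linear_combination (-(algebraMap S L s)) * hu
    have h3 : ac M i (ac M H m) = ac M H₂ m :=
      ac_fac M H i H₂ rfl (by rw [add_zero]) (by rw [map_zero, zero_add])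
        (by rw [add_zero]) m
    refine loc_ker (1 + p) (ac_isExt M i) ?_
    rw [map_sub, h3, ← h1, map_add, sub_add_cancel_left, map_smulₛₗ]
    have h5 : algebraMap S L p = (algebraMap S L y.pi * algebraMap S L e * u) *
        algebraMap S L (y.pi ^ n) := by
      rw [he, map_mul] at hw1
      linear_combination (-1 : L) * hw1
    rw [h5, mul_smul, ← map_smulₛₗ, hm, map_zero, smul_zero, neg_zero]
  obtain ⟨k, hk⟩ := key1
  obtain ⟨l, hl⟩ := key2
  exact cop_zero hc hk hl

/-- The action of all automorphisms. -/
lemma ac_aut (H : Mp (RingHom.id S) y y p q s) {n : ℕ} {e : S} (he : s = y.pi ^ n * e)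
    (m : Sc M y) (hm : y.pi ^ n • dl M m = 0) :
    ac M H m = m + p • dl M m + q • DD M m + (p * q) • dl M (DD M m) := by
  have htwo := y.two
  have hq : q * q = 0 := by
    have := H.c
    rw [RingHom.id_apply] at this
    linear_combination this + y.c * htwo
  have Hq : Mp (RingHom.id S) y y 0 q 0 := by
    refine ⟨rfl, rfl, (mpId y).a, ?_⟩
    linear_combination hq + (mpId y).c
  have Hp : Mp (RingHom.id S) y y p 0 s := ⟨rfl, rfl, H.a, (mpId y).c⟩
  have h1 := ac_fac M Hq Hp H rfl (by rw [map_zero, zero_add]) (by rw [RingHom.id_apply, add_zero])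
    (by rw [map_zero, zero_add]) m
  rw [← h1, ac_rho M (mpId y) q hq Hq, ac_id, ac_id, map_add, map_smulₛₗ, RingHom.id_apply,
    ac_p M Hp he m hm, ac_p M Hp he (DD M m) (by
      rw [dl_DD, ← DD_smul, hm, DD_zero]), smul_add, smul_smul, mul_comm p q]
  abel

lemma Mp.diff (H : Mp φ x y p q s) (H' : Mp φ' x y p₁ q₁ s₁) (hφ : φ = φ') :
    Mp (RingHom.id S) y y (p + p₁) (q + q₁) (s + s₁) where
  pi := rfl
  eta := rfl
  a := by
    subst hφ
    rw [RingHom.id_apply]
    linear_combination H.a + H'.a + (p * p₁ + φ x.a) * y.two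
  c := by
    subst hφ
    rw [RingHom.id_apply]
    linear_combination H.c + H'.c + (q * q₁ + φ x.c) * y.two

/-- Change of representative. -/
lemma Mp.chg (H : Mp φ x y p q s) (w : S) :
    Mp φ x y (p + y.pi * w) q (s + y.pi * w ^ 2 + w) where
  pi := H.pi
  eta := H.eta
  a := by
    linear_combination H.a + (y.pi ^ 2 * w ^ 2 + y.pi * w + p * y.pi * w) * y.two
  c := H.c

lemma ac_chg (H : Mp φ x y p q s) (w : S) (m : Sc M x) : ac M (H.chg w) m = ac M H m :=
  (ac_congr M H (H.chg w) rfl w rfl (by rw [eta_zero, zero_mul, add_zero]) rfl m).symm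

/-- Comparison of two morphisms with the same source and target. -/
lemma ac_compare (H : Mp φ x y p q s) (H' : Mp φ' x y p₁ q₁ s₁) (hφ : φ = φ') {n : ℕ} {w e : S}
    (he : s + s₁ = y.pi * w ^ 2 + w + y.pi ^ n * e)
    (m : Sc M x) (hm : x.pi ^ n • dl M m = 0) :
    ac M H' m = ac M H m + (p + p₁ + y.pi * w) • ac M H (dl M m) +
      (q + q₁) • ac M H (DD M m) +
      ((p + p₁ + y.pi * w) * (q + q₁)) • ac M H (dl M (DD M m)) := by
  have htwo := y.two
  have G := H.diff H' hφ
  have h1 : ac M H' m = ac M G (ac M H m) := by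
    refine (ac_fac M H G H' ?_ ?_ ?_ ?_ m).symm
    · rw [← hφ]
      rfl
    · rw [RingHom.id_apply]
      linear_combination p * htwo
    · rw [RingHom.id_apply]
      linear_combination q * htwo
    · rw [RingHom.id_apply]
      linear_combination s * htwo
  have h2 : s + s₁ + y.pi * w ^ 2 + w = y.pi ^ n * e := by
    rw [he]
    linear_combination (y.pi * w ^ 2 + w) * htwo
  rw [h1, ← ac_chg M G w, ac_aut M (G.chg w) h2 (ac M H m) (by
    rw [← dl_nat, ← H.pi, ← map_pow, ← map_smulₛₗ, hm, map_zero]), dl_nat, DD_nat, dl_nat, DD_nat]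

end Pool.Agent.TH165.Tan
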