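import Mathlib
import Pool.Agent.TH165.Tan2.Act

set_option autoImplicit false
set_option linter.unusedVariables false

open CategoryTheory

namespace Pool.Agent.TH165.Tan

variable {R S T U : Type} [CommRing R] [CommRing S] [CommRing T] [CommRing U]
  {φ φ' : R →+* S} {ψ : S →+* T} {x x' : Ob True R} {y y' : Ob True S} {z : Ob True T}
  {p q s p₁ q₁ s₁ : S} {p' q' s' : T} (M : QSh (XX True))

/-! ### The base object -/

/-- The prime field. -/
abbrev K2 : Type := ℤ ⧸ Ideal.span {(2 : ℤ)}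

/-- The base ring. -/
abbrev R0 : Type := Polynomial K2

/-- The map from the base ring. -/
noncomputable def rho (π : R) (h : (2 : R) = 0) : R0 →+* R :=
  Polynomial.eval₂RingHom (Ideal.Quotient.lift (Ideal.span {(2 : ℤ)}) (Int.castRingHom R) (by
    intro a ha
    obtain ⟨b, rfl⟩ := Ideal.mem_span_singleton.mp ha
    rw [map_mul, map_ofNat, h, zero_mul])) π

lemma rho_X (π : R) (h : (2 : R) = 0) : rho π h Polynomial.X = π := by
  unfold rho
  rw [Polynomial.coe_eval₂RingHom, Polynomial.eval₂_X]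

lemma rho_ext {f g : R0 →+* R} (h : f Polynomial.X = g Polynomial.X) : f = g := by
  refine Polynomial.ringHom_ext' ?_ h
  refine Ideal.Quotient.ringHom_ext ?_
  exact RingHom.ext_int _ _

lemma R0_two : (2 : R0) = 0 := by
  have h : (2 : K2) = 0 := by
    rw [← map_ofNat (Ideal.Quotient.mk (Ideal.span {(2 : ℤ)})) 2, Ideal.Quotient.eq_zero_iff_mem]
    exact Ideal.mem_span_singleton_self 2
  rw [← map_ofNat (Polynomial.C : K2 →+* R0) 2, h, map_zero]

/-- The base object. -/
noncomputable def x0 : Ob True R0 where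
  pi := Polynomial.X
  eta := 0
  a := 0
  c := 0
  two := R0_two
  sq := by ring
  cond _ := rfl

/-- The map from the base ring. -/
noncomputable def Ob.rho (x : Ob True R) : R0 →+* R := Tan.rho x.pi x.two

lemma Ob.rho_pi (x : Ob True R) : x.rho x0.pi = x.pi := rho_X _ _

lemma Mp.rho_eq {f : R0 →+* S} (H : Mp f x0 y p q s) : f = y.rho :=
  rho_ext (H.pi.trans y.rho_pi.symm)

lemma Mp.comp_rho (H : Mp φ x y p q s) : φ.comp x.rho = y.rho := by
  apply rho_ext
  rw [RingHom.comp_apply]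
  have h1 : x.rho Polynomial.X = x.pi := x.rho_pi
  have h2 : y.rho Polynomial.X = y.pi := y.rho_pi
  rw [h1, h2, H.pi]

/-! ### Quadratic covers -/

section

variable (a b : R) (x)

/-- The inclusion into the quadratic cover. -/
lemma mpq : Mp (algebraMap R (QuadraticAlgebra R a b)) x
    (x.pull (algebraMap R (QuadraticAlgebra R a b))) 0 0 0 := Mp.pull _ x

lemma q_decomp (m : Sc M (x.pull (algebraMap R (QuadraticAlgebra R a b)))) :
    ∃! u : Sc M x × Sc M x, ac M (mpq x a b) u.1 +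
      (QuadraticAlgebra.omega : QuadraticAlgebra R a b) • ac M (mpq x a b) u.2 = m :=
  qa_decomp (ac_isExt M (mpq x a b)) m

variable {x}

lemma q_uniq {u v u' v' : Sc M x} (h : ac M (mpq x a b) u +
      (QuadraticAlgebra.omega : QuadraticAlgebra R a b) • ac M (mpq x a b) v =
      ac M (mpq x a b) u' +
      (QuadraticAlgebra.omega : QuadraticAlgebra R a b) • ac M (mpq x a b) v') :
    u = u' ∧ v = v' := by
  have := (q_decomp x M a b _).unique (y₁ := (u, v)) (y₂ := (u', v')) h rfl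
  exact ⟨congrArg Prod.fst this, congrArg Prod.snd this⟩

lemma q_inj : Function.Injective (ac M (mpq x a b)) := by
  intro u v h
  refine (q_uniq M a b (u := u) (u' := v) (v := 0) (v' := 0) ?_).1
  rw [h]

/-- Extension of morphisms to the quadratic cover. -/
lemma q_push {w : Ob True U} {χ : R →+* U} {P Q Z : U} (f : Mp χ x w P Q Z) {a' b' : U}
    (ha : χ a = a') (hb : χ b = b') :
    ∃ χ' : QuadraticAlgebra R a b →+* QuadraticAlgebra U a' b',
      χ'.comp (algebraMap R _) = (algebraMap U _).comp χ ∧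
      χ' QuadraticAlgebra.omega = QuadraticAlgebra.omega ∧
      Mp χ' (x.pull (algebraMap R (QuadraticAlgebra R a b)))
        (w.pull (algebraMap U (QuadraticAlgebra U a' b'))) (algebraMap U _ P)
        (algebraMap U _ Q) (algebraMap U _ Z) := by
  have h1 : (QuadraticAlgebra.omega : QuadraticAlgebra U a' b') * QuadraticAlgebra.omega =
    ((algebraMap U (QuadraticAlgebra U a' b')).comp χ) a +
      ((algebraMap U (QuadraticAlgebra U a' b')).comp χ) b * QuadraticAlgebra.omega := by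
    rw [omega_sq, RingHom.comp_apply, RingHom.comp_apply, ha, hb]
  refine ⟨qaL ((algebraMap U _).comp χ) QuadraticAlgebra.omega h1, qaL_alg _ _ _,
    qaL_omega _ _ _, ?_, ?_, ?_, ?_⟩
  · refine (qaL_alg' _ _ _ _).trans ?_
    rw [RingHom.comp_apply, f.pi]
    rfl
  · refine (qaL_alg' _ _ _ _).trans ?_
    rw [RingHom.comp_apply, f.eta]
    rfl
  · have h2 := qaL_alg' ((algebraMap U _).comp χ) QuadraticAlgebra.omega h1 x.a
    have h3 := congrArg (algebraMap U (QuadraticAlgebra U a' b')) f.a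
    rw [map_add, map_add, map_add, map_mul, map_pow] at h3
    refine h3.trans ?_
    exact congrArg (fun t => t + (w.pull (algebraMap U (QuadraticAlgebra U a' b'))).a) h2.symm
  · have h2 := qaL_alg' ((algebraMap U _).comp χ) QuadraticAlgebra.omega h1 x.c
    have h3 := congrArg (algebraMap U (QuadraticAlgebra U a' b')) f.c
    rw [map_add, map_pow] at h3
    refine h3.trans ?_
    exact congrArg (fun t => t + (w.pull (algebraMap U (QuadraticAlgebra U a' b'))).c) h2.symm

/-- Descent of elements along a quadratic cover. -/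
lemma q_desc (m : Sc M (x.pull (algebraMap R (QuadraticAlgebra R a b))))
    (h : ∀ (U : Type) [CommRing U] (w : Ob True U) (χ₁ χ₂ : QuadraticAlgebra R a b →+* U)
      (e₁ : Mp χ₁ (x.pull (algebraMap R (QuadraticAlgebra R a b))) w 0 0 0)
      (e₂ : Mp χ₂ (x.pull (algebraMap R (QuadraticAlgebra R a b))) w 0 0 0),
      χ₁.comp (algebraMap R _) = χ₂.comp (algebraMap R _) → ac M e₁ m = ac M e₂ m) :
    ∃ n : Sc M x, ac M (mpq x a b) n = m := by
  let A := QuadraticAlgebra R a b
  let B := QuadraticAlgebra A (algebraMap R A a) (algebraMap R A b)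
  obtain ⟨⟨u, v⟩, huv, -⟩ := q_decomp x M a b m
  have e₁ : Mp (algebraMap A B) (x.pull (algebraMap R A)) ((x.pull (algebraMap R A)).pull
    (algebraMap A B)) 0 0 0 := mpq _ _ _
  obtain ⟨χ₂, h1, h2, e₂⟩ := q_push a b (mpq x a b) (a' := algebraMap R A a)
    (b' := algebraMap R A b) rfl rfl
  rw [map_zero] at e₂
  have h3 := h B _ (algebraMap A B) χ₂ e₁ e₂ h1.symm
  have h4 : ac M e₂ m = ac M e₁ (ac M (mpq x a b) u) +
      (QuadraticAlgebra.omega : B) • ac M e₁ (ac M (mpq x a b) v) := by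
    rw [← huv, map_add, map_smulₛₗ, h2]
    have h5 := fun m => ac_sq M (mpq x a b) e₂ (mpq x a b) e₁ h1 (by rw [map_zero, map_zero])
      (by rw [map_zero, map_zero]) (by rw [map_zero, map_zero]) m
    rw [h5, h5]
  rw [h4] at h3
  have h6 := q_uniq M (x := x.pull (algebraMap R A)) (algebraMap R A a) (algebraMap R A b)
    (u := m) (v := 0) (u' := ac M (mpq x a b) u) (v' := ac M (mpq x a b) v) (by
      rw [map_zero, smul_zero, add_zero]
      exact h3)
  exact ⟨u, h6.1.symm⟩

end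

/-! ### The cover of an object -/

/-- Covers of `x` over which `x` becomes isomorphic to the base object. -/
structure Cov (x : Ob True R) where
  S : Type
  [cr : CommRing S]
  y : Ob True S
  ι : R →+* S
  i : Mp ι x y 0 0 0
  p : S
  q : S
  u : Mp y.rho x0 y p q 0
  inj (M : QSh (XX True)) : Function.Injective (ac M i)
  desc (M : QSh (XX True)) (m : Sc M y)
    (h : ∀ (U : Type) [CommRing U] (w : Ob True U) (χ₁ χ₂ : S →+* U)
      (e₁ : Mp χ₁ y w 0 0 0) (e₂ : Mp χ₂ y w 0 0 0),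
      χ₁.comp ι = χ₂.comp ι → ac M e₁ m = ac M e₂ m) : ∃ n : Sc M x, ac M i n = m
  push {U : Type} [CommRing U] {w : Ob True U} {χ : R →+* U} {P Q Z : U} (f : Mp χ x w P Q Z) :
    ∃ (U' : Type) (_ : CommRing U') (w' : Ob True U') (κ : U →+* U') (j : Mp κ w w' 0 0 0)
      (χ' : S →+* U') (_ : Mp χ' y w' (κ P) (κ Q) (κ Z)), χ'.comp ι = κ.comp χ ∧
        ∀ M, Function.Injective (ac M j)
  ext (M : QSh (XX True)) {R' : Type} [CommRing R'] {ρ : R' →+* R} {M₀ : Type}
    [AddCommGroup M₀] [Module R' M₀] (j : M₀ →ₛₗ[ρ] Sc M x) (k : M₀ →ₛₗ[ι.comp ρ] Sc M y)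
    (hk : ∀ m, k m = ac M i (j m)) (hk' : IsExtL k) : IsExtL j

attribute [instance] Cov.cr

lemma comp_inj {A B C : Type} {f : A → B} {g : B → C} {h : A → C} (hf : Function.Injective f)
    (hg : Function.Injective g) (e : ∀ a, g (f a) = h a) : Function.Injective h := by
  intro a b hab
  rw [← e, ← e] at hab
  exact hf (hg hab)

theorem exists_cov (x : Ob True R) : Nonempty (Cov x) := by
  let R₁ := QuadraticAlgebra R x.c 0
  let x₁ : Ob True R₁ := x.pull (algebraMap R R₁)
  let R₂ := QuadraticAlgebra R₁ (algebraMap R R₁ x.a) 1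
  let x₂ : Ob True R₂ := x₁.pull (algebraMap R₁ R₂)
  have i₁ : Mp (algebraMap R R₁) x x₁ 0 0 0 := mpq x x.c 0
  have i₂ : Mp (algebraMap R₁ R₂) x₁ x₂ 0 0 0 := mpq x₁ (algebraMap R R₁ x.a) 1
  have i : Mp ((algebraMap R₁ R₂).comp (algebraMap R R₁)) x x₂ 0 0 0 := by
    have := i₁.comp i₂
    rwa [map_zero, zero_add] at this
  have hi : ∀ (M : QSh (XX True)) (m : Sc M x), ac M i₂ (ac M i₁ m) = ac M i m := fun M m =>
    ac_fac M i₁ i₂ i rfl (by rw [map_zero, zero_add]) (by rw [map_zero, zero_add])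
      (by rw [map_zero, zero_add]) m
  refine ⟨{ S := R₂, y := x₂, ι := (algebraMap R₁ R₂).comp (algebraMap R R₁), i := i
            p := QuadraticAlgebra.omega, q := algebraMap R₁ R₂ QuadraticAlgebra.omega
            u := ?_, inj := ?_, desc := ?_, push := ?_, ext := ?_ }⟩
  · refine ⟨x₂.rho_pi, ?_, ?_, ?_⟩
    · rw [eta_zero, eta_zero, map_zero]
    · have h1 := omega_sq (algebraMap R R₁ x.a) (1 : R₁)
      have h2 : x₂.rho x0.a = 0 := map_zero _
      have h3 : x₂.a = algebraMap R₁ R₂ (algebraMap R R₁ x.a) := rfl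
      rw [h2, h3]
      rw [map_one] at h1
      linear_combination h1 + (QuadraticAlgebra.omega : R₂) * x₂.two
    · have h1 := congrArg (algebraMap R₁ R₂) (omega_sq x.c (0 : R))
      have h2 : x₂.rho x0.c = 0 := map_zero _
      have h3 : x₂.c = algebraMap R₁ R₂ (algebraMap R R₁ x.c) := rfl
      rw [h2, h3]
      rw [map_mul, map_add, map_mul, map_zero, map_zero] at h1
      linear_combination h1
  · intro M
    exact comp_inj (q_inj M (x := x) x.c 0) (q_inj M (x := x₁) (algebraMap R R₁ x.a) 1) (hi M)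
  · intro M m h
    obtain ⟨n₁, hn₁⟩ := q_desc M (x := x₁) (algebraMap R R₁ x.a) 1 m (by
      intro U _ w χ₁ χ₂ e₁ e₂ h'
      refine h U w χ₁ χ₂ e₁ e₂ ?_
      rw [← RingHom.comp_assoc, ← RingHom.comp_assoc, h'])
    obtain ⟨n, hn⟩ := q_desc M (x := x) x.c 0 n₁ (by
      intro U _ w χ₁ χ₂ e₁ e₂ h'
      have ha : χ₁ (algebraMap R R₁ x.a) = χ₂ (algebraMap R R₁ x.a) := RingHom.congr_fun h' x.a
      obtain ⟨κ₁, c1, c2, f₁⟩ := q_push (x := x₁) (algebraMap R R₁ x.a) 1 e₁ rfl (map_one χ₁)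
      obtain ⟨κ₂, d1, d2, f₂⟩ := q_push (x := x₁) (algebraMap R R₁ x.a) 1 e₂ ha.symm (map_one χ₂)
      rw [map_zero] at f₁ f₂
      refine q_inj M (χ₁ (algebraMap R R₁ x.a)) 1 ?_
      have h1 := ac_sq M i₂ f₁ e₁ (mpq w (χ₁ (algebraMap R R₁ x.a)) 1) c1
        (by rw [map_zero, map_zero]) (by rw [map_zero, map_zero]) (by rw [map_zero, map_zero]) n₁
      have h2 := ac_sq M i₂ f₂ e₂ (mpq w (χ₁ (algebraMap R R₁ x.a)) 1) d1
        (by rw [map_zero, map_zero]) (by rw [map_zero, map_zero]) (by rw [map_zero, map_zero]) n₁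
      have h3 : ac M i₂ n₁ = m := hn₁
      rw [← h1, ← h2, h3]
      refine h _ _ κ₁ κ₂ f₁ f₂ ?_
      rw [← RingHom.comp_assoc, ← RingHom.comp_assoc, c1, d1, RingHom.comp_assoc,
        RingHom.comp_assoc]
      exact congrArg (RingHom.comp _) h')
    refine ⟨n, ?_⟩
    rw [← hi]
    exact (congrArg (ac M i₂) hn).trans hn₁
  · intro U _ w χ P Q Z f
    obtain ⟨χ₁, c1, -, f₁⟩ := q_push (x := x) x.c 0 f rfl (map_zero χ)
    have hb : χ₁ (algebraMap R R₁ x.a) = algebraMap U _ (χ x.a) := RingHom.congr_fun c1 x.a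
    obtain ⟨χ₂, d1, -, f₂⟩ := q_push (x := x₁) (algebraMap R R₁ x.a) 1 f₁ rfl (map_one χ₁)
    have j₁ := mpq w (χ x.c) 0
    have j₂ := mpq (w.pull (algebraMap U (QuadraticAlgebra U (χ x.c) 0)))
      (χ₁ (algebraMap R R₁ x.a)) 1
    have j := j₁.comp j₂
    rw [map_zero, zero_add] at j
    refine ⟨_, _, _, _, j, χ₂, f₂, ?_, ?_⟩
    · rw [← RingHom.comp_assoc, d1, RingHom.comp_assoc, c1]
      rfl
    · intro M
      refine comp_inj (q_inj M (x := w) (χ x.c) 0) (q_inj M
        (x := w.pull (algebraMap U (QuadraticAlgebra U (χ x.c) 0)))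
        (χ₁ (algebraMap R R₁ x.a)) 1) (fun m => ?_)
      exact ac_fac M j₁ j₂ j rfl (by rw [map_zero, zero_add]) (by rw [map_zero, zero_add])
        (by rw [map_zero, zero_add]) m
  · intro M R' _ ρ M₀ _ _ j k hk hk'
    have hg₁ := ac_isExt M (mpq x x.c 0)
    have hg₂ := ac_isExt M (mpq x₁ (algebraMap R R₁ x.a) 1)
    have : RingHomCompTriple ρ (algebraMap R R₁) ((algebraMap R R₁).comp ρ) := ⟨rfl⟩
    have h1 : IsExtL ((ac M i₁).comp j) := by
      refine qa_desc hg₂ ((ac M i₁).comp j) k (fun m => ?_) hk'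
      rw [hk]
      exact (hi M (j m)).symm
    exact qa_desc hg₁ j ((ac M i₁).comp j) (fun m => rfl) h1

end Pool.Agent.TH165.Tan
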