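import Mathlib
import Pool.Agent.TH165.Tan2.Cover

set_option autoImplicit false
set_option linter.unusedVariables false

open CategoryTheory

namespace Pool.Agent.TH165.Tan

lemma ext_span {R S M N : Type} [CommRing R] [CommRing S] [AddCommGroup M] [Module R M]
    [AddCommGroup N] [Module S N] {φ : R →+* S} {g : M →ₛₗ[φ] N} (hg : IsExtL g) :
    Submodule.span S (Set.range g) = ⊤ := by
  have h1 : (Submodule.span S (Set.range g)).mkQ = 0 := by
    refine hg.hom_ext fun m => ?_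
    rw [LinearMap.zero_apply, Submodule.mkQ_apply, Submodule.Quotient.mk_eq_zero]
    exact Submodule.subset_span ⟨m, rfl⟩
  rw [← Submodule.ker_mkQ (Submodule.span S (Set.range g)), h1, LinearMap.ker_zero]

lemma ext_ind {R S M N : Type} [CommRing R] [CommRing S] [AddCommGroup M] [Module R M]
    [AddCommGroup N] [Module S N] {φ : R →+* S} {g : M →ₛₗ[φ] N} (hg : IsExtL g)
    {P : N → Prop} (h0 : P 0) (hadd : ∀ a b, P a → P b → P (a + b))
    (hsmul : ∀ (s : S) n, P n → P (s • n)) (hgen : ∀ m, P (g m)) (n : N) : P n := by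
  have hn : n ∈ Submodule.span S (Set.range g) := by
    rw [ext_span hg]
    exact Submodule.mem_top
  induction hn using Submodule.span_induction with
  | mem x hx =>
    obtain ⟨m, rfl⟩ := hx
    exact hgen m
  | zero => exact h0
  | add x y _ _ hx hy => exact hadd x y hx hy
  | smul s x _ hx => exact hsmul s x hx

variable {R S T U : Type} [CommRing R] [CommRing S] [CommRing T] [CommRing U]
  {φ φ' : R →+* S} {ψ : S →+* T} {x x' : Ob True R} {y y' : Ob True S} {z : Ob True T}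
  {p q s p₁ q₁ s₁ : S} {p' q' s' : T} {f f' : R0 →+* S}

lemma exists_tor' (M : QSh (XX True)) (m : Sc M x) : ∃ n : ℕ, x.pi ^ n • dl M m = 0 := by
  obtain ⟨n, hn⟩ := exists_tor M m
  refine ⟨n + 1, ?_⟩
  rw [eta_zero, zero_smul, sub_zero, smul_smul] at hn
  rw [pow_succ, hn]

section

variable {M N : QSh (XX True)} (h : Sc M x0 →ₗ[R0] Sc N x0)

/-- The map over trivialized objects. -/
noncomputable def HT (Hu : Mp f x0 y p q s) : Sc M y →ₗ[S] Sc N y :=
  (ac_isExt M Hu (Sc N y) ((ac N Hu).comp h)).exists.choose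

lemma HT_ac (Hu : Mp f x0 y p q s) (m : Sc M x0) : HT h Hu (ac M Hu m) = ac N Hu (h m) :=
  (ac_isExt M Hu (Sc N y) ((ac N Hu).comp h)).exists.choose_spec m

variable (hd : ∀ m, h (dl M m) = dl N (h m)) (hD : ∀ m, h (DD M m) = DD N (h m))

include hd hD

lemma HT_eq (Hu : Mp f x0 y p q s) (Hu' : Mp f' x0 y p₁ q₁ s₁) : HT h Hu = HT h Hu' := by
  refine (ac_isExt M Hu').hom_ext fun m => ?_
  obtain ⟨n, hn⟩ := exists_tor' M m
  obtain ⟨w, e, hwe⟩ := exists_norm y.two y.pi (s + s₁) n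
  have hff : f = f' := Hu.rho_eq.trans Hu'.rho_eq.symm
  have hn' : x0.pi ^ n • dl N (h m) = 0 := by rw [← hd, ← map_smul, hn, map_zero]
  rw [HT_ac, ac_compare M Hu Hu' hff hwe m hn, ac_compare N Hu Hu' hff hwe (h m) hn', map_add,
    map_add, map_add, map_smul, map_smul, map_smul, HT_ac, HT_ac, HT_ac, HT_ac, hd, hD, hd, hD]

lemma HT_nat (Hu : Mp f x0 y p q s) (e : Mp ψ y z p' q' s') {g : R0 →+* T} {p₂ q₂ s₂ : T}
    (Hu' : Mp g x0 z p₂ q₂ s₂) (m : Sc M y) :
    ac N e (HT h Hu m) = HT h Hu' (ac M e m) := by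
  rw [HT_eq h hd hD Hu' (Hu.comp e)]
  refine ext_ind (P := fun m => ac N e (HT h Hu m) = HT h (Hu.comp e) (ac M e m))
    (ac_isExt M Hu) ?_ ?_ ?_ ?_ m
  · rw [map_zero, map_zero, map_zero, map_zero]
  · intro a b ha hb
    rw [map_add, map_add, map_add, map_add, ha, hb]
  · intro r a ha
    rw [map_smul, map_smulₛₗ, map_smulₛₗ, map_smul, ha]
  · intro m
    rw [HT_ac, ac_ac, ac_ac, HT_ac]

lemma exists_hx (c : Cov x) (m : Sc M x) : ∃ n : Sc N x, ac N c.i n = HT h c.u (ac M c.i m) := by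
  refine c.desc N _ fun U _ w χ₁ χ₂ e₁ e₂ hχ => ?_
  rw [HT_nat h hd hD c.u e₁ (c.u.comp e₁), HT_nat h hd hD c.u e₂ (c.u.comp e₁)]
  congr 1
  exact ac_sq M c.i e₁ c.i e₂ hχ (by rw [map_zero, map_zero]) (by rw [map_zero, map_zero])
    (by rw [map_zero, map_zero]) m

omit hd hD in
/-- The map over general objects. -/
noncomputable def HX (hd : ∀ m, h (dl M m) = dl N (h m)) (hD : ∀ m, h (DD M m) = DD N (h m))
    (x : Ob True R) (m : Sc M x) : Sc N x :=
  (exists_hx h hd hD (Classical.choice (exists_cov x)) m).choose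

lemma HX_spec {w : Ob True U} {χ : R →+* U} {P Q Z : U} (e : Mp χ x w P Q Z) {g : R0 →+* U}
    {p₂ q₂ s₂ : U} (Hu : Mp g x0 w p₂ q₂ s₂) (m : Sc M x) :
    ac N e (HX h hd hD x m) = HT h Hu (ac M e m) := by
  let c := Classical.choice (exists_cov x)
  have hc : ac N c.i (HX h hd hD x m) = HT h c.u (ac M c.i m) :=
    (exists_hx h hd hD c m).choose_spec
  obtain ⟨U', _, w', κ, j, χ', e', hχ, hj⟩ := c.push e
  apply hj N
  have h1 := fun (L : QSh (XX True)) (m : Sc L x) => ac_sq L e j c.i e' hχ.symm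
    (by rw [map_zero, add_zero, zero_add]) (by rw [map_zero, add_zero, zero_add])
    (by rw [map_zero, add_zero, zero_add]) m
  rw [h1 N, hc, HT_nat h hd hD c.u e' (c.u.comp e'), HT_nat h hd hD Hu j (c.u.comp e'), h1 M]

lemma HX_ext {m : Sc M x} {n : Sc N x} (h' : ∀ (U : Type) [CommRing U] (w : Ob True U)
    (χ : R →+* U) (P Q Z : U) (e : Mp χ x w P Q Z) (g : R0 →+* U)
    (p₂ q₂ s₂ : U) (Hu : Mp g x0 w p₂ q₂ s₂), ac N e n = HT h Hu (ac M e m)) :
    HX h hd hD x m = n := by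
  let c := Classical.choice (exists_cov x)
  apply c.inj N
  rw [h' _ _ _ _ _ _ c.i _ _ _ _ c.u]
  exact (exists_hx h hd hD c m).choose_spec

lemma HX_add (m m' : Sc M x) : HX h hd hD x (m + m') = HX h hd hD x m + HX h hd hD x m' := by
  refine HX_ext h hd hD fun U _ w χ P Q Z e g p₂ q₂ s₂ Hu => ?_
  rw [map_add, map_add, map_add, HX_spec h hd hD e Hu, HX_spec h hd hD e Hu]

lemma HX_smul (r : R) (m : Sc M x) : HX h hd hD x (r • m) = r • HX h hd hD x m := by
  refine HX_ext h hd hD fun U _ w χ P Q Z e g p₂ q₂ s₂ Hu => ?_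
  rw [map_smulₛₗ, map_smulₛₗ, map_smul, HX_spec h hd hD e Hu]

lemma HX_nat (H : Mp φ x y p q s) (m : Sc M x) :
    HX h hd hD y (ac M H m) = ac N H (HX h hd hD x m) := by
  refine HX_ext h hd hD fun U _ w χ P Q Z e g p₂ q₂ s₂ Hu => ?_
  rw [ac_ac, ac_ac, HX_spec h hd hD (H.comp e) Hu]

lemma HX_x0 (m : Sc M x0) : HX h hd hD x0 m = h m := by
  have h1 := HX_spec h hd hD (mpId x0) (mpId x0) m
  have h2 := HT_ac h (mpId x0) m
  rw [h2, ac_id, ac_id] at h1
  exact h1

omit hd hD in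
/-- The extension of a map on the sections over the base object to a morphism of sheaves. -/
noncomputable def homOf (hd : ∀ m, h (dl M m) = dl N (h m)) (hD : ∀ m, h (DD M m) = DD N (h m)) :
    QSh.Hom M N where
  app {R} _ x := ⟨({ toFun := HX h hd hD (show Ob True R from x)
                     map_add' := HX_add h hd hD
                     map_smul' := HX_smul h hd hD } : Sc M x →ₗ[R] Sc N x)⟩
  nat {R S _ _ φ x y} f := by
    change XHom φ x y at f
    obtain ⟨p, q, s, H, rfl⟩ := exists_mp f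
    exact Slin.ext' fun m => HX_nat h hd hD H m

end

/-- The value of a morphism of sheaves. -/
def ap {M N : QSh (XX True)} (a : QSh.Hom M N) (x : Ob True R) : Sc M x →ₗ[R] Sc N x :=
  (QSh.Hom.app a (show (XX True).Obj R from x)).lin

lemma ap_nat {M N : QSh (XX True)} (a : QSh.Hom M N) (H : Mp φ x y p q s) (m : Sc M x) :
    ap a y (ac M H m) = ac N H (ap a x m) :=
  QSh.Hom.naturality (X := XX True) a H.hom m

lemma ap_homOf {M N : QSh (XX True)} (h : Sc M x0 →ₗ[R0] Sc N x0)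
    (hd : ∀ m, h (dl M m) = dl N (h m)) (hD : ∀ m, h (DD M m) = DD N (h m)) (m : Sc M x0) :
    ap (homOf h hd hD) x0 m = h m := HX_x0 h hd hD m

/-- Morphisms of sheaves are determined by their value over the base object. -/
lemma hom_ext0 {M N : QSh (XX True)} {a b : QSh.Hom M N}
    (h : ∀ m : Sc M x0, ap a x0 m = ap b x0 m) : a = b := by
  refine QSh.hom_ext _ _ fun {R} _ x m => ?_
  change Ob True R at x
  change Sc M x at m
  change ap a x m = ap b x m
  let c := Classical.choice (exists_cov x)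
  apply c.inj N
  rw [← ap_nat, ← ap_nat]
  have h1 : ap a c.y = ap b c.y := by
    refine (ac_isExt M c.u).hom_ext fun m => ?_
    rw [ap_nat, ap_nat, h]
  rw [h1]

lemma ap_dl {M N : QSh (XX True)} (a : QSh.Hom M N) (m : Sc M x) :
    ap a x (dl M m) = dl N (ap a x m) := by
  unfold dl
  rw [map_sub, ap_nat]

lemma ap_DD {M N : QSh (XX True)} (a : QSh.Hom M N) (m : Sc M x) :
    ap a x (DD M m) = DD N (ap a x m) := by
  have h1 := ap_nat a (mpEps x) m
  rw [ac_eps, ac_eps, map_add, map_smul, ap_nat, ap_nat] at h1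
  exact (dn_inj N h1).2

end Pool.Agent.TH165.Tan
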