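import Mathlib
import Pool.Agent.TH165.Tan2.Extn

set_option autoImplicit false
set_option linter.unusedVariables false

open CategoryTheory TensorProduct

namespace Pool.Agent.TH165.Tan

/-! ### Quotients of rings by one element, as modules -/

section

variable {R S : Type} [CommRing R] [CommRing S]

/-- The quotient of `R` by `g R`. -/
def Qg (g : R) : Type :=
  @HasQuotient.Quotient R (Submodule R R) Submodule.hasQuotient (Submodule.span R {g})

instance (g : R) : AddCommGroup (Qg g) :=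
  inferInstanceAs (AddCommGroup (@HasQuotient.Quotient R (Submodule R R) Submodule.hasQuotient
    (Submodule.span R {g})))

instance (g : R) : Module R (Qg g) :=
  inferInstanceAs (Module R (@HasQuotient.Quotient R (Submodule R R) Submodule.hasQuotient
    (Submodule.span R {g})))

/-- The quotient map. -/
def qmk (g : R) : R →ₗ[R] Qg g := Submodule.mkQ (Submodule.span R {g})

lemma qmk_surj {g : R} (v : Qg g) : ∃ r : R, qmk g r = v :=
  Submodule.mkQ_surjective (Submodule.span R {g}) v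

lemma qmk_eq_zero {g : R} {r : R} : qmk g r = 0 ↔ ∃ e, r = g * e := by
  refine (Submodule.Quotient.mk_eq_zero (Submodule.span R {g})).trans ?_
  rw [Submodule.mem_span_singleton]
  constructor
  · rintro ⟨e, rfl⟩
    exact ⟨e, by rw [smul_eq_mul, mul_comm]⟩
  · rintro ⟨e, rfl⟩
    exact ⟨e, by rw [smul_eq_mul, mul_comm]⟩

lemma qmk_self (g : R) : qmk g g = 0 := qmk_eq_zero.mpr ⟨1, by ring⟩

lemma qmk_eq {g : R} {r s : R} (h : ∃ e, r = s + g * e) : qmk g r = qmk g s := by
  obtain ⟨e, rfl⟩ := h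
  rw [map_add, qmk_eq_zero.mpr ⟨e, rfl⟩, add_zero]

/-- Maps out of the quotient. -/
def qlift {g : R} {P : Type} [AddCommGroup P] [Module R P] (p : P) (h : g • p = 0) :
    Qg g →ₗ[R] P :=
  Submodule.liftQ (Submodule.span R {g}) (LinearMap.toSpanSingleton R P p) (by
    rw [Submodule.span_le]
    rintro _ rfl
    exact h)

lemma qlift_mk {g : R} {P : Type} [AddCommGroup P] [Module R P] (p : P) (h : g • p = 0) (r : R) :
    qlift p h (qmk g r) = r • p := rfl

/-- The map between the quotients. -/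
def qmap (φ : R →+* S) {g : R} {g' : S} (h : φ g = g') : Qg g →ₛₗ[φ] Qg g' :=
  Submodule.liftQ (Submodule.span R {g}) ((qmk g').comp φ.toSemilinearMap) (by
    rw [Submodule.span_le]
    intro r hr
    rw [Set.mem_singleton_iff.mp hr]
    change qmk g' (φ g) = 0
    rw [h, qmk_self])

lemma qmap_mk (φ : R →+* S) {g : R} {g' : S} (h : φ g = g') (r : R) :
    qmap φ h (qmk g r) = qmk g' (φ r) := rfl

/-! ### The additive polynomials -/

/-- The additive polynomial `u + u ^ 2 + u ^ 4 + ...`, with `n` terms. -/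
def sm : ℕ → R → R
  | 0, _ => 0
  | n + 1, u => sm n u + u ^ (2 ^ n)

lemma pow_two_add (h : (2 : R) = 0) (n : ℕ) (u v : R) :
    (u + v) ^ (2 ^ n) = u ^ (2 ^ n) + v ^ (2 ^ n) := by
  induction n with
  | zero => simp
  | succ n ih => rw [pow_succ, pow_mul, ih, add_sq_two h, ← pow_mul, ← pow_mul]

lemma sm_zero (n : ℕ) : sm n (0 : R) = 0 := by
  induction n with
  | zero => rfl
  | succ n ih => rw [sm, ih, zero_pow (by positivity), add_zero]

lemma sm_add (h : (2 : R) = 0) (n : ℕ) (u v : R) : sm n (u + v) = sm n u + sm n v := by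
  induction n with
  | zero => simp [sm]
  | succ n ih =>
    rw [sm, sm, sm, ih, pow_two_add h]
    ring

lemma sm_sq (h : (2 : R) = 0) (n : ℕ) (u : R) : sm n u ^ 2 + sm n u = u + u ^ (2 ^ n) := by
  induction n with
  | zero =>
    simp only [sm, pow_zero, pow_one]
    linear_combination (-u) * h
  | succ n ih =>
    have h1 : u ^ (2 ^ (n + 1)) = (u ^ (2 ^ n)) ^ 2 := by rw [← pow_mul, pow_succ]
    rw [sm, h1]
    linear_combination ih + (sm n u * u ^ (2 ^ n) + u ^ (2 ^ n)) * h

lemma sm_pow (h : (2 : R) = 0) (n : ℕ) (u : R) : sm n (u ^ 2) = sm n u ^ 2 := by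
  induction n with
  | zero => simp [sm]
  | succ n ih =>
    rw [sm, sm, add_sq_two h, ih, ← pow_mul, ← pow_mul, mul_comm 2]

lemma sm_map (φ : R →+* S) (n : ℕ) (u : R) : φ (sm n u) = sm n (φ u) := by
  induction n with
  | zero => simp [sm]
  | succ n ih => rw [sm, sm, map_add, ih, map_pow]

lemma sm_dvd (n : ℕ) {a u : R} (h : a ∣ u) : a ∣ sm n u := by
  induction n with
  | zero => exact dvd_zero a
  | succ n ih =>
    rw [sm]
    exact dvd_add ih (dvd_pow h (by positivity))

end

variable {R S T U : Type} [CommRing R] [CommRing S] [CommRing T] [CommRing U]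
  {φ φ' : R →+* S} {ψ : S →+* T} {x x' : Ob True R} {y y' : Ob True S} {z : Ob True T}
  {p q s p₁ q₁ s₁ : S} {p' q' s' : T} {f f' : R0 →+* S}

/-! ### Extensions given by cocycles -/

/-- The data for an extension of the structure sheaf by a quotient of the structure sheaf. -/
structure Coc where
  gr : R0
  g {R : Type} [CommRing R] (x : Ob True R) : R
  g_rho {R : Type} [CommRing R] (x : Ob True R) : g x = x.rho gr
  al {R : Type} [CommRing R] (x : Ob True R) : R
  th : ℕ
  z {R : Type} [CommRing R] (x : Ob True R) (p q s : R) : R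
  g_map {R S : Type} [CommRing R] [CommRing S] (φ : R →+* S) (x : Ob True R) (y : Ob True S) :
    φ x.pi = y.pi → φ (g x) = g y
  z_map {R S : Type} [CommRing R] [CommRing S] (φ : R →+* S) (x : Ob True R) (y : Ob True S)
    (p q s : R) : φ x.pi = y.pi → φ (z x p q s) = z y (φ p) (φ q) (φ s)
  z_add {R : Type} [CommRing R] (x : Ob True R) (p q s p' q' s' : R) :
    z x (p + p') (q + q') (s + s') = z x p q s + z x p' q' s'
  z_w {R : Type} [CommRing R] (x : Ob True R) (w : R) :
    ∃ e, z x (x.pi * w) 0 (x.pi * w ^ 2 + w) = g x * e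
  z_sq {R S : Type} [CommRing R] [CommRing S] {φ : R →+* S} {x : Ob True R} {y : Ob True S}
    {p q s : S} (H : Mp φ x y p q s) :
    ∃ e, z y p q s ^ 2 + th * z y p q s = φ (al x) + al y + g y * e

/-- The étale direction. -/
noncomputable def cocA (n : ℕ) : Coc where
  gr := Polynomial.X ^ (2 ^ n)
  g x := x.pi ^ (2 ^ n)
  g_rho x := by rw [map_pow, ← x.rho_pi]; rfl
  al x := x.a
  th := 1
  z x p _ s := p + sm n (x.pi * s)
  g_map φ x y h := by rw [map_pow, h]
  z_map φ x y p q s h := by rw [map_add, sm_map, map_mul, h]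
  z_add x p q s p' q' s' := by
    rw [mul_add, sm_add x.two]
    ring
  z_w {R} _ x w := by
    refine ⟨w ^ (2 ^ n), ?_⟩
    have h1 : x.pi * (x.pi * w ^ 2 + w) = (x.pi * w) ^ 2 + x.pi * w := by ring
    rw [h1, sm_add x.two, sm_pow x.two, sm_sq x.two, mul_pow]
    linear_combination (x.pi * w) * x.two
  z_sq {R S _ _ φ x y p q s} H := by
    refine ⟨s ^ (2 ^ n), ?_⟩
    have h1 := sm_sq y.two n (y.pi * s)
    rw [mul_pow] at h1
    rw [Nat.cast_one]
    linear_combination H.a + h1 + (p * sm n (y.pi * s)) * y.two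

/-- The infinitesimal direction. -/
noncomputable def cocB : Coc where
  gr := 0
  g x := 0
  g_rho x := by rw [map_zero]
  al x := x.c
  th := 0
  z x _ q _ := q
  g_map φ x y h := map_zero φ
  z_map φ x y p q s h := rfl
  z_add x p q s p' q' s' := rfl
  z_w {R} _ x w := ⟨0, by ring⟩
  z_sq {R S _ _ φ x y p q s} H := ⟨0, by
    rw [Nat.cast_zero]
    linear_combination H.c⟩

namespace Coc

variable (C : Coc)

/-- The class of the cocycle. -/
def zc (y : Ob True S) : y.G →+ Qg (C.g y) :=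
  QuotientAddGroup.lift y.K (AddMonoidHom.mk' (fun w => qmk (C.g y) (C.z y w.1 w.2.1 w.2.2)) (by
    rintro ⟨p, q, s⟩ ⟨p', q', s'⟩
    rw [← map_add, ← C.z_add]
    rfl)) (by
    rintro _ ⟨w, rfl⟩
    change qmk (C.g y) (C.z y (y.pi * w) (y.eta * w) (y.pi * w ^ 2 + w)) = 0
    rw [eta_zero, zero_mul]
    exact qmk_eq_zero.mpr (C.z_w y w))

lemma zc_cl (y : Ob True S) (p q s : S) : C.zc y (y.cl p q s) = qmk (C.g y) (C.z y p q s) := rfl

lemma zc_gm (h : ψ y.pi = z.pi) (h' : ψ y.eta = z.eta) (c : y.G) :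
    C.zc z (Ob.gm ψ h h' c) = qmap ψ (C.g_map ψ y z h) (C.zc y c) := by
  obtain ⟨p, q, s, rfl⟩ := y.cl_surj c
  rw [Ob.gm_cl, zc_cl, zc_cl, qmap_mk, C.z_map ψ y z p q s h]

/-- The restriction maps. -/
def rs (f : XHom φ x y) : (R × Qg (C.g x)) →ₛₗ[φ] (S × Qg (C.g y)) where
  toFun w := (φ w.1, qmap φ (C.g_map φ x y f.pi_eq) w.2 + φ w.1 • C.zc y f.cls)
  map_add' v w := by
    refine Prod.ext ?_ ?_
    · exact map_add φ _ _
    · change qmap φ _ (v.2 + w.2) + φ (v.1 + w.1) • C.zc y f.cls =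
        (qmap φ _ v.2 + φ v.1 • C.zc y f.cls) + (qmap φ _ w.2 + φ w.1 • C.zc y f.cls)
      rw [map_add, map_add, add_smul]
      abel
  map_smul' r w := by
    refine Prod.ext ?_ ?_
    · exact map_mul φ _ _
    · change qmap φ _ (r • w.2) + φ (r * w.1) • C.zc y f.cls =
        φ r • (qmap φ _ w.2 + φ w.1 • C.zc y f.cls)
      rw [map_smulₛₗ, map_mul, smul_add, mul_smul]

lemma rs_isExt (f : XHom φ x y) : IsExtL (C.rs f) := by
  intro P _ _ v
  have hv : C.g y • v (0, qmk (C.g x) 1) = 0 := by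
    rw [← C.g_map φ x y f.pi_eq, ← map_smulₛₗ]
    have : C.g x • ((0 : R), qmk (C.g x) 1) = 0 := by
      refine Prod.ext ?_ ?_
      · exact smul_zero _
      · change C.g x • qmk (C.g x) 1 = 0
        rw [← map_smul, smul_eq_mul, mul_one, qmk_self]
    rw [this, map_zero]
  obtain ⟨c, hc⟩ := qmk_surj (C.zc y f.cls)
  let w : (S × Qg (C.g y)) →ₗ[S] P :=
    (LinearMap.toSpanSingleton S P (v (1, 0) - c • v (0, qmk (C.g x) 1))).coprod
      (qlift (v (0, qmk (C.g x) 1)) hv)
  have hw : ∀ (a : S) (b : S), w (a, qmk (C.g y) b) = a • (v (1, 0) - c • v (0, qmk (C.g x) 1)) +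
      b • v (0, qmk (C.g x) 1) := fun a b => rfl
  have key : ∀ (a b : R), C.rs f (a, qmk (C.g x) b) =
      (φ a, qmk (C.g y) (φ b + φ a * c)) := by
    intro a b
    refine Prod.ext rfl ?_
    change qmap φ _ (qmk (C.g x) b) + φ a • C.zc y f.cls = _
    rw [qmap_mk, ← hc, map_add, ← smul_eq_mul, map_smul]
  refine ⟨w, ?_, ?_⟩
  · rintro ⟨a, b⟩
    obtain ⟨b, rfl⟩ := qmk_surj b
    rw [key, hw]
    have h1 : ((a : R), qmk (C.g x) b) = a • ((1 : R), (0 : Qg (C.g x))) +
        b • ((0 : R), qmk (C.g x) 1) := by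
      refine Prod.ext ?_ ?_
      · change a = a • 1 + b • 0
        simp
      · change qmk (C.g x) b = a • 0 + b • qmk (C.g x) 1
        rw [smul_zero, zero_add, ← map_smul, smul_eq_mul, mul_one]
    rw [h1, map_add, map_smulₛₗ, map_smulₛₗ, smul_sub, add_smul, mul_smul]
    abel
  · intro w' hw'
    have e2 : w' (0, qmk (C.g y) 1) = v (0, qmk (C.g x) 1) := by
      rw [← hw', key]
      simp
    have e1 : w' (1, 0) = v (1, 0) - c • v (0, qmk (C.g x) 1) := by
      have h3 := hw' (1, 0)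
      have h4 : ((1 : R), (0 : Qg (C.g x))) = (1, qmk (C.g x) 0) := by rw [map_zero]
      rw [h4, key, map_one, map_zero, zero_add, one_mul] at h3
      have h5 : ((1 : S), qmk (C.g y) c) = (1, 0) + c • ((0 : S), qmk (C.g y) 1) := by
        refine Prod.ext ?_ ?_
        · change (1 : S) = 1 + c • 0
          simp
        · change qmk (C.g y) c = 0 + c • qmk (C.g y) 1
          rw [zero_add, ← map_smul, smul_eq_mul, mul_one]
      rw [h5, map_add, map_smul, e2] at h3
      rw [h4, ← h3]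
      abel
    apply LinearMap.ext
    rintro ⟨a, b⟩
    obtain ⟨b, rfl⟩ := qmk_surj b
    rw [hw, ← e1, ← e2, ← map_smul, ← map_smul, ← map_add]
    congr 1
    refine Prod.ext ?_ ?_
    · change a = a • 1 + b • 0
      simp
    · change qmk (C.g y) b = a • 0 + b • qmk (C.g y) 1
      rw [smul_zero, zero_add, ← map_smul, smul_eq_mul, mul_one]

/-- The extension as a quasi-coherent sheaf. -/
def sh : QSh (XX True) where
  sec {R} _ x := ⟨R × Qg (C.g (show Ob True R from x))⟩
  res {R S _ _ φ x y} f := ⟨C.rs (show XHom φ x y from f)⟩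
  res_id {R _} x := by
    change Ob True R at x
    refine Slin.ext' fun w => ?_
    obtain ⟨a, b⟩ := w
    obtain ⟨b, rfl⟩ := qmk_surj b
    change (a, qmk (C.g x) b + a • C.zc x 0) = (a, qmk (C.g x) b)
    rw [map_zero, smul_zero, add_zero]
  res_comp {R S T _ _ _ φ ψ x y z} f g := by
    change Ob True R at x
    change Ob True S at y
    change Ob True T at z
    change XHom φ x y at f
    change XHom ψ y z at g
    refine Slin.ext' fun w => ?_
    obtain ⟨a, b⟩ := w
    obtain ⟨b, rfl⟩ := qmk_surj b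
    refine Prod.ext rfl ?_
    change qmk (C.g z) (ψ (φ b)) + (ψ (φ a)) • C.zc z (Ob.gm ψ _ _ f.cls + g.cls) =
      qmap ψ _ (qmk (C.g y) (φ b) + φ a • C.zc y f.cls) + (ψ (φ a)) • C.zc z g.cls
    rw [map_add, map_add, qmap_mk, zc_gm, map_smulₛₗ, smul_add, add_assoc]
  isExt {R S _ _ φ x y} f := Slin.isExt_iff.mpr (C.rs_isExt (show XHom φ x y from f))

end Coc

end Pool.Agent.TH165.Tan
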