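import Mathlib
import Pool.Agent.TH165.Tan2.Obj

set_option autoImplicit false
set_option linter.unusedVariables false

open CategoryTheory TensorProduct

namespace Pool.Agent.TH165.Tan

variable {R S T U : Type} [CommRing R] [CommRing S] [CommRing T] [CommRing U]
  {φ φ' : R →+* S} {ψ : S →+* T} {x x' : Ob True R} {y y' : Ob True S} {z : Ob True T}
  {p q s p₁ q₁ s₁ : S} {p' q' s' : T} {f f' : R0 →+* S}

/-- Construction of morphisms of sheaves. -/
def mkHom {M N : QSh (XX True)} (f : ∀ {R : Type} [CommRing R] (x : Ob True R), Sc M x →ₗ[R] Sc N x)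
    (hf : ∀ {R S : Type} [CommRing R] [CommRing S] {φ : R →+* S} {x : Ob True R} {y : Ob True S}
      {p q s : S} (H : Mp φ x y p q s) (m : Sc M x), f y (ac M H m) = ac N H (f x m)) :
    QSh.Hom M N where
  app {R} _ x := ⟨f (show Ob True R from x)⟩
  nat {R S _ _ φ x y} g := by
    change XHom φ x y at g
    obtain ⟨p, q, s, H, rfl⟩ := exists_mp g
    exact Slin.ext' fun m => hf H m

lemma ap_mkHom {M N : QSh (XX True)}
    (f : ∀ {R : Type} [CommRing R] (x : Ob True R), Sc M x →ₗ[R] Sc N x)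
    (hf : ∀ {R S : Type} [CommRing R] [CommRing S] {φ : R →+* S} {x : Ob True R} {y : Ob True S}
      {p q s : S} (H : Mp φ x y p q s) (m : Sc M x), f y (ac M H m) = ac N H (f x m))
    (x : Ob True R) : ap (mkHom f hf) x = f x := rfl

/-- The structure sheaf. -/
abbrev OO : QSh (XX True) := QSh.unit (XX True)

/-- The section `1`. -/
def o1 (x : Ob True R) : Sc OO x := (1 : R)

/-- A section of the structure sheaf. -/
def oo (x : Ob True R) (r : R) : Sc OO x := r

lemma oo_smul (x : Ob True R) (r : R) : oo x r = r • o1 x := (mul_one r).symm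

lemma ac_oo (H : Mp φ x y p q s) (r : R) : ac OO H (oo x r) = oo y (φ r) := rfl

lemma ac_o1 (H : Mp φ x y p q s) : ac OO H (o1 x) = o1 y := map_one φ

/-- The pure tensors. -/
def tp {M N : QSh (XX True)} {x : Ob True R} (m : Sc M x) (n : Sc N x) : Sc (M.tens N) x :=
  m ⊗ₜ[R] n

section

variable {M N P Q M' N' : QSh (XX True)}

lemma tp_add_left (m m' : Sc M x) (n : Sc N x) : tp (m + m') n = tp m n + tp m' n :=
  TensorProduct.add_tmul _ _ _

lemma tp_add_right (m : Sc M x) (n n' : Sc N x) : tp m (n + n') = tp m n + tp m n' :=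
  TensorProduct.tmul_add _ _ _

lemma tp_smul_left (r : R) (m : Sc M x) (n : Sc N x) : tp (r • m) n = r • tp m n :=
  (TensorProduct.smul_tmul' _ _ _).symm

lemma tp_smul_right (r : R) (m : Sc M x) (n : Sc N x) : tp m (r • n) = r • tp m n :=
  TensorProduct.tmul_smul _ _ _

lemma tp_zero_left (n : Sc N x) : tp (0 : Sc M x) n = 0 := TensorProduct.zero_tmul _ _

lemma tp_zero_right (m : Sc M x) : tp m (0 : Sc N x) = 0 := TensorProduct.tmul_zero _ _

lemma ac_tp (H : Mp φ x y p q s) (m : Sc M x) (n : Sc N x) :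
    ac (M.tens N) H (tp m n) = tp (ac M H m) (ac N H n) := rfl

lemma ap_comp (a : QSh.Hom M N) (b : QSh.Hom N P) (m : Sc M x) :
    ap (a.comp b) x m = ap b x (ap a x m) := rfl

lemma ap_id (m : Sc M x) : ap (QSh.Hom.id M) x m = m := rfl

lemma ap_tens (a : QSh.Hom M M') (b : QSh.Hom N N') (m : Sc M x) (n : Sc N x) :
    ap (a.tens b) x (tp m n) = tp (ap a x m) (ap b x n) := rfl

lemma ap_lunit (m : Sc M x) (r : R) :
    ap (QSh.lunitHom M) x (tp (oo x r) m) = r • m := rfl

lemma ap_runit (m : Sc M x) (r : R) :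
    ap (QSh.runitHom M) x (tp m (oo x r)) = r • m := rfl

lemma ap_lunit1 (m : Sc M x) : ap (QSh.lunitHom M) x (tp (o1 x) m) = m := one_smul _ _

lemma ap_runit1 (m : Sc M x) : ap (QSh.runitHom M) x (tp m (o1 x)) = m := one_smul _ _

lemma ap_symm (m : Sc M x) (n : Sc N x) : ap (QSh.symmHom M N) x (tp m n) = tp n m := rfl

lemma ap_assoc (m : Sc M x) (n : Sc N x) (k : Sc P x) :
    ap (QSh.assocHom M N P) x (tp (tp m n) k) = tp m (tp n k) := rfl

lemma sc_tens_ind {P : Sc (M.tens N) x → Prop} (h0 : P 0) (hadd : ∀ a b, P a → P b → P (a + b))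
    (h : ∀ m n, P (tp m n)) (t : Sc (M.tens N) x) : P t := by
  have : ∀ t : Sc M x ⊗[R] Sc N x, P t := by
    intro t
    induction t with
    | zero => exact h0
    | add a b ha hb => exact hadd a b ha hb
    | tmul m n => exact h m n
  exact this t

lemma tens_hom_ext0 {a b : QSh.Hom (M.tens N) P}
    (h : ∀ (m : Sc M x0) (n : Sc N x0), ap a x0 (tp m n) = ap b x0 (tp m n)) : a = b := by
  refine hom_ext0 fun t => ?_
  refine sc_tens_ind (P := fun t => ap a x0 t = ap b x0 t) ?_ ?_ h t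
  · rw [map_zero, map_zero]
  · intro u v hu hv
    rw [map_add, map_add, hu, hv]

/-- Bilinear maps. -/
noncomputable def liftT (B : Sc M x →ₗ[R] Sc N x →ₗ[R] Sc P x) : Sc (M.tens N) x →ₗ[R] Sc P x :=
  TensorProduct.lift B

lemma liftT_tp (B : Sc M x →ₗ[R] Sc N x →ₗ[R] Sc P x) (m : Sc M x) (n : Sc N x) :
    liftT B (tp m n) = B m n := TensorProduct.lift.tmul _ _

/-- Morphisms from the structure sheaf. -/
def unitHom (n : ∀ {R : Type} [CommRing R] (x : Ob True R), Sc N x)
    (hn : ∀ {R S : Type} [CommRing R] [CommRing S] {φ : R →+* S} {x : Ob True R} {y : Ob True S}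
      {p q s : S} (H : Mp φ x y p q s), ac N H (n x) = n y) : QSh.Hom OO N :=
  mkHom (M := OO) (fun x => LinearMap.toSpanSingleton _ (Sc N x) (n x)) (by
    intro R S _ _ φ x y p q s H r
    change φ r • n y = ac N H ((show R from r) • n x)
    rw [map_smulₛₗ, hn H])

lemma ap_unitHom (n : ∀ {R : Type} [CommRing R] (x : Ob True R), Sc N x)
    (hn : ∀ {R S : Type} [CommRing R] [CommRing S] {φ : R →+* S} {x : Ob True R} {y : Ob True S}
      {p q s : S} (H : Mp φ x y p q s), ac N H (n x) = n y) (r : R) :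
    ap (unitHom n hn) x (oo x r) = r • n x := rfl

/-- Multiplication by an element of the base ring. -/
noncomputable def mulR (r : R0) (M : QSh (XX True)) : QSh.Hom M M :=
  mkHom (fun x => LinearMap.lsmul _ (Sc M x) (x.rho r)) (by
    intro R S _ _ φ x y p q s H m
    change y.rho r • ac M H m = ac M H (x.rho r • m)
    rw [map_smulₛₗ, ← H.comp_rho]
    rfl)

lemma ap_mulR (r : R0) (m : Sc M x) : ap (mulR r M) x m = x.rho r • m := rfl

end

namespace Coc

variable (C : Coc)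

/-- The first generator. -/
def e1 (x : Ob True R) : Sc C.sh x := ((1 : R), (0 : Qg (C.g x)))

/-- The second generator. -/
def e2 (x : Ob True R) : Sc C.sh x := ((0 : R), qmk (C.g x) 1)

lemma exists_e (w : Sc C.sh x) : ∃ a b : R, w = a • C.e1 x + b • C.e2 x := by
  obtain ⟨a, b⟩ := w
  obtain ⟨b, rfl⟩ := qmk_surj b
  refine ⟨a, b, ?_⟩
  refine Prod.ext ?_ ?_
  · change a = a • 1 + b • 0
    simp
  · change qmk (C.g x) b = a • 0 + b • qmk (C.g x) 1
    rw [smul_zero, zero_add, ← map_smul, smul_eq_mul, mul_one]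

lemma g_e2 (x : Ob True R) : C.g x • C.e2 x = 0 := by
  refine Prod.ext ?_ ?_
  · exact smul_zero _
  · change C.g x • qmk (C.g x) 1 = 0
    rw [← map_smul, smul_eq_mul, mul_one, qmk_self]

lemma ac_e1 (H : Mp φ x y p q s) : ac C.sh H (C.e1 x) = C.e1 y + C.z y p q s • C.e2 y := by
  refine Prod.ext ?_ ?_
  · change φ 1 = 1 + C.z y p q s • 0
    simp
  · change qmap φ _ 0 + φ 1 • C.zc y (y.cl p q s) = 0 + C.z y p q s • qmk (C.g y) 1
    rw [map_zero, map_one, one_smul, zc_cl, ← map_smul, smul_eq_mul, mul_one]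

lemma ac_e2 (H : Mp φ x y p q s) : ac C.sh H (C.e2 x) = C.e2 y := by
  refine Prod.ext ?_ ?_
  · change φ 0 = 0
    simp
  · change qmap φ _ (qmk (C.g x) 1) + φ 0 • C.zc y (y.cl p q s) = qmk (C.g y) 1
    rw [map_zero, zero_smul, add_zero, qmap_mk, map_one]

/-- Linear maps out of the sections. -/
def lf {x : Ob True R} {P : Type} [AddCommGroup P] [Module R P] (n₁ n₂ : P)
    (h : C.g x • n₂ = 0) : Sc C.sh x →ₗ[R] P :=
  ((LinearMap.toSpanSingleton R P n₁).coprod (qlift n₂ h) : (R × Qg (C.g x)) →ₗ[R] P)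

lemma lf_e {x : Ob True R} {P : Type} [AddCommGroup P] [Module R P] (n₁ n₂ : P)
    (h : C.g x • n₂ = 0) (a b : R) : C.lf n₁ n₂ h (a • C.e1 x + b • C.e2 x) = a • n₁ + b • n₂ := by
  have h1 : C.lf n₁ n₂ h (C.e1 x) = n₁ := by
    change (1 : R) • n₁ + qlift n₂ h 0 = n₁
    rw [one_smul, map_zero, add_zero]
  have h2 : C.lf n₁ n₂ h (C.e2 x) = n₂ := by
    change (0 : R) • n₁ + qlift n₂ h (qmk (C.g x) 1) = n₂
    rw [zero_smul, zero_add, qlift_mk, one_smul]
  rw [map_add, map_smul, map_smul, h1, h2]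

lemma lf_e1 {x : Ob True R} {P : Type} [AddCommGroup P] [Module R P] (n₁ n₂ : P)
    (h : C.g x • n₂ = 0) : C.lf n₁ n₂ h (C.e1 x) = n₁ := by
  have := C.lf_e n₁ n₂ h 1 0
  rwa [one_smul, zero_smul, add_zero, one_smul, zero_smul, add_zero] at this

lemma lf_e2 {x : Ob True R} {P : Type} [AddCommGroup P] [Module R P] (n₁ n₂ : P)
    (h : C.g x • n₂ = 0) : C.lf n₁ n₂ h (C.e2 x) = n₂ := by
  have := C.lf_e n₁ n₂ h 0 1
  rwa [one_smul, zero_smul, zero_add, one_smul, zero_smul, zero_add] at this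

/-- Morphisms out of the extension. -/
def desc {N : QSh (XX True)} (n₁ n₂ : ∀ {R : Type} [CommRing R] (x : Ob True R), Sc N x)
    (hg : ∀ {R : Type} [CommRing R] (x : Ob True R), C.g x • n₂ x = 0)
    (h1 : ∀ {R S : Type} [CommRing R] [CommRing S] {φ : R →+* S} {x : Ob True R} {y : Ob True S}
      {p q s : S} (H : Mp φ x y p q s), ac N H (n₁ x) = n₁ y + C.z y p q s • n₂ y)
    (h2 : ∀ {R S : Type} [CommRing R] [CommRing S] {φ : R →+* S} {x : Ob True R} {y : Ob True S}
      {p q s : S} (H : Mp φ x y p q s), ac N H (n₂ x) = n₂ y) : QSh.Hom C.sh N :=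
  mkHom (fun x => C.lf (n₁ x) (n₂ x) (hg x)) (by
    intro R S _ _ φ x y p q s H w
    obtain ⟨a, b, rfl⟩ := C.exists_e w
    have h3 : ac C.sh H (a • C.e1 x + b • C.e2 x) =
        φ a • C.e1 y + (φ a * C.z y p q s + φ b) • C.e2 y := by
      rw [map_add, map_smulₛₗ, map_smulₛₗ, ac_e1, ac_e2]
      module
    rw [h3, lf_e, lf_e, map_add, map_smulₛₗ, map_smulₛₗ, h1, h2]
    module)

section

variable {N : QSh (XX True)} (n₁ n₂ : ∀ {R : Type} [CommRing R] (x : Ob True R), Sc N x)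
    (hg : ∀ {R : Type} [CommRing R] (x : Ob True R), C.g x • n₂ x = 0)
    (h1 : ∀ {R S : Type} [CommRing R] [CommRing S] {φ : R →+* S} {x : Ob True R} {y : Ob True S}
      {p q s : S} (H : Mp φ x y p q s), ac N H (n₁ x) = n₁ y + C.z y p q s • n₂ y)
    (h2 : ∀ {R S : Type} [CommRing R] [CommRing S] {φ : R →+* S} {x : Ob True R} {y : Ob True S}
      {p q s : S} (H : Mp φ x y p q s), ac N H (n₂ x) = n₂ y)

lemma ap_desc_e1 : ap (C.desc n₁ n₂ hg h1 h2) x (C.e1 x) = n₁ x := C.lf_e1 _ _ _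

lemma ap_desc_e2 : ap (C.desc n₁ n₂ hg h1 h2) x (C.e2 x) = n₂ x := C.lf_e2 _ _ _

end

lemma hom_ext {N : QSh (XX True)} {a b : QSh.Hom C.sh N}
    (h1 : ap a x0 (C.e1 x0) = ap b x0 (C.e1 x0)) (h2 : ap a x0 (C.e2 x0) = ap b x0 (C.e2 x0)) :
    a = b := by
  refine hom_ext0 fun w => ?_
  obtain ⟨u, v, rfl⟩ := C.exists_e w
  rw [map_add, map_add, map_smul, map_smul, map_smul, map_smul, h1, h2]

/-- The augmentation. -/
noncomputable def ep : QSh.Hom C.sh OO :=
  C.desc (fun x => o1 x) (fun x => 0) (fun x => smul_zero _)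
    (fun H => by rw [ac_o1, smul_zero, add_zero]) (fun H => map_zero _)

lemma ep_e1 : ap C.ep x (C.e1 x) = o1 x := C.lf_e1 _ _ _

lemma ep_e2 : ap C.ep x (C.e2 x) = 0 := C.lf_e2 _ _ _

/-- The inclusion. -/
noncomputable def io : QSh.Hom OO C.sh := unitHom (fun x => C.e2 x) (fun H => C.ac_e2 H)

lemma ap_io (r : R) : ap C.io x (oo x r) = r • C.e2 x := rfl

lemma ap_io1 : ap C.io x (o1 x) = C.e2 x := one_smul _ _

/-- The diagonal. -/
noncomputable def De : QSh.Hom C.sh (C.sh.tens C.sh) :=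
  C.desc (fun x => tp (C.e1 x) (C.e1 x) + C.al x • tp (C.e2 x) (C.e2 x))
    (fun {R} _ x => tp (C.e2 x) (C.e1 x) + tp (C.e1 x) (C.e2 x) + (C.th : R) • tp (C.e2 x) (C.e2 x))
    (fun {R} _ x => by
      rw [smul_add, smul_add, ← tp_smul_left, ← tp_smul_right, C.g_e2, tp_zero_left,
        tp_zero_right, smul_comm, ← tp_smul_left, C.g_e2, tp_zero_left, smul_zero, add_zero,
        add_zero])
    (by
      intro R S _ _ φ x y p q s H
      obtain ⟨e, he⟩ := C.z_sq H
      have h0 : C.g y • tp (C.e2 y) (C.e2 y) = 0 := by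
        rw [← tp_smul_left, C.g_e2, tp_zero_left]
      rw [map_add, map_smulₛₗ, ac_tp, ac_tp, C.ac_e1, C.ac_e2, tp_add_left, tp_add_right,
        tp_add_right, tp_smul_left, tp_smul_left, tp_smul_right, tp_smul_right, smul_smul,
        smul_add, smul_add, smul_smul]
      have h1 : (C.z y p q s * C.z y p q s + φ (C.al x)) • tp (C.e2 y) (C.e2 y) =
          (C.al y + C.z y p q s * C.th) • tp (C.e2 y) (C.e2 y) := by
        rw [← sub_eq_zero, ← sub_smul]
        have h2 : C.z y p q s * C.z y p q s + φ (C.al x) - (C.al y + C.z y p q s * C.th) =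
          (e - 0) * C.g y := by
          linear_combination he + (φ (C.al x) - C.z y p q s * C.th) * y.two
        rw [h2, mul_smul, h0, smul_zero]
      rw [add_smul, add_smul] at h1
      have h3 : ∀ a b c d e f g h : Sc (C.sh.tens C.sh) y, d + e = g + h → f = f →
          a + b + (c + d) + e = a + g + (c + b + h) := by
        intro a b c d e f g h h' _
        have : a + b + (c + d) + e = a + b + c + (d + e) := by abel
        rw [this, h']
        abel
      exact h3 _ _ _ _ _ 0 _ _ h1 rfl)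
    (by
      intro R S _ _ φ x y p q s H
      rw [map_add, map_add, map_smulₛₗ, ac_tp, ac_tp, ac_tp, C.ac_e1, C.ac_e2, tp_add_right,
        tp_add_left, tp_smul_left, tp_smul_right, map_natCast]
      have h1 := sc_two (C.sh.tens C.sh) y (C.z y p q s • tp (C.e2 y) (C.e2 y))
      have h2 : ∀ a b c d : Sc (C.sh.tens C.sh) y, b + b = 0 → a + b + (c + b) + d = a + c + d := by
        intro a b c d h
        have : a + b + (c + b) + d = a + c + d + (b + b) := by abel
        rw [this, h, add_zero]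
      exact h2 _ _ _ _ h1)

lemma De_e1 : ap C.De x (C.e1 x) = tp (C.e1 x) (C.e1 x) + C.al x • tp (C.e2 x) (C.e2 x) :=
  C.lf_e1 _ _ _

lemma De_e2 : ap C.De x (C.e2 x) = tp (C.e2 x) (C.e1 x) + tp (C.e1 x) (C.e2 x) +
    (C.th : R) • tp (C.e2 x) (C.e2 x) :=
  C.lf_e2 _ _ _

/-- The quotient sheaf. -/
noncomputable def qs : QSh (XX True) where
  sec {R} _ x := ⟨Qg (C.g (show Ob True R from x))⟩
  res {R S _ _ φ x y} f := ⟨qmap φ (C.g_map φ _ _ (XHom.pi_eq (show XHom φ x y from f)))⟩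
  res_id {R _} x := by
    refine Slin.ext' fun w => ?_
    obtain ⟨b, rfl⟩ := qmk_surj w
    rfl
  res_comp {R S T _ _ _ φ ψ x y z} f g := by
    refine Slin.ext' fun w => ?_
    obtain ⟨b, rfl⟩ := qmk_surj w
    rfl
  isExt {R S _ _ φ x y} f := by
    change XHom φ x y at f
    change Ob True R at x
    change Ob True S at y
    refine Slin.isExt_iff.mpr ?_
    intro P _ _ v
    change Qg (C.g x) →ₛₗ[φ] P at v
    have hv : C.g y • v (qmk (C.g x) 1) = 0 := by
      rw [← C.g_map φ x y f.pi_eq, ← map_smulₛₗ, ← map_smul, smul_eq_mul, mul_one, qmk_self,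
        map_zero]
    refine ⟨qlift (v (qmk (C.g x) 1)) hv, ?_, ?_⟩
    · intro b
      change Qg (C.g x) at b
      obtain ⟨b, rfl⟩ := qmk_surj b
      change qlift _ hv (qmk (C.g y) (φ b)) = _
      rw [qlift_mk, ← map_smulₛₗ, ← map_smul, smul_eq_mul, mul_one]
    · intro w hw
      change Qg (C.g y) →ₗ[S] P at w
      refine LinearMap.ext fun b => ?_
      change Qg (C.g y) at b
      obtain ⟨b, rfl⟩ := qmk_surj b
      rw [qlift_mk]
      have h1 : w (qmk (C.g y) (φ 1)) = v (qmk (C.g x) 1) := hw (qmk (C.g x) 1)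
      rw [map_one] at h1
      rw [← h1, ← map_smul, ← map_smul, smul_eq_mul, mul_one]

/-- The quotient map. -/
noncomputable def qu : QSh.Hom OO C.qs :=
  mkHom (M := OO) (N := C.qs) (fun x => qmk (C.g x)) (by
    intro R S _ _ φ x y p q s H w
    rfl)

lemma ap_qu (r : R) : ap C.qu x (oo x r) = qmk (C.g x) r := rfl

/-- The generator of the quotient. -/
def q1 (x : Ob True R) : Sc C.qs x := qmk (C.g x) 1

lemma g_q1 (x : Ob True R) : C.g x • C.q1 x = 0 := by
  change C.g x • qmk (C.g x) 1 = 0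
  rw [← map_smul, smul_eq_mul, mul_one, qmk_self]

lemma ac_q1 (H : Mp φ x y p q s) : ac C.qs H (C.q1 x) = C.q1 y := by
  change qmap φ (C.g_map φ x y H.pi) (qmk (C.g x) 1) = qmk (C.g y) 1
  rw [qmap_mk, map_one]

lemma ap_qu' (r : R) : ap C.qu x (oo x r) = r • C.q1 x := by
  change qmk (C.g x) r = r • qmk (C.g x) 1
  rw [← map_smul, smul_eq_mul, mul_one]

/-- The bilinear form. -/
noncomputable def bf (x : Ob True R) : Sc C.sh x →ₗ[R] Sc C.sh x →ₗ[R] Sc C.qs x :=
  C.lf (x := x) (P := Sc C.sh x →ₗ[R] Sc C.qs x)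
      (C.lf (0 : Sc C.qs x) (C.q1 x) (C.g_q1 x))
      (C.lf (C.q1 x) (0 : Sc C.qs x) (smul_zero _)) (by
        refine LinearMap.ext fun w => ?_
        obtain ⟨a, b, rfl⟩ := C.exists_e w
        rw [LinearMap.smul_apply, lf_e, smul_zero, add_zero, smul_comm, C.g_q1, smul_zero,
          LinearMap.zero_apply])

lemma bf_e (a b a' b' : R) : C.bf x (a • C.e1 x + b • C.e2 x) (a' • C.e1 x + b' • C.e2 x) =
    (a * b' + a' * b) • C.q1 x := by
  unfold bf
  rw [lf_e, LinearMap.add_apply, LinearMap.smul_apply, LinearMap.smul_apply, lf_e, lf_e]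
  module

/-- The pairing. -/
noncomputable def be : QSh.Hom (C.sh.tens C.sh) C.qs :=
  mkHom (M := C.sh.tens C.sh) (N := C.qs) (fun {R} _ x => liftT (C.bf x)) (by
    intro R S _ _ φ x y p q s H w
    refine sc_tens_ind (P := fun w => liftT (C.bf y) (ac (C.sh.tens C.sh) H w) =
      ac C.qs H (liftT (C.bf x) w)) ?_ ?_ ?_ w
    · rw [map_zero, map_zero, map_zero, map_zero]
    · intro a b ha hb
      rw [map_add, map_add, map_add, map_add, ha, hb]
    · intro m n
      obtain ⟨a, b, rfl⟩ := C.exists_e m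
      obtain ⟨a', b', rfl⟩ := C.exists_e n
      have h3 : ∀ a b : R, ac C.sh H (a • C.e1 x + b • C.e2 x) =
          φ a • C.e1 y + (φ a * C.z y p q s + φ b) • C.e2 y := by
        intro a b
        rw [map_add, map_smulₛₗ, map_smulₛₗ, ac_e1, ac_e2]
        module
      rw [ac_tp, h3, h3, liftT_tp, liftT_tp, bf_e, bf_e, map_smulₛₗ, ac_q1]
      have h4 : φ a * (φ a' * C.z y p q s + φ b') + φ a' * (φ a * C.z y p q s + φ b) =
          φ (a * b' + a' * b) := by
        rw [map_add, map_mul, map_mul]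
        linear_combination (φ a * φ a' * C.z y p q s) * y.two
      rw [h4])

lemma be_e (a b a' b' : R) : ap C.be x (tp (a • C.e1 x + b • C.e2 x) (a' • C.e1 x + b' • C.e2 x)) =
    (a * b' + a' * b) • C.q1 x := by
  change liftT (C.bf x) _ = _
  rw [liftT_tp, bf_e]

end Coc

/-! ### Transition maps -/

lemma sm_sub_dvd {m n : ℕ} (h : m ≤ n) (u : R) : ∃ e, sm n u - sm m u = u ^ (2 ^ m) * e := by
  induction n, h using Nat.le_induction with
  | base => exact ⟨0, by ring⟩
  | succ n hmn ih =>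
    obtain ⟨e, he⟩ := ih
    have h1 : u ^ (2 ^ n) = u ^ (2 ^ m) * u ^ (2 ^ n - 2 ^ m) := by
      rw [← pow_add, Nat.add_sub_cancel' (Nat.pow_le_pow_right (by norm_num) hmn)]
    refine ⟨e + u ^ (2 ^ n - 2 ^ m), ?_⟩
    rw [sm, mul_add, ← h1]
    linear_combination he

/-- The transition map. -/
noncomputable def trA {m n : ℕ} (h : m ≤ n) : QSh.Hom (cocA n).sh (cocA m).sh :=
  (cocA n).desc (fun x => (cocA m).e1 x) (fun x => (cocA m).e2 x)
    (fun {R} _ x => by
      have h1 : (cocA n).g x = x.pi ^ (2 ^ n - 2 ^ m) * (cocA m).g x := by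
        change x.pi ^ (2 ^ n) = x.pi ^ (2 ^ n - 2 ^ m) * x.pi ^ (2 ^ m)
        rw [← pow_add, Nat.sub_add_cancel (Nat.pow_le_pow_right (by norm_num) h)]
      rw [h1, mul_smul, (cocA m).g_e2, smul_zero])
    (by
      intro R S _ _ φ x y p q s H
      rw [(cocA m).ac_e1]
      congr 1
      rw [← sub_eq_zero, ← sub_smul]
      obtain ⟨e, he⟩ := sm_sub_dvd h (y.pi * s)
      have h1 : (cocA m).z y p q s - (cocA n).z y p q s = (-(s ^ (2 ^ m) * e)) * (cocA m).g y := by
        change (p + sm m (y.pi * s)) - (p + sm n (y.pi * s)) = (-(s ^ (2 ^ m) * e)) * y.pi ^ (2 ^ m)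
        rw [mul_pow] at he
        linear_combination (-1 : S) * he
      rw [h1, mul_smul, (cocA m).g_e2, smul_zero])
    (fun H => (cocA m).ac_e2 H)

lemma trA_e1 {m n : ℕ} (h : m ≤ n) : ap (trA h) x ((cocA n).e1 x) = (cocA m).e1 x :=
  (cocA n).lf_e1 _ _ _

lemma trA_e2 {m n : ℕ} (h : m ≤ n) : ap (trA h) x ((cocA n).e2 x) = (cocA m).e2 x :=
  (cocA n).lf_e2 _ _ _

end Pool.Agent.TH165.Tan
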