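import Mathlib
import Pool.Agent.TH165.Tan2.Homs

set_option autoImplicit false
set_option linter.unusedVariables false

open CategoryTheory TensorProduct

namespace Pool.Agent.TH165.Tan

variable {R S T U : Type} [CommRing R] [CommRing S] [CommRing T] [CommRing U]
  {φ φ' : R →+* S} {ψ : S →+* T} {x x' : Ob True R} {y y' : Ob True S} {z : Ob True T}
  {p q s p₁ q₁ s₁ : S} {p' q' s' : T} {f f' : R0 →+* S} {M N P Q : QSh (XX True)}

/-! ### The operators on tensor products and on the extensions -/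

lemma dl_tp (m : Sc M x) (n : Sc N x) :
    dl (M.tens N) (tp m n) = tp (dl M m) n + tp m (dl N n) + tp (dl M m) (dl N n) := by
  have h : dl (M.tens N) (tp m n) = tp (ac M (mpSig x) m) (ac N (mpSig x) n) - tp m n := rfl
  rw [h, ac_sig, ac_sig, tp_add_left, tp_add_right, tp_add_right]
  abel

lemma DD_tp (m : Sc M x) (n : Sc N x) :
    DD (M.tens N) (tp m n) = tp (DD M m) n + tp m (DD N n) := by
  have h := ac_eps (M.tens N) (x := x) (tp m n)
  rw [ac_tp, ac_eps, ac_eps] at h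
  refine (dn_inj (M.tens N) (x := x) (u := tp m n) (u' := tp m n) ?_).2
  refine h.symm.trans ?_
  rw [tp_add_left, tp_add_right, tp_add_right, tp_smul_left, tp_smul_right, tp_smul_left,
    tp_smul_right, smul_smul, eps_sq, zero_smul, add_zero, map_add, smul_add, ac_tp, ac_tp, ac_tp]
  abel

namespace Coc

variable (C : Coc)

lemma dl_e1 : dl C.sh (C.e1 x) = C.z x 1 0 0 • C.e2 x := by
  unfold dl
  rw [C.ac_e1]
  abel

lemma dl_e2 : dl C.sh (C.e2 x) = 0 := by
  unfold dl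
  rw [C.ac_e2, sub_self]

lemma DD_e2 : DD C.sh (C.e2 x) = 0 := by
  have h := ac_eps C.sh (C.e2 x)
  rw [C.ac_e2] at h
  refine (dn_inj C.sh (u := C.e2 x) (u' := C.e2 x) ?_).2
  refine h.symm.trans ?_
  rw [map_zero, smul_zero, add_zero]
  exact (C.ac_e2 (Mp.pull (algebraMap R (Dn R)) x)).symm

end Coc

lemma zero_z (C : Coc) : C.z x 0 0 0 = 0 := by
  have h := C.z_add x 0 0 0 0 0 0
  simp only [add_zero] at h
  linear_combination (-1 : R) * h

lemma dlA_e1 (n : ℕ) : dl (cocA n).sh ((cocA n).e1 x) = (cocA n).e2 x := by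
  rw [Coc.dl_e1]
  have : (cocA n).z x 1 0 0 = 1 := by
    change (1 : R) + sm n (x.pi * 0) = 1
    rw [mul_zero, sm_zero, add_zero]
  rw [this, one_smul]

lemma dlB_e1 : dl cocB.sh (cocB.e1 x) = 0 := by
  rw [Coc.dl_e1]
  exact zero_smul _ _

lemma DDA_e1 (n : ℕ) : DD (cocA n).sh ((cocA n).e1 x) = 0 := by
  have h := ac_eps (cocA n).sh ((cocA n).e1 x)
  rw [(cocA n).ac_e1] at h
  refine (dn_inj (cocA n).sh (u := (cocA n).e1 x) (u' := (cocA n).e1 x) ?_).2
  refine h.symm.trans ?_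
  have h1 := (cocA n).ac_e1 (Mp.pull (algebraMap R (Dn R)) x)
  rw [zero_z, zero_smul, add_zero] at h1
  rw [map_zero, smul_zero, add_zero, h1]
  have h2 : (cocA n).z (x.pull (algebraMap R (Dn R))) 0 (eps R) 0 = 0 := by
    change (0 : Dn R) + sm n ((x.pull (algebraMap R (Dn R))).pi * 0) = 0
    rw [mul_zero, sm_zero, add_zero]
  rw [h2, zero_smul, add_zero]

lemma DDB_e1 : DD cocB.sh (cocB.e1 x) = cocB.e2 x := by
  have h := ac_eps cocB.sh (cocB.e1 x)
  rw [cocB.ac_e1] at h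
  refine (dn_inj cocB.sh (u := cocB.e1 x) (u' := cocB.e1 x) ?_).2
  refine h.symm.trans ?_
  have h1 := cocB.ac_e1 (Mp.pull (algebraMap R (Dn R)) x)
  rw [zero_z, zero_smul, add_zero] at h1
  rw [h1, cocB.ac_e2]
  rfl

/-! ### The generators -/

/-- The generator. -/
noncomputable abbrev PP (n : ℕ) : QSh (XX True) := (cocA n).sh.tens cocB.sh

/-- The section `1`. -/
noncomputable def p1 (n : ℕ) (x : Ob True R) : Sc (PP n) x := tp ((cocA n).e1 x) (cocB.e1 x)

lemma dl_p1 (n : ℕ) : dl (PP n) (p1 n x) = tp ((cocA n).e2 x) (cocB.e1 x) := by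
  unfold p1
  rw [dl_tp, dlA_e1, dlB_e1, tp_zero_right, tp_zero_right, add_zero, add_zero]

lemma DD_p1 (n : ℕ) : DD (PP n) (p1 n x) = tp ((cocA n).e1 x) (cocB.e2 x) := by
  unfold p1
  rw [DD_tp, DDA_e1, DDB_e1, tp_zero_left, zero_add]

lemma dlDD_p1 (n : ℕ) : dl (PP n) (DD (PP n) (p1 n x)) = tp ((cocA n).e2 x) (cocB.e2 x) := by
  rw [DD_p1, dl_tp, dlA_e1, Coc.dl_e2, tp_zero_right, tp_zero_right, add_zero, add_zero]

/-- Morphisms out of the generators are determined by the image of `1`. -/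
lemma PHext {n : ℕ} {a b : QSh.Hom (PP n) M} (h : ap a x0 (p1 n x0) = ap b x0 (p1 n x0)) :
    a = b := by
  refine tens_hom_ext0 fun u v => ?_
  obtain ⟨r, s, rfl⟩ := (cocA n).exists_e u
  obtain ⟨r', s', rfl⟩ := cocB.exists_e v
  have h1 : ap a x0 (tp ((cocA n).e2 x0) (cocB.e1 x0)) =
      ap b x0 (tp ((cocA n).e2 x0) (cocB.e1 x0)) := by
    rw [← dl_p1, ap_dl, ap_dl, h]
  have h2 : ap a x0 (tp ((cocA n).e1 x0) (cocB.e2 x0)) =
      ap b x0 (tp ((cocA n).e1 x0) (cocB.e2 x0)) := by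
    rw [← DD_p1, ap_DD, ap_DD, h]
  have h3 : ap a x0 (tp ((cocA n).e2 x0) (cocB.e2 x0)) =
      ap b x0 (tp ((cocA n).e2 x0) (cocB.e2 x0)) := by
    rw [← dlDD_p1, ap_dl, ap_dl, ap_DD, ap_DD, h]
  have h0 : ap a x0 (tp ((cocA n).e1 x0) (cocB.e1 x0)) =
      ap b x0 (tp ((cocA n).e1 x0) (cocB.e1 x0)) := h
  simp only [tp_add_left, tp_add_right, tp_smul_left, tp_smul_right, map_add, map_smul, h0, h1,
    h2, h3]

section

variable (n : ℕ) (m : Sc M x0) (hm : x0.pi ^ (2 ^ n) • dl M m = 0)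

lemma hm_DD (n : ℕ) (m : Sc M x) (hm : x.pi ^ (2 ^ n) • dl M m = 0) :
    x.pi ^ (2 ^ n) • dl M (DD M m) = 0 := by
  rw [dl_DD, ← DD_smul, hm, DD_zero]

/-- The bilinear map defining the morphism. -/
noncomputable def phb (hm : x0.pi ^ (2 ^ n) • dl M m = 0) :
    Sc (cocA n).sh x0 →ₗ[R0] Sc cocB.sh x0 →ₗ[R0] Sc M x0 :=
  (cocA n).lf (x := x0) (P := Sc cocB.sh x0 →ₗ[R0] Sc M x0)
    (cocB.lf m (DD M m) (zero_smul _ _))
    (cocB.lf (dl M m) (dl M (DD M m)) (zero_smul _ _)) (by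
      refine LinearMap.ext fun w => ?_
      obtain ⟨a, b, rfl⟩ := cocB.exists_e w
      rw [LinearMap.smul_apply, Coc.lf_e, LinearMap.zero_apply]
      change x0.pi ^ (2 ^ n) • _ = _
      rw [smul_add, smul_comm, hm, smul_comm, hm_DD n m hm, smul_zero, smul_zero, add_zero])

lemma phb_e (a b a' b' : R0) : phb n m hm (a • (cocA n).e1 x0 + b • (cocA n).e2 x0)
    (a' • cocB.e1 x0 + b' • cocB.e2 x0) =
    (a * a') • m + (a * b') • DD M m + (b * a') • dl M m + (b * b') • dl M (DD M m) := by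
  unfold phb
  rw [Coc.lf_e, LinearMap.add_apply, LinearMap.smul_apply, LinearMap.smul_apply, Coc.lf_e,
    Coc.lf_e]
  module

lemma phb_11 : liftT (phb n m hm) (tp ((cocA n).e1 x0) (cocB.e1 x0)) = m := by
  have := phb_e n m hm 1 0 1 0
  simpa [liftT_tp] using this

lemma phb_12 : liftT (phb n m hm) (tp ((cocA n).e1 x0) (cocB.e2 x0)) = DD M m := by
  have := phb_e n m hm 1 0 0 1
  simpa [liftT_tp] using this

lemma phb_21 : liftT (phb n m hm) (tp ((cocA n).e2 x0) (cocB.e1 x0)) = dl M m := by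
  have := phb_e n m hm 0 1 1 0
  simpa [liftT_tp] using this

lemma phb_22 : liftT (phb n m hm) (tp ((cocA n).e2 x0) (cocB.e2 x0)) = dl M (DD M m) := by
  have := phb_e n m hm 0 1 0 1
  simpa [liftT_tp] using this

lemma phb_ind {G : Sc (PP n) x0 → Sc M x0} {G' : Sc (PP n) x0 → Sc M x0}
    (h1 : ∀ u v, G (u + v) = G u + G v) (h2 : ∀ (r : R0) u, G (r • u) = r • G u)
    (h1' : ∀ u v, G' (u + v) = G' u + G' v) (h2' : ∀ (r : R0) u, G' (r • u) = r • G' u)
    (h11 : G (tp ((cocA n).e1 x0) (cocB.e1 x0)) = G' (tp ((cocA n).e1 x0) (cocB.e1 x0)))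
    (h12 : G (tp ((cocA n).e1 x0) (cocB.e2 x0)) = G' (tp ((cocA n).e1 x0) (cocB.e2 x0)))
    (h21 : G (tp ((cocA n).e2 x0) (cocB.e1 x0)) = G' (tp ((cocA n).e2 x0) (cocB.e1 x0)))
    (h22 : G (tp ((cocA n).e2 x0) (cocB.e2 x0)) = G' (tp ((cocA n).e2 x0) (cocB.e2 x0)))
    (u : Sc (PP n) x0) : G u = G' u := by
  refine sc_tens_ind (P := fun u => G u = G' u) ?_ ?_ ?_ u
  · have e1 := h2 0 0
    have e2 := h2' 0 0
    rw [zero_smul, zero_smul] at e1 e2
    rw [e1, e2]
  · intro a b ha hb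
    rw [h1, h1', ha, hb]
  · intro a b
    obtain ⟨r, s, rfl⟩ := (cocA n).exists_e a
    obtain ⟨r', s', rfl⟩ := cocB.exists_e b
    simp only [tp_add_left, tp_add_right, tp_smul_left, tp_smul_right, h1, h2, h1', h2', h11, h12,
      h21, h22]

/-- The morphism from the generator with prescribed image of `1`. -/
noncomputable def ph (hm : x0.pi ^ (2 ^ n) • dl M m = 0) : QSh.Hom (PP n) M :=
  homOf (liftT (phb n m hm))
    (phb_ind n (G := fun u => liftT (phb n m hm) (dl (PP n) u))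
      (G' := fun u => dl M (liftT (phb n m hm) u))
      (fun u v => by rw [dl_add, map_add]) (fun r u => by rw [dl_smul, map_smul])
      (fun u v => by rw [map_add, dl_add]) (fun r u => by rw [map_smul, dl_smul])
      (by
        have h := dl_p1 (x := x0) n
        unfold p1 at h
        rw [h, phb_21, phb_11])
      (by
        have h := dlDD_p1 (x := x0) n
        rw [DD_p1] at h
        rw [h, phb_22, phb_12])
      (by
        rw [dl_tp, Coc.dl_e2, dlB_e1, tp_zero_left, tp_zero_right, tp_zero_left, add_zero, add_zero,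
          map_zero, phb_21, dl_dl])
      (by
        rw [dl_tp, Coc.dl_e2, Coc.dl_e2, tp_zero_left, tp_zero_right, tp_zero_left, add_zero,
          add_zero, map_zero, phb_22, dl_dl]))
    (phb_ind n (G := fun u => liftT (phb n m hm) (DD (PP n) u))
      (G' := fun u => DD M (liftT (phb n m hm) u))
      (fun u v => by rw [DD_add, map_add]) (fun r u => by rw [DD_smul, map_smul])
      (fun u v => by rw [map_add, DD_add]) (fun r u => by rw [map_smul, DD_smul])
      (by
        have h := DD_p1 (x := x0) n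
        unfold p1 at h
        rw [h, phb_12, phb_11])
      (by
        rw [DD_tp, DDA_e1, Coc.DD_e2, tp_zero_left, tp_zero_right, add_zero, map_zero, phb_12,
          DD_DD])
      (by
        rw [DD_tp, Coc.DD_e2, DDB_e1, tp_zero_left, zero_add, phb_22, phb_21, dl_DD])
      (by
        rw [DD_tp, Coc.DD_e2, Coc.DD_e2, tp_zero_left, tp_zero_right, add_zero, map_zero, phb_22,
          ← dl_DD, DD_DD, dl_zero]))

lemma ph_p1 : ap (ph n m hm) x0 (p1 n x0) = m := by
  unfold ph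
  rw [ap_homOf]
  exact phb_11 n m hm

lemma ph_uniq (a : QSh.Hom (PP n) M) (h : ap a x0 (p1 n x0) = m) : a = ph n m hm :=
  PHext (h.trans (ph_p1 n m hm).symm)

end

/-! ### Auxiliary morphisms -/

/-- The zero morphism. -/
def zHom (M N : QSh (XX True)) : QSh.Hom M N :=
  mkHom (fun x => 0) (fun H m => by rw [LinearMap.zero_apply, LinearMap.zero_apply, map_zero])

lemma ap_zHom (m : Sc M x) : ap (zHom M N) x m = 0 := rfl

/-- The sum of morphisms. -/
def aHom (a b : QSh.Hom M N) : QSh.Hom M N :=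
  mkHom (fun x => ap a x + ap b x) (fun H m => by
    rw [LinearMap.add_apply, LinearMap.add_apply, ap_nat, ap_nat, map_add])

lemma ap_aHom (a b : QSh.Hom M N) (m : Sc M x) : ap (aHom a b) x m = ap a x m + ap b x m := rfl

lemma aHom_isSum (a b : QSh.Hom M N) : QSh.IsSum a b (aHom a b) := fun x m => rfl

/-- The inverse associativity. -/
def aInv (M N P : QSh (XX True)) : QSh.Hom (M.tens (N.tens P)) ((M.tens N).tens P) :=
  (QSh.symmHom M (N.tens P)).comp ((QSh.assocHom N P M).comp ((QSh.symmHom N (P.tens M)).comp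
    ((QSh.assocHom P M N).comp (QSh.symmHom P (M.tens N)))))

lemma ap_aInv (m : Sc M x) (n : Sc N x) (k : Sc P x) :
    ap (aInv M N P) x (tp m (tp n k)) = tp (tp m n) k := rfl

/-- The shuffle. -/
def shuf (M N P Q : QSh (XX True)) :
    QSh.Hom ((M.tens N).tens (P.tens Q)) ((M.tens P).tens (N.tens Q)) :=
  (QSh.assocHom M N (P.tens Q)).comp (((QSh.Hom.id M).tens ((aInv N P Q).comp
    (((QSh.symmHom N P).tens (QSh.Hom.id Q)).comp (QSh.assocHom P N Q)))).comp
      (aInv M P (N.tens Q)))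

lemma ap_shuf (m : Sc M x) (n : Sc N x) (k : Sc P x) (l : Sc Q x) :
    ap (shuf M N P Q) x (tp (tp m n) (tp k l)) = tp (tp m k) (tp n l) := rfl

end Pool.Agent.TH165.Tan
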