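import Mathlib
import Pool.Agent.TH165.Tan2.Phi
import Pool.Agent.TH989.Tan165API

set_option autoImplicit false
set_option linter.unusedVariables false

open CategoryTheory TensorProduct

namespace Pool.Agent.TH165.Tan

/-! ### Fibre functors -/

/-- Right exact tensor functors from quasi-coherent sheaves to `R`-modules. -/
structure FF (R : Type) [CommRing R] where
  V : QSh (XX True) → Type
  [grp : ∀ M, AddCommGroup (V M)]
  [mod : ∀ M, Module R (V M)]
  mp {M N : QSh (XX True)} (a : QSh.Hom M N) : V M →ₗ[R] V N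
  mp_id {M : QSh (XX True)} (v : V M) : mp (QSh.Hom.id M) v = v
  mp_comp {M N P : QSh (XX True)} (a : QSh.Hom M N) (b : QSh.Hom N P) (v : V M) :
    mp (a.comp b) v = mp b (mp a v)
  mp_add {M N : QSh (XX True)} {a b c : QSh.Hom M N} (h : QSh.IsSum a b c) (v : V M) :
    mp c v = mp a v + mp b v
  bx {M N : QSh (XX True)} : V M →ₗ[R] V N →ₗ[R] V (M.tens N)
  bx_nat {M N M' N' : QSh (XX True)} (a : QSh.Hom M M') (b : QSh.Hom N N') (m : V M) (n : V N) :
    mp (a.tens b) (bx m n) = bx (mp a m) (mp b n)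
  one : V OO
  bx_lunit {M : QSh (XX True)} (m : V M) : mp (QSh.lunitHom M) (bx one m) = m
  bx_runit {M : QSh (XX True)} (m : V M) : mp (QSh.runitHom M) (bx m one) = m
  bx_symm {M N : QSh (XX True)} (m : V M) (n : V N) : mp (QSh.symmHom M N) (bx m n) = bx n m
  bx_assoc {M N P : QSh (XX True)} (m : V M) (n : V N) (k : V P) :
    mp (QSh.assocHom M N P) (bx (bx m n) k) = bx m (bx n k)
  bx_bij {M N : QSh (XX True)} : Function.Bijective (TensorProduct.lift (bx (M := M) (N := N)))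
  one_bij : Function.Bijective (fun r : R => r • one)
  exact {M N Q : QSh (XX True)} (a b : QSh.Hom M N) (c : QSh.Hom N Q)
    (hs : ∀ {S : Type} [CommRing S] (x : Ob True S), Function.Surjective (ap c x))
    (hab : ∀ {S : Type} [CommRing S] (x : Ob True S) (m : Sc M x),
      ap c x (ap a x m) = ap c x (ap b x m))
    (hk : ∀ {S : Type} [CommRing S] (x : Ob True S) (n : Sc N x),
      ap c x n = 0 → ∃ m, n = ap a x m - ap b x m) :
    Function.Surjective (mp c) ∧ ∀ n : V N, mp c n = 0 → ∃ m, n = mp a m - mp b m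

attribute [instance] FF.grp FF.mod

variable {R S T U : Type} [CommRing R] [CommRing S] [CommRing T] [CommRing U]
  {φ φ' : R →+* S} {ψ : S →+* T} {x x' : Ob True R} {y y' : Ob True S} {z : Ob True T}
  {p q s p₁ q₁ s₁ : S} {p' q' s' : T} {f f' : R0 →+* S} {M N P Q : QSh (XX True)}

/-- The fibre functor of a cocontinuous tensor functor. -/
noncomputable def FF.vs {Y : Fib} (F : CTF (XX True) Y) (t : Y.Obj R) : FF R where
  V M := Vs F t M
  mp a := Vm F t a
  mp_id v := Vm_id F t v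
  mp_comp a b v := Vm_comp F t a b v
  mp_add h v := Vm_add F t h v
  bx := Tan.bx F t
  bx_nat a b m n := Tan.bx_nat F t a b m n
  one := v1 F t
  bx_lunit m := Tan.bx_lunit F t m
  bx_runit m := Tan.bx_runit F t m
  bx_symm m n := Tan.bx_symm F t m n
  bx_assoc m n k := Tan.bx_assoc F t m n k
  bx_bij := Tan.bx_bij F t
  one_bij := v1_bij F t
  exact a b c hs hab hk := Vm_exact F t a b c (fun {S} _ x => hs (S := S) x)
    (fun {S} _ x => hab (S := S) x) (fun {S} _ x => hk (S := S) x)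

/-- The fibre functor of an object. -/
noncomputable def FF.sc (x : Ob True R) : FF R where
  V M := Sc M x
  mp a := ap a x
  mp_id v := rfl
  mp_comp a b v := rfl
  mp_add h v := h (R := R) x v
  bx {M N} := TensorProduct.mk R (Sc M x) (Sc N x)
  bx_nat a b m n := rfl
  one := o1 x
  bx_lunit m := ap_lunit1 m
  bx_runit m := ap_runit1 m
  bx_symm m n := rfl
  bx_assoc m n k := rfl
  bx_bij {M N} := by
    have : TensorProduct.lift (TensorProduct.mk R (Sc M x) (Sc N x)) = LinearMap.id :=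
      TensorProduct.lift_mk
    change Function.Bijective (TensorProduct.lift (TensorProduct.mk R (Sc M x) (Sc N x)))
    rw [this]
    exact Function.bijective_id
  one_bij := by
    have : (fun r : R => r • o1 x) = fun r => r := by
      funext r
      exact mul_one r
    rw [this]
    exact Function.bijective_id
  exact a b c hs hab hk := ⟨hs x, fun n hn => hk x n hn⟩

namespace FF

variable (V : FF R)

lemma mp_aHom (a b : QSh.Hom M N) (v : V.V M) : V.mp (aHom a b) v = V.mp a v + V.mp b v :=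
  V.mp_add (aHom_isSum a b) v

lemma mp_zHom (v : V.V M) : V.mp (zHom M N) v = 0 := by
  have h : QSh.IsSum (zHom M N) (zHom M N) (zHom M N) := fun x m => (add_zero _).symm
  have := V.mp_add h v
  exact left_eq_add.mp this

lemma bx_aInv (m : V.V M) (n : V.V N) (k : V.V P) :
    V.mp (aInv M N P) (V.bx m (V.bx n k)) = V.bx (V.bx m n) k := by
  unfold aInv
  rw [V.mp_comp, V.mp_comp, V.mp_comp, V.mp_comp, V.bx_symm, V.bx_assoc, V.bx_symm, V.bx_assoc,
    V.bx_symm]

lemma bx_shuf (m : V.V M) (n : V.V N) (k : V.V P) (l : V.V Q) :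
    V.mp (shuf M N P Q) (V.bx (V.bx m n) (V.bx k l)) = V.bx (V.bx m k) (V.bx n l) := by
  unfold shuf
  rw [V.mp_comp, V.mp_comp, V.bx_assoc, V.bx_nat, V.mp_id, V.mp_comp, V.mp_comp, V.bx_aInv,
    V.bx_nat, V.mp_id, V.bx_symm, V.bx_assoc, V.bx_aInv]

/-! ### Scalars -/

lemma mulR_lunit (r : R0) (M : QSh (XX True)) :
    (QSh.lunitHom M).comp (mulR r M) = ((mulR r OO).tens (QSh.Hom.id M)).comp (QSh.lunitHom M) := by
  refine tens_hom_ext0 fun u m => ?_
  change x0.rho r • ((show R0 from u) • m) = (x0.rho r * (show R0 from u)) • m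
  rw [mul_smul]

lemma exists_scal (r : R0) : ∃ c : R, c • V.one = V.mp (mulR r OO) V.one :=
  V.one_bij.surjective _

/-- The action of the base ring. -/
noncomputable def rv (r : R0) : R := (V.exists_scal r).choose

lemma rv_one (r : R0) : V.mp (mulR r OO) V.one = V.rv r • V.one :=
  (V.exists_scal r).choose_spec.symm

lemma mp_mulR (r : R0) (v : V.V M) : V.mp (mulR r M) v = V.rv r • v := by
  have h1 := congrArg (fun a => V.mp a (V.bx V.one v)) (mulR_lunit r M)
  change V.mp _ _ = V.mp _ _ at h1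
  rw [V.mp_comp, V.mp_comp, V.bx_lunit, V.bx_nat, V.mp_id, V.rv_one, map_smul,
    LinearMap.smul_apply, map_smul, V.bx_lunit] at h1
  exact h1

lemma one_inj {a b : R} (h : a • V.one = b • V.one) : a = b := V.one_bij.injective h

/-- The action of the base ring, as a ring map. -/
noncomputable def rV : R0 →+* R where
  toFun := V.rv
  map_one' := by
    apply V.one_inj
    rw [← V.rv_one, one_smul]
    have : mulR 1 OO = QSh.Hom.id OO := hom_ext0 fun m => by
      rw [ap_mulR, map_one, one_smul, ap_id]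
    rw [this, V.mp_id]
  map_mul' a b := by
    apply V.one_inj
    have : mulR (a * b) OO = (mulR b OO).comp (mulR a OO) := hom_ext0 fun m => by
      rw [ap_mulR, ap_comp, ap_mulR, ap_mulR, map_mul, mul_smul]
    rw [← V.rv_one (a * b), this, V.mp_comp, V.rv_one b, map_smul, V.rv_one a, smul_smul,
      mul_comm]
  map_zero' := by
    apply V.one_inj
    rw [← V.rv_one, zero_smul]
    have : mulR 0 OO = zHom OO OO := hom_ext0 fun m => by
      rw [ap_mulR, map_zero, zero_smul, ap_zHom]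
    rw [this, V.mp_zHom]
  map_add' a b := by
    apply V.one_inj
    rw [← V.rv_one, add_smul, ← V.rv_one a, ← V.rv_one b]
    have : mulR (a + b) OO = aHom (mulR a OO) (mulR b OO) := hom_ext0 fun m => by
      rw [ap_mulR, ap_aHom, ap_mulR, ap_mulR, map_add, add_smul]
    rw [this, V.mp_aHom]

lemma mp_mulR' (r : R0) (v : V.V M) : V.mp (mulR r M) v = V.rV r • v := V.mp_mulR r v

include V in
lemma two_eq : (2 : R) = 0 := by
  rw [← map_ofNat V.rV 2, R0_two, map_zero]

/-- The value of `π`. -/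
noncomputable def pv : R := V.rV Polynomial.X

lemma sc_rV (x : Ob True R) : (FF.sc x).rV = x.rho := by
  ext1
  · exact Ideal.Quotient.ringHom_ext (RingHom.ext_int _ _)
  · have h := (FF.sc x).rv_one Polynomial.X
    have h2 : x.rho Polynomial.X • o1 x = (FF.sc x).rv Polynomial.X • o1 x := h
    have h3 : ∀ r : R, r • o1 x = (show Sc OO x from r) := fun r => mul_one r
    rw [h3, h3] at h2
    exact h2.symm

end FF

/-! ### Points of fibre functors -/

/-- The value of the generator `δ`. -/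
noncomputable def FF.de (V : FF R) (C : Coc) : V.V C.sh := V.mp C.io V.one

/-- The sections which determine a point. -/
structure FF.Pt (V : FF R) where
  a : R
  c : R
  s (n : ℕ) : V.V (cocA n).sh
  r : V.V cocB.sh
  s_ep (n : ℕ) : V.mp (cocA n).ep (s n) = V.one
  s_tr {m n : ℕ} (h : m ≤ n) : V.mp (trA h) (s n) = s m
  s_De (n : ℕ) : V.mp (cocA n).De (s n) =
    V.bx (s n) (s n) + a • V.bx (V.de (cocA n)) (V.de (cocA n))
  r_ep : V.mp cocB.ep r = V.one
  r_De : V.mp cocB.De r = V.bx r r + c • V.bx (V.de cocB) (V.de cocB)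

lemma FF.sc_de (x : Ob True R) (C : Coc) : (FF.sc x).de C = C.e2 x := C.ap_io1

/-- The point given by an object. -/
noncomputable def FF.scPt (x : Ob True R) : (FF.sc x).Pt where
  a := x.a
  c := x.c
  s n := (cocA n).e1 x
  r := cocB.e1 x
  s_ep n := (cocA n).ep_e1
  s_tr h := trA_e1 h
  s_De n := by
    rw [FF.sc_de]
    exact (cocA n).De_e1
  r_ep := cocB.ep_e1
  r_De := by
    rw [FF.sc_de]
    exact cocB.De_e1

namespace FF

variable {V : FF R} (A : V.Pt)

lemma hm_mono {m : Sc M x} {n n' : ℕ} (h : n ≤ n') (hm : x.pi ^ (2 ^ n) • dl M m = 0) :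
    x.pi ^ (2 ^ n') • dl M m = 0 := by
  have h1 : x.pi ^ (2 ^ n') = x.pi ^ (2 ^ n' - 2 ^ n) * x.pi ^ (2 ^ n) := by
    rw [← pow_add, Nat.sub_add_cancel (Nat.pow_le_pow_right (by norm_num) h)]
  rw [h1, mul_smul, hm, smul_zero]

lemma exists_hm (m : Sc M x) : ∃ n : ℕ, x.pi ^ (2 ^ n) • dl M m = 0 := by
  obtain ⟨n, hn⟩ := exists_tor' M m
  refine ⟨n, ?_⟩
  have h1 : x.pi ^ (2 ^ n) = x.pi ^ (2 ^ n - n) * x.pi ^ n := by
    rw [← pow_add, Nat.sub_add_cancel (Nat.lt_two_pow_self).le]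
  rw [h1, mul_smul, hn, smul_zero]

/-- The section of `V(M)` given by an element over the base object. -/
noncomputable def th (A : V.Pt) (m : Sc M x0) : V.V M :=
  V.mp (ph (exists_hm m).choose m (exists_hm m).choose_spec)
    (V.bx (A.s (exists_hm m).choose) A.r)

lemma th_le {n n' : ℕ} (h : n ≤ n') (m : Sc M x0) (hm : x0.pi ^ (2 ^ n) • dl M m = 0) :
    V.mp (ph n m hm) (V.bx (A.s n) A.r) = V.mp (ph n' m (hm_mono h hm)) (V.bx (A.s n') A.r) := by
  rw [← ph_uniq n' m (hm_mono h hm) (((trA h).tens (QSh.Hom.id cocB.sh)).comp (ph n m hm)) (by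
    rw [ap_comp]
    have : ap ((trA h).tens (QSh.Hom.id cocB.sh)) x0 (p1 n' x0) = p1 n x0 := by
      unfold p1
      rw [ap_tens, trA_e1, ap_id]
    rw [this, ph_p1]), V.mp_comp, V.bx_nat, A.s_tr, V.mp_id]

lemma th_eq (n : ℕ) (m : Sc M x0) (hm : x0.pi ^ (2 ^ n) • dl M m = 0) :
    V.mp (ph n m hm) (V.bx (A.s n) A.r) = th A m := by
  rw [th_le A (le_max_left n (exists_hm m).choose) m hm]
  unfold th
  rw [th_le A (le_max_right n (exists_hm m).choose) m (exists_hm m).choose_spec]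

lemma th_add (m m' : Sc M x0) : th A (m + m') = th A m + th A m' := by
  obtain ⟨n, hn⟩ := exists_hm m
  obtain ⟨n', hn'⟩ := exists_hm m'
  have h1 := hm_mono (le_max_left n n') hn
  have h2 := hm_mono (le_max_right n n') hn'
  have h3 : x0.pi ^ (2 ^ (max n n')) • dl M (m + m') = 0 := by
    rw [dl_add, smul_add, h1, h2, add_zero]
  rw [← th_eq A _ m h1, ← th_eq A _ m' h2, ← th_eq A _ _ h3, ← V.mp_aHom]
  congr 2
  refine (ph_uniq _ _ _ _ ?_).symm
  rw [ap_aHom, ph_p1, ph_p1]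

lemma x0_rho (r : R0) : x0.rho r = r := by
  have : x0.rho = RingHom.id R0 := rho_ext x0.rho_pi
  rw [this, RingHom.id_apply]

lemma th_smul (r : R0) (m : Sc M x0) : th A (r • m) = V.rV r • th A m := by
  obtain ⟨n, hn⟩ := exists_hm m
  have h3 : x0.pi ^ (2 ^ n) • dl M (r • m) = 0 := by
    rw [dl_smul, smul_comm, hn, smul_zero]
  rw [← th_eq A _ m hn, ← th_eq A _ _ h3, ← V.mp_mulR', ← V.mp_comp]
  congr 2
  refine (ph_uniq _ _ _ _ ?_).symm
  rw [ap_comp, ap_mulR, ph_p1, x0_rho]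

lemma th_nat (a : QSh.Hom M N) (m : Sc M x0) : V.mp a (th A m) = th A (ap a x0 m) := by
  obtain ⟨n, hn⟩ := exists_hm m
  have h3 : x0.pi ^ (2 ^ n) • dl N (ap a x0 m) = 0 := by
    rw [← ap_dl, ← map_smul, hn, map_zero]
  rw [← th_eq A _ m hn, ← th_eq A _ _ h3, ← V.mp_comp]
  congr 2
  refine ph_uniq _ _ _ _ ?_
  rw [ap_comp, ph_p1]

lemma dl_o1 (x : Ob True R) : dl OO (o1 x) = 0 := by
  unfold dl
  rw [ac_o1, sub_self]

lemma th_one : th A (o1 x0) = V.one := by
  have h3 : x0.pi ^ (2 ^ 0) • dl OO (o1 x0) = 0 := by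
    rw [dl_o1, smul_zero]
  rw [← th_eq A 0 _ h3, ← ph_uniq 0 _ h3 (((cocA 0).ep.tens cocB.ep).comp (QSh.lunitHom OO)) (by
    rw [ap_comp]
    unfold p1
    rw [ap_tens, Coc.ep_e1, Coc.ep_e1, ap_lunit1]), V.mp_comp, V.bx_nat, A.s_ep, A.r_ep,
    V.bx_lunit]

lemma mp_ep_io (C : Coc) (v : V.V C.sh) (hv : V.mp C.ep v = V.one) :
    V.mp (C.ep.comp C.io) v = V.de C := by
  rw [V.mp_comp, hv]
  rfl

lemma th_dl (n : ℕ) (m : Sc M x0) (hm : x0.pi ^ (2 ^ n) • dl M m = 0) :
    V.mp (ph n m hm) (V.bx (V.de (cocA n)) A.r) = th A (dl M m) := by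
  have h3 : x0.pi ^ (2 ^ n) • dl M (dl M m) = 0 := by rw [dl_dl, smul_zero]
  rw [← th_eq A n _ h3, ← ph_uniq n _ h3 ((((cocA n).ep.comp (cocA n).io).tens
    (QSh.Hom.id cocB.sh)).comp (ph n m hm)) (by
      rw [ap_comp]
      unfold p1
      rw [ap_tens, ap_comp, Coc.ep_e1, Coc.ap_io1, ap_id, ← dl_p1, ap_dl, ph_p1]),
    V.mp_comp, V.bx_nat, mp_ep_io _ _ (A.s_ep n), V.mp_id]

lemma th_DD (n : ℕ) (m : Sc M x0) (hm : x0.pi ^ (2 ^ n) • dl M m = 0) :
    V.mp (ph n m hm) (V.bx (A.s n) (V.de cocB)) = th A (DD M m) := by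
  have h3 : x0.pi ^ (2 ^ n) • dl M (DD M m) = 0 := hm_DD n m hm
  rw [← th_eq A n _ h3, ← ph_uniq n _ h3 (((QSh.Hom.id (cocA n).sh).tens
    (cocB.ep.comp cocB.io)).comp (ph n m hm)) (by
      rw [ap_comp]
      unfold p1
      rw [ap_tens, ap_comp, Coc.ep_e1, Coc.ap_io1, ap_id, ← DD_p1, ap_DD, ph_p1]),
    V.mp_comp, V.bx_nat, mp_ep_io _ _ A.r_ep, V.mp_id]

lemma th_dlDD (n : ℕ) (m : Sc M x0) (hm : x0.pi ^ (2 ^ n) • dl M m = 0) :
    V.mp (ph n m hm) (V.bx (V.de (cocA n)) (V.de cocB)) = th A (dl M (DD M m)) := by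
  have h3 : x0.pi ^ (2 ^ n) • dl M (dl M (DD M m)) = 0 := by rw [dl_dl, smul_zero]
  rw [← th_eq A n _ h3, ← ph_uniq n _ h3 ((((cocA n).ep.comp (cocA n).io).tens
    (cocB.ep.comp cocB.io)).comp (ph n m hm)) (by
      rw [ap_comp]
      unfold p1
      rw [ap_tens, ap_comp, ap_comp, Coc.ep_e1, Coc.ap_io1, Coc.ep_e1, Coc.ap_io1, ← dlDD_p1,
        ap_dl, ap_DD, ph_p1]),
    V.mp_comp, V.bx_nat, mp_ep_io _ _ A.r_ep, mp_ep_io _ _ (A.s_ep n)]

lemma th_tens (m : Sc M x0) (n : Sc N x0) : th A (tp m n) =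
    V.bx (th A m) (th A n) + A.a • V.bx (th A (dl M m)) (th A (dl N n)) +
      A.c • V.bx (th A (DD M m)) (th A (DD N n)) +
      (A.a * A.c) • V.bx (th A (dl M (DD M m))) (th A (dl N (DD N n))) := by
  obtain ⟨k, hk⟩ := exists_hm m
  obtain ⟨k', hk'⟩ := exists_hm n
  have h1 := hm_mono (le_max_left k k') hk
  have h2 := hm_mono (le_max_right k k') hk'
  generalize max k k' = l at h1 h2
  have h3 : x0.pi ^ (2 ^ l) • dl (M.tens N) (tp m n) = 0 := by
    rw [dl_tp, smul_add, smul_add, ← tp_smul_left, ← tp_smul_right, ← tp_smul_left, h1, h2,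
      tp_zero_left, tp_zero_left, tp_zero_right, add_zero, add_zero]
  rw [← th_eq A l _ h3, ← ph_uniq l _ h3 ((((cocA l).De.tens cocB.De).comp
    (shuf (cocA l).sh (cocA l).sh cocB.sh cocB.sh)).comp ((ph l m h1).tens (ph l n h2))) (by
      rw [ap_comp, ap_comp]
      unfold p1
      rw [ap_tens, Coc.De_e1, Coc.De_e1]
      have ha : (cocA l).al x0 = 0 := rfl
      have hc : cocB.al x0 = 0 := rfl
      rw [ha, hc, zero_smul, zero_smul, add_zero, add_zero, ap_shuf, ap_tens]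
      have e1 := ph_p1 l m h1
      have e2 := ph_p1 l n h2
      unfold p1 at e1 e2
      rw [e1, e2])]
  rw [V.mp_comp, V.mp_comp, V.bx_nat, A.s_De, A.r_De]
  simp only [map_add, map_smul, LinearMap.add_apply, LinearMap.smul_apply, V.bx_shuf, V.bx_nat]
  rw [th_eq A, th_eq A, th_dl A, th_dl A, th_DD A, th_DD A, th_dlDD A, th_dlDD A, smul_add,
    smul_smul, mul_comm A.c A.a]
  abel

end FF

end Pool.Agent.TH165.Tan
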