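import Mathlib
import Pool.Agent.TH165.Tan2.FF

set_option autoImplicit false
set_option linter.unusedVariables false

open CategoryTheory TensorProduct

namespace Pool.Agent.TH165.Tan

variable {R S T U : Type} [CommRing R] [CommRing S] [CommRing T] [CommRing U]
  {φ φ' : R →+* S} {ψ : S →+* T} {x x' : Ob True R} {y y' : Ob True S} {z : Ob True T}
  {M N P Q : QSh (XX True)}

/-! ### Identities between morphisms -/

namespace Coc

variable (C : Coc)

lemma io_ep : C.io.comp C.ep = zHom OO OO := by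
  refine hom_ext0 fun m => ?_
  change ap C.ep x0 (ap C.io x0 (oo x0 m)) = 0
  rw [ap_io, map_smul, ep_e2, smul_zero]

/-- The comultiplication with the first factor `δ`. -/
noncomputable def T1 : QSh.Hom C.sh (C.sh.tens C.sh) :=
  mkHom (M := C.sh) (N := C.sh.tens C.sh)
    (fun {R} _ x => TensorProduct.mk R (Sc C.sh x) (Sc C.sh x) (C.e2 x)) (by
    intro R S _ _ φ x y p q s H m
    change tp (C.e2 y) (ac C.sh H m) = ac (C.sh.tens C.sh) H (tp (C.e2 x) m)
    rw [ac_tp, C.ac_e2])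

/-- The comultiplication with the second factor `δ`. -/
noncomputable def T2 : QSh.Hom C.sh (C.sh.tens C.sh) :=
  mkHom (M := C.sh) (N := C.sh.tens C.sh)
    (fun {R} _ x => (TensorProduct.mk R (Sc C.sh x) (Sc C.sh x)).flip (C.e2 x)) (by
    intro R S _ _ φ x y p q s H m
    change tp (ac C.sh H m) (C.e2 y) = ac (C.sh.tens C.sh) H (tp m (C.e2 x))
    rw [ac_tp, C.ac_e2])

lemma ap_T1 (m : Sc C.sh x) : ap C.T1 x m = tp (C.e2 x) m := rfl

lemma ap_T2 (m : Sc C.sh x) : ap C.T2 x m = tp m (C.e2 x) := rfl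

lemma lunit_T1 : (QSh.lunitHom C.sh).comp C.T1 = C.io.tens (QSh.Hom.id C.sh) := by
  refine tens_hom_ext0 fun u m => ?_
  change tp (C.e2 x0) ((show R0 from u) • m) = tp ((show R0 from u) • C.e2 x0) m
  rw [tp_smul_left, tp_smul_right]

lemma runit_T2 : (QSh.runitHom C.sh).comp C.T2 = (QSh.Hom.id C.sh).tens C.io := by
  refine tens_hom_ext0 fun m u => ?_
  change tp ((show R0 from u) • m) (C.e2 x0) = tp m ((show R0 from u) • C.e2 x0)
  rw [tp_smul_left, tp_smul_right]

lemma De_ep1 : C.De.comp ((C.ep.tens (QSh.Hom.id C.sh)).comp (QSh.lunitHom C.sh)) =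
    QSh.Hom.id C.sh := by
  refine C.hom_ext ?_ ?_
  · simp only [ap_comp, De_e1, map_add, map_smul, ap_tens, ap_id, ep_e1, ep_e2, tp_zero_left,
      map_zero, smul_zero, add_zero, zero_add, ap_lunit1]
  · simp only [ap_comp, De_e2, map_add, map_smul, ap_tens, ap_id, ep_e1, ep_e2, tp_zero_left,
      map_zero, smul_zero, add_zero, zero_add, ap_lunit1]

lemma De_ep2 : C.De.comp (((QSh.Hom.id C.sh).tens C.ep).comp (QSh.runitHom C.sh)) =
    QSh.Hom.id C.sh := by
  refine C.hom_ext ?_ ?_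
  · simp only [ap_comp, De_e1, map_add, map_smul, ap_tens, ap_id, ep_e1, ep_e2, tp_zero_right,
      map_zero, smul_zero, add_zero, zero_add, ap_runit1]
  · simp only [ap_comp, De_e2, map_add, map_smul, ap_tens, ap_id, ep_e1, ep_e2, tp_zero_right,
      map_zero, smul_zero, add_zero, zero_add, ap_runit1]

lemma ep_io_De : (C.ep.comp C.io).comp C.De =
    aHom (aHom C.T1 C.T2) (((C.ep.comp C.io).comp C.T1).comp (mulR (C.th : R0) _)) := by
  refine C.hom_ext ?_ ?_
  · rw [ap_comp, ap_comp, ep_e1, ap_io1, De_e2, ap_aHom, ap_aHom, ap_comp, ap_comp, ap_comp,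
      ep_e1, ap_io1, ap_T1, ap_T1, ap_T2, ap_mulR, map_natCast]
  · rw [ap_comp, ap_comp, ep_e2, map_zero, map_zero, ap_aHom, ap_aHom, ap_comp, ap_comp, ap_comp,
      ep_e2, map_zero, map_zero, map_zero, add_zero, ap_T1, ap_T2, sc_two]

lemma be_io : ((QSh.Hom.id C.sh).tens C.io).comp C.be =
    ((C.ep.tens (QSh.Hom.id OO)).comp (QSh.lunitHom OO)).comp C.qu := by
  refine tens_hom_ext0 fun m u => ?_
  obtain ⟨a, b, rfl⟩ := C.exists_e m
  have h1 : u = oo x0 u := rfl
  rw [h1, ap_comp, ap_tens, ap_io, ap_id]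
  have h2 : (show R0 from u) • C.e2 x0 = (0 : R0) • C.e1 x0 + (show R0 from u) • C.e2 x0 := by
    rw [zero_smul, zero_add]
  rw [h2, be_e, ap_comp, ap_comp, ap_tens, ap_id, map_add, map_smul, map_smul, ep_e1, ep_e2,
    smul_zero, add_zero, ← oo_smul, ap_lunit]
  change _ = ap C.qu x0 (oo x0 (a * (show R0 from u)))
  rw [ap_qu', zero_mul, add_zero]

lemma io_mulR : C.io.comp (mulR C.gr C.sh) = zHom OO C.sh := by
  refine hom_ext0 fun m => ?_
  change x0.rho C.gr • ap C.io x0 (oo x0 m) = 0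
  rw [ap_io, ← C.g_rho, smul_comm, C.g_e2, smul_zero]

end Coc

lemma tr_ep {m n : ℕ} (h : m ≤ n) : (trA h).comp (cocA m).ep = (cocA n).ep := by
  refine (cocA n).hom_ext ?_ ?_
  · rw [ap_comp, trA_e1, Coc.ep_e1, Coc.ep_e1]
  · rw [ap_comp, trA_e2, Coc.ep_e2, Coc.ep_e2]

lemma io_tr {m n : ℕ} (h : m ≤ n) : (cocA n).io.comp (trA h) = (cocA m).io := by
  refine hom_ext0 fun u => ?_
  change ap (trA h) x0 (ap (cocA n).io x0 (oo x0 u)) = ap (cocA m).io x0 (oo x0 u)
  rw [Coc.ap_io, Coc.ap_io, map_smul, trA_e2]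

lemma tr_tr {l m n : ℕ} (h : l ≤ m) (h' : m ≤ n) :
    (trA h').comp (trA h) = trA (le_trans h h') := by
  refine (cocA n).hom_ext ?_ ?_
  · rw [ap_comp, trA_e1, trA_e1, trA_e1]
  · rw [ap_comp, trA_e2, trA_e2, trA_e2]

lemma tr_De {m n : ℕ} (h : m ≤ n) :
    (trA h).comp (cocA m).De = (cocA n).De.comp ((trA h).tens (trA h)) := by
  refine (cocA n).hom_ext ?_ ?_
  · rw [ap_comp, trA_e1, Coc.De_e1, ap_comp, Coc.De_e1, map_add, map_smul, ap_tens, ap_tens,
      trA_e1, trA_e2]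
    rfl
  · rw [ap_comp, trA_e2, Coc.De_e2, ap_comp, Coc.De_e2, map_add, map_add, map_smul, ap_tens,
      ap_tens, ap_tens, trA_e1, trA_e2]
    rfl

/-! ### The structure of the sections of the extensions -/

namespace FF

variable (V : FF R) (C : Coc)

lemma ep_exact : Function.Surjective (V.mp C.ep) ∧
    ∀ n, V.mp C.ep n = 0 → ∃ r : R, n = r • V.de C := by
  obtain ⟨h1, h2⟩ := V.exact C.io (zHom OO C.sh) C.ep (by
    intro S _ x r
    refine ⟨(show S from r) • C.e1 x, ?_⟩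
    rw [map_smul, C.ep_e1]
    exact (oo_smul x r).symm) (by
    intro S _ x m
    rw [ap_zHom, map_zero]
    change ap C.ep x (ap C.io x (oo x m)) = 0
    rw [Coc.ap_io, map_smul, Coc.ep_e2, smul_zero]) (by
    intro S _ x n hn
    obtain ⟨a, b, rfl⟩ := C.exists_e n
    rw [map_add, map_smul, map_smul, C.ep_e1, C.ep_e2, smul_zero, add_zero] at hn
    have ha : a = 0 := (mul_one a).symm.trans hn
    refine ⟨oo x b, ?_⟩
    rw [ap_zHom, sub_zero, Coc.ap_io, ha, zero_smul, zero_add])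
  refine ⟨h1, fun n hn => ?_⟩
  obtain ⟨m, rfl⟩ := h2 n hn
  obtain ⟨r, hr⟩ := V.one_bij.surjective m
  refine ⟨r, ?_⟩
  change r • V.one = m at hr
  rw [V.mp_zHom, sub_zero, ← hr, map_smul]
  rfl

lemma qu_exact (r : R) (h : V.mp C.qu (r • V.one) = 0) : ∃ e, r = V.rV C.gr * e := by
  obtain ⟨-, h2⟩ := V.exact (mulR C.gr OO) (zHom OO OO) C.qu (by
    intro S _ x r
    obtain ⟨b, hb⟩ := qmk_surj (show Qg (C.g x) from r)
    exact ⟨oo x b, hb⟩) (by
    intro S _ x m
    rw [ap_zHom, map_zero, ap_mulR, ← C.g_rho]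
    change qmk (C.g x) (C.g x * (show S from m)) = 0
    exact qmk_eq_zero.mpr ⟨_, rfl⟩) (by
    intro S _ x n hn
    obtain ⟨e, he⟩ := qmk_eq_zero.mp (show qmk (C.g x) (show S from n) = 0 from hn)
    refine ⟨oo x e, ?_⟩
    rw [ap_zHom, sub_zero, ap_mulR, ← C.g_rho]
    exact he)
  obtain ⟨m, hm⟩ := h2 _ h
  obtain ⟨e, he⟩ := V.one_bij.surjective m
  change e • V.one = m at he
  rw [V.mp_zHom, sub_zero, V.mp_mulR', ← he, smul_smul] at hm
  exact ⟨e, V.one_inj hm⟩

lemma ep_de : V.mp C.ep (V.de C) = 0 := by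
  unfold de
  rw [← V.mp_comp, C.io_ep, V.mp_zHom]

lemma g_de : V.rV C.gr • V.de C = 0 := by
  unfold de
  rw [← V.mp_mulR', ← V.mp_comp, C.io_mulR, V.mp_zHom]

variable {C} {s : V.V C.sh} (hs : V.mp C.ep s = V.one)

include hs

lemma de_inj (r : R) (h : r • V.de C = 0) : ∃ e, r = V.rV C.gr * e := by
  apply V.qu_exact C
  have h1 : V.mp C.be (V.bx s (r • V.de C)) = 0 := by rw [h, map_zero, map_zero]
  have h2 : V.mp C.be (V.bx s (V.de C)) = V.mp C.qu V.one := by
    have h3 : V.bx s (V.de C) = V.mp ((QSh.Hom.id C.sh).tens C.io) (V.bx s V.one) := by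
      rw [V.bx_nat, V.mp_id]
      rfl
    rw [h3, ← V.mp_comp, C.be_io, V.mp_comp, V.mp_comp, V.bx_nat, hs, V.mp_id, V.bx_lunit]
  rw [map_smul, map_smul, h2, ← map_smul] at h1
  exact h1

lemma exists_sd (v : V.V C.sh) : ∃ a b : R, v = a • s + b • V.de C := by
  obtain ⟨a, ha⟩ := V.one_bij.surjective (V.mp C.ep v)
  change a • V.one = _ at ha
  obtain ⟨b, hb⟩ := (V.ep_exact C).2 (v - a • s) (by
    rw [map_sub, map_smul, hs, ha, sub_self])
  exact ⟨a, b, by rw [← hb]; abel⟩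

lemma sd_inj {a b a' b' : R} (h : a • s + b • V.de C = a' • s + b' • V.de C) :
    a = a' ∧ ∃ e, b = b' + V.rV C.gr * e := by
  have h1 := congrArg (V.mp C.ep) h
  rw [map_add, map_add, map_smul, map_smul, map_smul, map_smul, V.ep_de, hs, smul_zero,
    smul_zero, add_zero, add_zero] at h1
  have h2 := V.one_inj h1
  subst h2
  refine ⟨rfl, ?_⟩
  have h3 : (b - b') • V.de C = 0 := by
    rw [sub_smul, sub_eq_zero]
    exact add_left_cancel h
  obtain ⟨e, he⟩ := V.de_inj hs _ h3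
  exact ⟨e, by linear_combination he⟩

omit hs in
/-- The parametrization of the sections. -/
noncomputable def sf (V : FF R) {C : Coc} (s : V.V C.sh) : (R × Qg (V.rV C.gr)) →ₗ[R] V.V C.sh :=
  (LinearMap.toSpanSingleton R (V.V C.sh) s).coprod (qlift (V.de C) (V.g_de C))

omit hs in
lemma sf_mk (a b : R) : sf V s (a, qmk _ b) = a • s + b • V.de C := rfl

lemma sf_bij : Function.Bijective (sf V s) := by
  constructor
  · rintro ⟨a, b⟩ ⟨a', b'⟩ h
    obtain ⟨b, rfl⟩ := qmk_surj b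
    obtain ⟨b', rfl⟩ := qmk_surj b'
    rw [sf_mk, sf_mk] at h
    obtain ⟨rfl, h2⟩ := V.sd_inj hs h
    rw [qmk_eq h2]
  · intro v
    obtain ⟨a, b, rfl⟩ := V.exists_sd hs v
    exact ⟨(a, qmk _ b), sf_mk V a b⟩

/-- Independence in the tensor product. -/
lemma dd_inj (r : R) (h : r • V.bx (V.de C) (V.de C) = 0) : ∃ e, r = V.rV C.gr * e := by
  let E := LinearEquiv.ofBijective (sf V s) (V.sf_bij hs)
  have hE : ∀ a b : R, E.symm (a • s + b • V.de C) = (a, qmk _ b) := by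
    intro a b
    rw [LinearEquiv.symm_apply_eq]
    rfl
  let lam : V.V C.sh →ₗ[R] Qg (V.rV C.gr) := (LinearMap.snd R R (Qg (V.rV C.gr))).comp E.symm.toLinearMap
  have hlam : V.rV C.gr • lam = 0 := by
    refine LinearMap.ext fun v => ?_
    obtain ⟨b, hb⟩ := qmk_surj (lam v)
    rw [LinearMap.smul_apply, ← hb, ← map_smul, smul_eq_mul, LinearMap.zero_apply]
    exact qmk_eq_zero.mpr ⟨b, rfl⟩
  let B : V.V C.sh →ₗ[R] V.V C.sh →ₗ[R] Qg (V.rV C.gr) :=
    (qlift lam hlam).comp lam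
  have hde : lam (V.de C) = qmk _ 1 := by
    have h1 : V.de C = (0 : R) • s + (1 : R) • V.de C := by rw [zero_smul, zero_add, one_smul]
    change (E.symm (V.de C)).2 = _
    rw [h1, hE]
  have hB : B (V.de C) (V.de C) = qmk _ 1 := by
    change (qlift lam hlam) (lam (V.de C)) (V.de C) = _
    rw [hde, qlift_mk, one_smul, hde]
  have h1 : r • ((V.de C) ⊗ₜ[R] (V.de C)) = 0 := by
    apply V.bx_bij.injective
    rw [map_smul, map_zero, TensorProduct.lift.tmul]
    exact h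
  have h2 := congrArg (TensorProduct.lift B) h1
  rw [map_smul, map_zero, TensorProduct.lift.tmul, hB, ← map_smul, smul_eq_mul, mul_one] at h2
  exact qmk_eq_zero.mp h2

lemma exists_bx (t : V.V (C.sh.tens C.sh)) : ∃ a b c d : R, t = a • V.bx s s +
    b • V.bx s (V.de C) + c • V.bx (V.de C) s + d • V.bx (V.de C) (V.de C) := by
  obtain ⟨t, rfl⟩ := V.bx_bij.surjective t
  induction t with
  | zero => exact ⟨0, 0, 0, 0, by rw [map_zero]; module⟩
  | add u v hu hv =>
    obtain ⟨a, b, c, d, h⟩ := hu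
    obtain ⟨a', b', c', d', h'⟩ := hv
    refine ⟨a + a', b + b', c + c', d + d', ?_⟩
    rw [map_add, h, h']
    module
  | tmul u v =>
    obtain ⟨a, b, rfl⟩ := V.exists_sd hs u
    obtain ⟨a', b', rfl⟩ := V.exists_sd hs v
    refine ⟨a * a', a * b', b * a', b * b', ?_⟩
    rw [TensorProduct.lift.tmul]
    simp only [map_add, map_smul, LinearMap.add_apply, LinearMap.smul_apply]
    module

lemma exists_De : ∃ α : R, V.mp C.De s = V.bx s s + α • V.bx (V.de C) (V.de C) := by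
  obtain ⟨a, b, c, d, h⟩ := V.exists_bx hs (V.mp C.De s)
  have h1 := congrArg (V.mp ((C.ep.tens (QSh.Hom.id C.sh)).comp (QSh.lunitHom C.sh))) h
  have h2 := congrArg (V.mp (((QSh.Hom.id C.sh).tens C.ep).comp (QSh.runitHom C.sh))) h
  rw [← V.mp_comp, C.De_ep1, V.mp_id] at h1
  rw [← V.mp_comp, C.De_ep2, V.mp_id] at h2
  simp only [map_add, map_smul, V.mp_comp, V.bx_nat, V.mp_id, hs, V.ep_de, LinearMap.zero_apply,
    map_zero, smul_zero, add_zero, V.bx_lunit, V.bx_runit] at h1 h2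
  have h3 : (1 : R) • s + (0 : R) • V.de C = a • s + b • V.de C := by
    rw [one_smul, zero_smul, add_zero]
    exact h1
  have h4 : (1 : R) • s + (0 : R) • V.de C = a • s + c • V.de C := by
    rw [one_smul, zero_smul, add_zero]
    exact h2
  obtain ⟨ha, e, he⟩ := V.sd_inj hs h3
  obtain ⟨-, e', he'⟩ := V.sd_inj hs h4
  have hb : b • V.de C = 0 := by
    have : b = (-e) * V.rV C.gr := by linear_combination (-1 : R) * he
    rw [this, mul_smul, V.g_de, smul_zero]
  have hc : c • V.de C = 0 := by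
    have : c = (-e') * V.rV C.gr := by linear_combination (-1 : R) * he'
    rw [this, mul_smul, V.g_de, smul_zero]
  refine ⟨d, ?_⟩
  rw [h, ← ha, one_smul, ← map_smul, hb, map_zero, add_zero, ← LinearMap.smul_apply,
    ← map_smul V.bx, hc, map_zero, LinearMap.zero_apply, add_zero]

lemma De_de : V.mp C.De (V.de C) = V.bx (V.de C) s + V.bx s (V.de C) +
    (C.th : R) • V.bx (V.de C) (V.de C) := by
  have h := congrArg (fun a => V.mp a s) C.ep_io_De
  have e1 : V.mp (C.ep.comp C.io) s = V.de C := mp_ep_io C s hs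
  have e2 : ∀ v, V.mp C.T1 v = V.bx (V.de C) v := by
    intro v
    have h1 := congrArg (fun a => V.mp a (V.bx V.one v)) C.lunit_T1
    change V.mp _ _ = V.mp _ _ at h1
    rw [V.mp_comp, V.bx_lunit, V.bx_nat, V.mp_id] at h1
    exact h1
  have e3 : ∀ v, V.mp C.T2 v = V.bx v (V.de C) := by
    intro v
    have h1 := congrArg (fun a => V.mp a (V.bx v V.one)) C.runit_T2
    change V.mp _ _ = V.mp _ _ at h1
    rw [V.mp_comp, V.bx_runit, V.bx_nat, V.mp_id] at h1
    exact h1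
  change V.mp _ _ = V.mp _ _ at h
  rw [V.mp_comp, e1, V.mp_aHom, V.mp_aHom, V.mp_comp, V.mp_comp, e1, e2, e2, e3, V.mp_mulR',
    map_natCast] at h
  exact h

/-- Change of the section. -/
lemma De_chg {α : R} (h : V.mp C.De s = V.bx s s + α • V.bx (V.de C) (V.de C)) (e : R) :
    V.mp C.De (s + e • V.de C) = V.bx (s + e • V.de C) (s + e • V.de C) +
      (α + C.th * e - e ^ 2) • V.bx (V.de C) (V.de C) := by
  rw [map_add, map_smul, h, V.De_de hs]
  simp only [map_add, map_smul, LinearMap.add_apply, LinearMap.smul_apply]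
  module

end FF

end Pool.Agent.TH165.Tan
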