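import Mathlib
import Pool.Agent.TH165.Tan2.Str

set_option autoImplicit false
set_option linter.unusedVariables false

open CategoryTheory TensorProduct

namespace Pool.Agent.TH165.Tan

variable {R S T U : Type} [CommRing R] [CommRing S] [CommRing T] [CommRing U]

namespace FF

variable (V : FF R)

/-- The good sections of `V(A_n)`. -/
structure Good (s₀ : V.V (cocA 0).sh) (a : R) (n : ℕ) (s : V.V (cocA n).sh) : Prop where
  ep : V.mp (cocA n).ep s = V.one
  tr : V.mp (trA (Nat.zero_le n)) s = s₀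
  de : V.mp (cocA n).De s = V.bx s s + a • V.bx (V.de (cocA n)) (V.de (cocA n))

lemma tr_de {m n : ℕ} (h : m ≤ n) : V.mp (trA h) (V.de (cocA n)) = V.de (cocA m) := by
  unfold FF.de
  rw [← V.mp_comp, io_tr]

variable {V}

lemma tr_Dee {m n : ℕ} (h : m ≤ n) {s : V.V (cocA n).sh} {a : R}
    (hs : V.mp (cocA n).De s = V.bx s s + a • V.bx (V.de (cocA n)) (V.de (cocA n))) :
    V.mp (cocA m).De (V.mp (trA h) s) = V.bx (V.mp (trA h) s) (V.mp (trA h) s) +
      a • V.bx (V.de (cocA m)) (V.de (cocA m)) := by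
  rw [← V.mp_comp, tr_De, V.mp_comp, hs, map_add, map_smul, V.bx_nat, V.bx_nat, tr_de]

variable {s₀ : V.V (cocA 0).sh} {a : R} (h₀ : V.mp (cocA 0).ep s₀ = V.one)
  (h₀' : V.mp (cocA 0).De s₀ = V.bx s₀ s₀ + a • V.bx (V.de (cocA 0)) (V.de (cocA 0)))

include h₀ h₀'

lemma exists_good (n : ℕ) : ∃ s, V.Good s₀ a n s := by
  obtain ⟨s₁, hs₁⟩ := (V.ep_exact (cocA n)).1 V.one
  obtain ⟨e₁, he₁⟩ := (V.ep_exact (cocA 0)).2 (V.mp (trA (Nat.zero_le n)) s₁ - s₀) (by
    rw [map_sub, ← V.mp_comp, tr_ep, hs₁, h₀, sub_self])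
  -- adjust the section so that it lies above `s₀`
  let s := s₁ - e₁ • V.de (cocA n)
  have hs : V.mp (cocA n).ep s = V.one := by
    change V.mp (cocA n).ep (s₁ - e₁ • V.de (cocA n)) = V.one
    rw [map_sub, map_smul, V.ep_de, smul_zero, sub_zero, hs₁]
  have hs0 : V.mp (trA (Nat.zero_le n)) s = s₀ := by
    change V.mp (trA (Nat.zero_le n)) (s₁ - e₁ • V.de (cocA n)) = s₀
    rw [map_sub, map_smul, tr_de, ← he₁]
    abel
  obtain ⟨α, hα⟩ := V.exists_De hs
  have h1 := tr_Dee (Nat.zero_le n) hα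
  rw [hs0, h₀'] at h1
  have h2 : (α - a) • V.bx (V.de (cocA 0)) (V.de (cocA 0)) = 0 := by
    rw [sub_smul, sub_eq_zero]
    exact (add_left_cancel h1).symm
  obtain ⟨e', he'⟩ := V.dd_inj h₀ _ h2
  have hdvd : V.rV (cocA 0).gr ∣ sm n (α - a) := sm_dvd n ⟨e', he'⟩
  obtain ⟨f, hf⟩ := hdvd
  have htwo := V.two_eq
  refine ⟨s + sm n (α - a) • V.de (cocA n), ?_, ?_, ?_⟩
  · rw [map_add, map_smul, V.ep_de, smul_zero, add_zero, hs]
  · rw [map_add, map_smul, tr_de, hs0, hf, mul_comm, mul_smul, V.g_de, smul_zero, add_zero]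
  · rw [V.De_chg hs hα]
    congr 1
    have h3 := sm_sq htwo n (α - a)
    have h4 : (cocA n).th = 1 := rfl
    have h5 : V.rV (cocA n).gr = V.rV (cocA 0).gr ^ (2 ^ n) := by
      change V.rV (Polynomial.X ^ (2 ^ n)) = V.rV (Polynomial.X ^ (2 ^ 0)) ^ (2 ^ n)
      rw [← map_pow, ← pow_mul, pow_zero, one_mul]
    have h6 : α + ((cocA n).th : R) * sm n (α - a) - sm n (α - a) ^ 2 =
        a + e' ^ (2 ^ n) * V.rV (cocA n).gr := by
      rw [h4, Nat.cast_one, h5]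
      have h7 : (α - a) ^ (2 ^ n) = V.rV (cocA 0).gr ^ (2 ^ n) * e' ^ (2 ^ n) := by
        rw [← mul_pow, ← he']
      rw [h7] at h3
      linear_combination (-1 : R) * h3 + (sm n (α - a) - V.rV (cocA 0).gr ^ (2 ^ n) * e' ^ (2 ^ n)) * htwo
    have h8 : V.rV (cocA n).gr • V.bx (V.de (cocA n)) (V.de (cocA n)) = 0 := by
      rw [← LinearMap.smul_apply, ← map_smul, V.g_de, map_zero, LinearMap.zero_apply]
    rw [h6, add_smul, mul_smul, h8, smul_zero, add_zero]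

omit h₀' in
lemma good_unique (n : ℕ) {s s' : V.V (cocA n).sh} (h : V.Good s₀ a n s)
    (h' : V.Good s₀ a n s') : s' = s := by
  obtain ⟨e, he⟩ := (V.ep_exact (cocA n)).2 (s' - s) (by rw [map_sub, h.ep, h'.ep, sub_self])
  have hs' : s' = s + e • V.de (cocA n) := by rw [← he]; abel
  have h1 : e • V.de (cocA 0) = 0 := by
    have := congrArg (V.mp (trA (Nat.zero_le n))) he
    rw [map_sub, h.tr, h'.tr, sub_self, map_smul, tr_de] at this
    exact this.symm
  obtain ⟨e', he'⟩ := V.de_inj h₀ _ h1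
  have h2 := V.De_chg h.ep h.de e
  rw [← hs', h'.de] at h2
  have h3 : (a - (a + (cocA n).th * e - e ^ 2)) • V.bx (V.de (cocA n)) (V.de (cocA n)) = 0 := by
    rw [sub_smul, sub_eq_zero]
    exact add_left_cancel h2
  obtain ⟨f, hf⟩ := V.dd_inj h.ep _ h3
  have hth : ((cocA n).th : R) = 1 := Nat.cast_one
  rw [hth] at hf
  have h5 : V.rV (cocA n).gr = V.rV (cocA 0).gr ^ (2 ^ n) := by
    change V.rV (Polynomial.X ^ (2 ^ n)) = V.rV (Polynomial.X ^ (2 ^ 0)) ^ (2 ^ n)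
    rw [← map_pow, ← pow_mul, pow_zero, one_mul]
  have h6 : ∀ k : ℕ, ∃ g, e = e ^ (2 ^ k) + V.rV (cocA n).gr * g := by
    intro k
    induction k with
    | zero => exact ⟨0, by ring⟩
    | succ k ih =>
      obtain ⟨g, hg⟩ := ih
      have h7 : e = e ^ 2 - V.rV (cocA n).gr * f := by linear_combination (-1 : R) * hf
      have htwo := V.two_eq
      refine ⟨V.rV (cocA n).gr * g ^ 2 - f, ?_⟩
      have h8 : e ^ 2 = e ^ (2 ^ (k + 1)) + V.rV (cocA n).gr ^ 2 * g ^ 2 := by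
        have h9 : e ^ 2 = (e ^ (2 ^ k) + V.rV (cocA n).gr * g) ^ 2 := by rw [← hg]
        rw [h9, add_sq_two htwo, ← pow_mul, ← pow_succ]
        ring
      linear_combination h7 + h8
  obtain ⟨g, hg⟩ := h6 n
  have h7 : e = (e' ^ (2 ^ n) + g) * V.rV (cocA n).gr := by
    have h8 : e ^ (2 ^ n) = V.rV (cocA n).gr * e' ^ (2 ^ n) := by rw [h5, ← mul_pow, ← he']
    linear_combination hg + h8
  rw [hs', h7, mul_smul, V.g_de, smul_zero, add_zero]

omit h₀ h₀' in
/-- Every fibre functor has a point. -/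
theorem exists_pt (V : FF R) : Nonempty V.Pt := by
  obtain ⟨s₀, h₀⟩ := (V.ep_exact (cocA 0)).1 V.one
  obtain ⟨a, h₀'⟩ := V.exists_De h₀
  obtain ⟨r, hr⟩ := (V.ep_exact cocB).1 V.one
  obtain ⟨c, hc⟩ := V.exists_De hr
  choose s hs using fun n => exists_good h₀ h₀' n
  refine ⟨{ a := a, c := c, s := s, r := r, s_ep := fun n => (hs n).ep
            s_tr := fun {m n} h => ?_, s_De := fun n => (hs n).de, r_ep := hr, r_De := hc }⟩
  refine good_unique h₀ m (hs m) ⟨?_, ?_, ?_⟩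
  · rw [← V.mp_comp, tr_ep, (hs n).ep]
  · rw [← V.mp_comp, tr_tr, (hs n).tr]
  · exact tr_Dee h (hs n).de

end FF

end Pool.Agent.TH165.Tan
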