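import Mathlib
import Pool.Agent.TH165.Tan2.Pt

set_option autoImplicit false
set_option linter.unusedVariables false

open CategoryTheory TensorProduct

namespace Pool.Agent.TH165.Tan

section

variable {R S : Type} [CommRing R] [CommRing S] {M N N' : Type} [AddCommGroup M] [Module R M]
  [AddCommGroup N] [Module S N] [AddCommGroup N'] [Module S N']

lemma isExtL_congr {f f' : R →+* S} (e : f = f') {g : M →ₛₗ[f] N} {g' : M →ₛₗ[f'] N}
    (h : ∀ m, g' m = g m) (hg : IsExtL g) : IsExtL g' := by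
  subst e
  have : g' = g := LinearMap.ext h
  rw [this]
  exact hg

lemma isExtL_bij {f : R →+* S} {g : M →ₛₗ[f] N} (hg : IsExtL g) (e : N →ₗ[S] N')
    (he : Function.Bijective e) {g' : M →ₛₗ[f] N'} (h : ∀ m, g' m = e (g m)) : IsExtL g' := by
  intro P _ _ v
  obtain ⟨w, hw, hw'⟩ := hg P v
  let E := LinearEquiv.ofBijective e he
  refine ⟨w.comp E.symm.toLinearMap, fun m => ?_, fun w' hw₂ => ?_⟩
  · rw [h]
    have h1 : E.symm (e (g m)) = g m := E.symm_apply_apply (g m)
    change w (E.symm (e (g m))) = v m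
    rw [h1, hw]
  · have h1 := hw' (w'.comp e) (fun m => by
      change w' (e (g m)) = v m
      rw [← h, hw₂])
    refine LinearMap.ext fun n => ?_
    obtain ⟨n, rfl⟩ := he.surjective n
    have h2 : E.symm (e n) = n := E.symm_apply_apply n
    change w' (e n) = w (E.symm (e n))
    rw [h2, ← h1]
    rfl

end

variable {R S T U : Type} [CommRing R] [CommRing S] [CommRing T] [CommRing U]
  {φ φ' : R →+* S} {ψ : S →+* T} {x x' : Ob True R} {y y' : Ob True S} {z : Ob True T}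
  {M N P Q : QSh (XX True)}

namespace FF

variable {V : FF R} (A : V.Pt)

/-- The sections of `V(M)` given by elements over the base object. -/
noncomputable def thL (M : QSh (XX True)) : Sc M x0 →ₛₗ[V.rV] V.V M where
  toFun := th A
  map_add' := th_add A
  map_smul' := th_smul A

lemma thL_ap (m : Sc M x0) : thL A M m = th A m := rfl

lemma th_A1 (n : ℕ) : th A ((cocA n).e1 x0) = A.s n := by
  have hm : x0.pi ^ (2 ^ n) • dl (cocA n).sh ((cocA n).e1 x0) = 0 := by
    rw [dlA_e1]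
    exact (cocA n).g_e2 x0
  rw [← th_eq A n _ hm, ← ph_uniq n _ hm (((QSh.Hom.id (cocA n).sh).tens cocB.ep).comp
    (QSh.runitHom (cocA n).sh)) (by
      rw [ap_comp]
      unfold p1
      rw [ap_tens, Coc.ep_e1, ap_id, ap_runit1]), V.mp_comp, V.bx_nat, A.r_ep, V.mp_id,
    V.bx_runit]

lemma th_B1 : th A (cocB.e1 x0) = A.r := by
  have hm : x0.pi ^ (2 ^ 0) • dl cocB.sh (cocB.e1 x0) = 0 := by
    rw [dlB_e1, smul_zero]
  rw [← th_eq A 0 _ hm, ← ph_uniq 0 _ hm (((cocA 0).ep.tens (QSh.Hom.id cocB.sh)).comp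
    (QSh.lunitHom cocB.sh)) (by
      rw [ap_comp]
      unfold p1
      rw [ap_tens, Coc.ep_e1, ap_id, ap_lunit1]), V.mp_comp, V.bx_nat, A.s_ep, V.mp_id,
    V.bx_lunit]

lemma th_e2 (C : Coc) : th A (C.e2 x0) = V.de C := by
  have h := th_nat A C.io (o1 x0)
  rw [th_one, Coc.ap_io1] at h
  exact h.symm

lemma coc_isExt (C : Coc) {s : V.V C.sh} (hs : V.mp C.ep s = V.one)
    {g : Sc C.sh x0 →ₛₗ[V.rV] V.V C.sh} (h1 : g (C.e1 x0) = s) (h2 : g (C.e2 x0) = V.de C) :
    IsExtL g := by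
  intro P _ _ v
  let E := LinearEquiv.ofBijective (sf V s) (V.sf_bij hs)
  have hE : ∀ a b : R, E.symm (a • s + b • V.de C) = (a, qmk _ b) := by
    intro a b
    rw [LinearEquiv.symm_apply_eq]
    rfl
  have hv : V.rV C.gr • v (C.e2 x0) = 0 := by
    rw [← map_smulₛₗ]
    have h3 : C.gr • C.e2 x0 = 0 := by
      have h4 := C.g_e2 x0
      rwa [C.g_rho, x0_rho] at h4
    rw [h3, map_zero]
  let w : V.V C.sh →ₗ[R] P :=
    ((LinearMap.toSpanSingleton R P (v (C.e1 x0))).coprod (qlift (v (C.e2 x0)) hv)).comp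
      E.symm.toLinearMap
  have hw : ∀ a b : R, w (a • s + b • V.de C) = a • v (C.e1 x0) + b • v (C.e2 x0) := by
    intro a b
    change ((LinearMap.toSpanSingleton R P (v (C.e1 x0))).coprod (qlift (v (C.e2 x0)) hv))
      (E.symm (a • s + b • V.de C)) = _
    rw [hE]
    rfl
  refine ⟨w, fun m => ?_, fun w' hw' => ?_⟩
  · obtain ⟨a, b, rfl⟩ := C.exists_e m
    rw [map_add, map_smulₛₗ, map_smulₛₗ, h1, h2, hw, map_add, map_smulₛₗ, map_smulₛₗ]
  · refine LinearMap.ext fun n => ?_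
    obtain ⟨a, b, rfl⟩ := V.exists_sd hs n
    rw [hw, map_add, map_smul, map_smul, ← h1, ← h2, hw', hw']

lemma thA_isExt (n : ℕ) : IsExtL (thL A (cocA n).sh) :=
  coc_isExt (cocA n) (A.s_ep n) (th_A1 A n) (th_e2 A (cocA n))

lemma thB_isExt : IsExtL (thL A cocB.sh) :=
  coc_isExt cocB A.r_ep (th_B1 A) (th_e2 A cocB)

lemma DDA_zero (n : ℕ) (m : Sc (cocA n).sh x) : DD (cocA n).sh m = 0 := by
  obtain ⟨a, b, rfl⟩ := (cocA n).exists_e m
  rw [DD_add, DD_smul, DD_smul, DDA_e1, Coc.DD_e2, smul_zero, smul_zero, add_zero]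

lemma dlB_zero (m : Sc cocB.sh x) : dl cocB.sh m = 0 := by
  obtain ⟨a, b, rfl⟩ := cocB.exists_e m
  rw [dl_add, dl_smul, dl_smul, dlB_e1, Coc.dl_e2, smul_zero, smul_zero, add_zero]

lemma th_zero : th A (0 : Sc M x0) = 0 := map_zero (thL A M)

lemma th_AB (n : ℕ) (m : Sc (cocA n).sh x0) (m' : Sc cocB.sh x0) :
    th A (tp m m') = V.bx (th A m) (th A m') := by
  rw [th_tens, DDA_zero, dlB_zero, dl_zero, th_zero, th_zero]
  simp only [map_zero, LinearMap.zero_apply, smul_zero, add_zero]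

lemma thP_isExt (n : ℕ) : IsExtL (thL A (PP n)) := by
  refine isExtL_bij ((thA_isExt A n).tens (thB_isExt A))
    (TensorProduct.lift (V.bx (M := (cocA n).sh) (N := cocB.sh))) V.bx_bij fun m => ?_
  refine sc_tens_ind (P := fun m : Sc (PP n) x0 => thL A (PP n) m =
    TensorProduct.lift (V.bx (M := (cocA n).sh) (N := cocB.sh))
      (TensorProduct.map (thL A (cocA n).sh) (thL A cocB.sh) m)) ?_ ?_ ?_ m
  · rw [map_zero]
    exact ((congrArg _ (map_zero (TensorProduct.map (thL A (cocA n).sh)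
      (thL A cocB.sh)))).trans (map_zero _)).symm
  · intro a b ha hb
    rw [map_add, ha, hb, ← map_add]
    exact congrArg _ (map_add (TensorProduct.map (thL A (cocA n).sh)
      (thL A cocB.sh)) a b).symm
  · intro m m'
    exact th_AB A n m m'

end FF

end Pool.Agent.TH165.Tan
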