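import Mathlib
import Pool.Agent.TH165.Tan2.ThExt
import Pool.Agent.TH165.Tan.Colim

set_option autoImplicit false
set_option linter.unusedVariables false

open CategoryTheory CategoryTheory.Limits TensorProduct

namespace Pool.Agent.TH165.Tan

/-- Being an extension of scalars is stable under colimits. -/
lemma colim_isExt {T : Fib} (F : CTF (XX True) T) {R : Type} [CommRing R] (t : T.Obj R)
    (A : (FF.vs F t).Pt) {J : Type} [SmallCategory J] {K : J ⥤ QSh (XX True)} {c : Cocone K}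
    (hc : IsColimit c) (h : ∀ j, IsExtL (FF.thL A (K.obj j))) : IsExtL (FF.thL A c.pt) := by
  intro P _ _ v
  have h0 : IsColimit ((QSh.ev (X := XX True) x0).mapCocone c) := isColimitOfPreserves _ hc
  have h1 : IsColimit ((QSh.ev t).mapCocone (F.F.mapCocone c)) :=
    isColimitOfPreserves _ (isColimitOfPreserves _ hc)
  choose w hw hw' using fun j => h j P (v.comp (ap (c.ι.app j) x0))
  have hw2 : ∀ (j : J) (m : Sc (K.obj j) x0), w j (FF.th A m) = v (ap (c.ι.app j) x0 m) := hw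
  obtain ⟨W, hW⟩ := semi_desc (φ := RingHom.id R) h1 (Q := P) w (by
    intro i j f m
    have h2 : (w j).comp ((FF.vs F t).mp (K.map f)) = w i := by
      refine (h i).hom_ext fun m => ?_
      change w j ((FF.vs F t).mp (K.map f) (FF.th A m)) = w i (FF.th A m)
      rw [FF.th_nat, hw2, hw2]
      congr 1
      exact congrArg (fun a : QSh.Hom (K.obj i) c.pt => ap a x0 m) (c.w f)
    exact LinearMap.congr_fun h2 m)
  have hW2 : ∀ (j : J) (m : (FF.vs F t).V (K.obj j)), W ((FF.vs F t).mp (c.ι.app j) m) = w j m :=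
    hW
  refine ⟨W, fun m => ?_, fun W' hW' => ?_⟩
  · have h2 : (W : (FF.vs F t).V c.pt →ₗ[R] P).comp (FF.thL A c.pt) = v := by
      refine semi_ext h0 fun j m => ?_
      change W (FF.th A (ap (c.ι.app j) x0 m)) = v (ap (c.ι.app j) x0 m)
      rw [← FF.th_nat, hW2, hw2]
    exact LinearMap.congr_fun h2 m
  · refine semi_ext (φ := RingHom.id R) h1 fun j n => ?_
    refine Eq.trans ?_ (hW j n).symm
    have h2 : W'.comp ((FF.vs F t).mp (c.ι.app j)) = w j := by
      refine (h j).hom_ext fun m => ?_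
      change W' ((FF.vs F t).mp (c.ι.app j) (FF.th A m)) = w j (FF.th A m)
      rw [FF.th_nat, hw2]
      exact hW' _
    exact LinearMap.congr_fun h2 n

/-- Exact sequences of sections over the base object give colimits. -/
lemma coeq0 {N' N M : QSh (XX True)} (a b : N' ⟶ N) (c : N ⟶ M) (w : a ≫ c = b ≫ c)
    (hs : Function.Surjective (ap c x0))
    (hk : ∀ n : Sc N x0, ap c x0 n = 0 → ∃ m : Sc N' x0, n = ap a x0 m - ap b x0 m) :
    Nonempty (IsColimit (Cofork.ofπ c w)) := by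
  refine ⟨Cofork.IsColimit.mk' _ fun s => ?_⟩
  have hker : ∀ n : Sc N x0, ap c x0 n = 0 → ap s.π x0 n = 0 := by
    intro n hn
    obtain ⟨m, rfl⟩ := hk n hn
    have h1 : ap s.π x0 (ap a x0 m) = ap s.π x0 (ap b x0 m) :=
      congrArg (fun u : QSh.Hom N' s.pt => ap u x0 m) s.condition
    rw [map_sub, h1, sub_self]
  have hker' : ∀ n n' : Sc N x0, ap c x0 n = ap c x0 n' → ap s.π x0 n = ap s.π x0 n' := by
    intro n n' h
    rw [← sub_eq_zero, ← map_sub]
    exact hker _ (by rw [map_sub, h, sub_self])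
  choose σ hσ using hs
  let h : Sc M x0 →ₗ[R0] Sc s.pt x0 :=
    { toFun := fun m => ap s.π x0 (σ m)
      map_add' := fun m m' => by
        rw [← map_add]
        apply hker'
        rw [map_add, hσ, hσ, hσ]
      map_smul' := fun r m => by
        rw [RingHom.id_apply, ← map_smul]
        apply hker'
        rw [map_smul, hσ, hσ] }
  have hh : ∀ n : Sc N x0, h (ap c x0 n) = ap s.π x0 n := by
    intro n
    apply hker'
    rw [hσ]
  have hd : ∀ m, h (dl M m) = dl s.pt (h m) := by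
    intro m
    obtain ⟨n, rfl⟩ : ∃ n, ap c x0 n = m := ⟨_, hσ m⟩
    rw [← ap_dl, hh, hh, ap_dl]
  have hD : ∀ m, h (DD M m) = DD s.pt (h m) := by
    intro m
    obtain ⟨n, rfl⟩ : ∃ n, ap c x0 n = m := ⟨_, hσ m⟩
    rw [← ap_DD, hh, hh, ap_DD]
  refine ⟨homOf h hd hD, ?_, ?_⟩
  · refine hom_ext0 (M := N) (N := s.pt) fun n => ?_
    change ap (homOf h hd hD) x0 (ap c x0 n) = ap s.π x0 n
    rw [ap_homOf, hh]
  · intro m hm
    refine hom_ext0 (M := M) (N := s.pt) fun n => ?_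
    obtain ⟨n, rfl⟩ : ∃ n', ap c x0 n' = n := ⟨_, hσ n⟩
    rw [ap_homOf, hh]
    exact congrArg (fun u : QSh.Hom N s.pt => ap u x0 n) hm

/-- The index set of the generators. -/
structure Idx (M : QSh (XX True)) : Type where
  n : ℕ
  m : Sc M x0
  hm : x0.pi ^ (2 ^ n) • dl M m = 0

/-- The sum of the generators. -/
noncomputable def Gen {J : Type} (f : J → ℕ) : QSh (XX True) := ∐ fun j => PP (f j)

lemma gen_isExt {T : Fib} (F : CTF (XX True) T) {R : Type} [CommRing R] (t : T.Obj R)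
    (A : (FF.vs F t).Pt) {J : Type} (f : J → ℕ) : IsExtL (FF.thL A (Gen f)) :=
  colim_isExt F t A (coproductIsCoproduct fun j => PP (f j)) (fun j => FF.thP_isExt A (f j.as))

/-- The index set of the relations. -/
structure Idx2 {N M : QSh (XX True)} (c : QSh.Hom N M) : Type where
  n : ℕ
  m : Sc N x0
  m' : Sc N x0
  hm : x0.pi ^ (2 ^ n) • dl N m = 0
  hm' : x0.pi ^ (2 ^ n) • dl N m' = 0
  hc : ap c x0 m = ap c x0 m'

theorem th_isExt {T : Fib} (F : CTF (XX True) T) {R : Type} [CommRing R] (t : T.Obj R)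
    (A : (FF.vs F t).Pt) (M : QSh (XX True)) : IsExtL (FF.thL A M) := by
  let N : QSh (XX True) := Gen (fun j : Idx M => j.n)
  let c : N ⟶ M := Sigma.desc (fun j : Idx M => (ph j.n j.m j.hm : QSh.Hom (PP j.n) M))
  have hc : ∀ (j : Idx M) (m : Sc (PP j.n) x0), ap c x0 (ap (Sigma.ι (fun j : Idx M => PP j.n) j)
      x0 m) = ap (ph j.n j.m j.hm) x0 m := fun j m =>
    congrArg (fun u : QSh.Hom (PP j.n) M => ap u x0 m)
      (show Sigma.ι (fun j : Idx M => PP j.n) j ≫ c = ph j.n j.m j.hm from Sigma.ι_desc _ _)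
  let N' : QSh (XX True) := Gen (fun j : Idx2 c => j.n)
  let a : N' ⟶ N := Sigma.desc (fun j : Idx2 c => (ph j.n j.m j.hm : QSh.Hom (PP j.n) N))
  have ha : ∀ (j : Idx2 c) (m : Sc (PP j.n) x0), ap a x0 (ap (Sigma.ι (fun j : Idx2 c => PP j.n) j)
      x0 m) = ap (ph j.n j.m j.hm) x0 m := fun j m =>
    congrArg (fun u : QSh.Hom (PP j.n) N => ap u x0 m)
      (show Sigma.ι (fun j : Idx2 c => PP j.n) j ≫ a = ph j.n j.m j.hm from Sigma.ι_desc _ _)
  let b : N' ⟶ N := Sigma.desc (fun j : Idx2 c => (ph j.n j.m' j.hm' : QSh.Hom (PP j.n) N))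
  have hb : ∀ (j : Idx2 c) (m : Sc (PP j.n) x0), ap b x0 (ap (Sigma.ι (fun j : Idx2 c => PP j.n) j)
      x0 m) = ap (ph j.n j.m' j.hm') x0 m := fun j m =>
    congrArg (fun u : QSh.Hom (PP j.n) N => ap u x0 m)
      (show Sigma.ι (fun j : Idx2 c => PP j.n) j ≫ b = ph j.n j.m' j.hm' from Sigma.ι_desc _ _)
  have w : a ≫ c = b ≫ c := by
    refine Sigma.hom_ext _ _ fun j => ?_
    refine PHext ?_
    change ap c x0 (ap a x0 (ap (Sigma.ι (fun j : Idx2 c => PP j.n) j) x0 (p1 j.n x0))) =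
      ap c x0 (ap b x0 (ap (Sigma.ι (fun j : Idx2 c => PP j.n) j) x0 (p1 j.n x0)))
    rw [ha, hb, ph_p1, ph_p1, j.hc]
  have hs : Function.Surjective (ap c x0) := by
    intro m
    obtain ⟨n, hn⟩ := FF.exists_hm m
    refine ⟨ap (Sigma.ι (fun j : Idx M => PP j.n) ⟨n, m, hn⟩) x0 (p1 n x0), ?_⟩
    rw [hc, ph_p1]
  have hk : ∀ n : Sc N x0, ap c x0 n = 0 → ∃ m : Sc N' x0, n = ap a x0 m - ap b x0 m := by
    intro n hn
    obtain ⟨l, hl⟩ := FF.exists_hm n
    have h0 : x0.pi ^ (2 ^ l) • dl N (0 : Sc N x0) = 0 := by rw [dl_zero, smul_zero]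
    refine ⟨ap (Sigma.ι (fun j : Idx2 c => PP j.n) ⟨l, n, 0, hl, h0, by rw [hn, map_zero]⟩) x0
      (p1 l x0), ?_⟩
    rw [ha, hb, ph_p1, ph_p1, sub_zero]
  obtain ⟨h⟩ := coeq0 a b c w hs hk
  refine colim_isExt F t A h fun j => ?_
  cases j
  · exact gen_isExt F t A (fun j : Idx2 c => j.n)
  · exact gen_isExt F t A (fun j : Idx M => j.n)

end Pool.Agent.TH165.Tan
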