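import Mathlib
import Pool.Agent.TH165.Tan2.ThExt

set_option autoImplicit false
set_option linter.unusedVariables false

open CategoryTheory TensorProduct

namespace Pool.Agent.TH165.Tan

variable {R S T U : Type} [CommRing R] [CommRing S] [CommRing T] [CommRing U]
  {φ φ' : R →+* S} {ψ : S →+* T} {x x' : Ob True R} {y y' : Ob True S} {z : Ob True T}
  {p q s : S} {M N P Q : QSh (XX True)}

namespace FF

/-- The sections over `x` given by elements over the base object. -/
noncomputable def ta (x : Ob True R) (m : Sc M x0) : Sc M x := th (V := FF.sc x) (scPt x) m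

lemma ta_eq (x : Ob True R) (n : ℕ) (m : Sc M x0) (hm : x0.pi ^ (2 ^ n) • dl M m = 0) :
    ta x m = ap (ph n m hm) x (p1 n x) := (th_eq (V := FF.sc x) (scPt x) n m hm).symm

lemma ac_p1 (n : ℕ) (H : Mp φ x y 0 0 0) : ac (PP n) H (p1 n x) = p1 n y := by
  unfold p1
  have h1 : (cocA n).z y 0 0 0 = 0 := zero_z _
  have h2 : cocB.z y 0 0 0 = 0 := zero_z _
  rw [ac_tp, Coc.ac_e1, Coc.ac_e1, h1, h2, zero_smul, zero_smul, add_zero, add_zero]

/-- The change of generator. -/
noncomputable def La (M : QSh (XX True)) (y : Ob True S) (p q : S) (m : Sc M y) : Sc M y :=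
  m + p • dl M m + q • DD M m + (p * q) • dl M (DD M m)

/-- The change of generator, as a linear map. -/
noncomputable def LaL (M : QSh (XX True)) (y : Ob True S) (p q : S) : Sc M y →ₗ[S] Sc M y where
  toFun := La M y p q
  map_add' m n := by
    unfold La
    simp only [dl_add, DD_add, smul_add]
    abel
  map_smul' r m := by
    unfold La
    simp only [dl_smul, DD_smul, smul_add, RingHom.id_apply, smul_comm r]

lemma La_La (p q : S) (m : Sc M y) : La M y p q (La M y p q m) = m := by
  have t1 := sc_two M y (p • dl M m)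
  have t2 := sc_two M y (q • DD M m)
  have t3 := sc_two M y ((p * q) • dl M (DD M m))
  unfold La
  simp only [dl_add, DD_add, dl_smul, DD_smul, dl_dl, DD_DD, dl_zero, smul_zero,
    add_zero, ← dl_DD, smul_add, smul_smul, mul_comm q p]
  generalize p • dl M m = b at *
  generalize q • DD M m = c at *
  generalize (p * q) • dl M (DD M m) = d at *
  have : m + b + c + d + (b + d) + (c + d) + d = m + (b + b) + (c + c) + (d + d) + (d + d) := by
    abel
  rw [this, t1, t2, t3]
  simp only [add_zero]

lemma La_bij (p q : S) : Function.Bijective (LaL M y p q) :=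
  Function.bijective_iff_has_inverse.mpr ⟨La M y p q, La_La p q, La_La p q⟩

lemma La_nat (a : QSh.Hom M N) (p q : S) (m : Sc M y) :
    ap a y (La M y p q m) = La N y p q (ap a y m) := by
  unfold La
  rw [map_add, map_add, map_add, map_smul, map_smul, map_smul, ap_dl, ap_DD, ap_dl, ap_DD]

lemma La_p1 (n : ℕ) {f : R0 →+* S} (H : Mp f x0 y p q 0) :
    ac (PP n) H (p1 n x0) = La (PP n) y p q (p1 n y) := by
  have h1 : (cocA n).z y p q 0 = p := by
    change p + sm n (y.pi * 0) = p
    rw [mul_zero, sm_zero, add_zero]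
  have h2 : cocB.z y p q 0 = q := rfl
  unfold La
  rw [dl_p1, dlDD_p1, DD_p1]
  unfold p1
  rw [ac_tp, Coc.ac_e1, Coc.ac_e1, h1, h2, tp_add_left, tp_add_right, tp_add_right, tp_smul_left,
    tp_smul_right, tp_smul_left, tp_smul_right, smul_smul]
  abel

/-- The sections given by the base object generate the sections over all objects. -/
theorem ta_isExt (x : Ob True R) (M : QSh (XX True)) :
    IsExtL (thL (V := FF.sc x) (scPt x) M) := by
  let c := Classical.choice (exists_cov x)
  have hf : c.ι.comp (FF.sc x).rV = c.y.rho := by rw [sc_rV, c.i.comp_rho]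
  let k : Sc M x0 →ₛₗ[c.ι.comp (FF.sc x).rV] Sc M c.y :=
    { toFun := fun m => La M c.y c.p c.q (ac M c.u m)
      map_add' := fun m n => by rw [map_add]; exact map_add (LaL M c.y c.p c.q) _ _
      map_smul' := fun r m => by
        rw [map_smulₛₗ, hf]
        exact map_smul (LaL M c.y c.p c.q) _ _ }
  refine c.ext M (thL (V := FF.sc x) (scPt x) M) k (fun m => ?_) ?_
  · change La M c.y c.p c.q (ac M c.u m) = ac M c.i (ta x m)
    obtain ⟨n, hn⟩ := exists_hm m
    rw [ta_eq x n m hn, ← ap_nat, ac_p1, ← La_La (M := PP n) c.p c.q (p1 n c.y), ← La_p1 n c.u,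
      La_nat, ap_nat, ph_p1]
  · exact isExtL_congr hf.symm (fun m => rfl) (isExtL_bij (ac_isExt M c.u)
      (g' := (LaL M c.y c.p c.q).comp (ac M c.u)) (LaL M c.y c.p c.q) (La_bij c.p c.q)
        (fun m => rfl))

end FF

end Pool.Agent.TH165.Tan
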