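import Mathlib
import Pool.Agent.TH165.Tan2.Pres
import Pool.Agent.TH165.Tan2.Tau

set_option autoImplicit false
set_option linter.unusedVariables false

open CategoryTheory TensorProduct

namespace Pool.Agent.TH165.Tan

variable {R : Type} [CommRing R] {M N P Q : QSh (XX True)}

namespace FF

variable {V : FF R} (A : V.Pt)

/-- The object given by a point of a fibre functor. -/
noncomputable def pob : Ob True R where
  pi := V.pv
  eta := 0
  a := A.a
  c := A.c
  two := V.two_eq
  sq := by ring
  cond _ := rfl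

lemma pob_rV : (FF.sc (pob A)).rV = V.rV := by
  rw [sc_rV]
  refine rho_ext ?_
  exact (pob A).rho_pi

/-- The semilinear map over the ring map of the object. -/
noncomputable def thP (M : QSh (XX True)) : Sc M x0 →ₛₗ[(FF.sc (pob A)).rV] V.V M where
  toFun := th A
  map_add' := th_add A
  map_smul' r m := by rw [pob_rV, th_smul]

lemma exists_tt (M : QSh (XX True)) : ∃! w : Sc M (pob A) →ₗ[R] V.V M, ∀ m : Sc M x0,
    w (ta (pob A) m) = th A m := ta_isExt (pob A) M (V.V M) (thP A M)

/-- The comparison map. -/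
noncomputable def tt (M : QSh (XX True)) : Sc M (pob A) →ₗ[R] V.V M := (exists_tt A M).choose

lemma tt_ta (m : Sc M x0) : tt A M (ta (pob A) m) = th A m := (exists_tt A M).choose_spec.1 m

lemma ta_ext {W : Type} [AddCommGroup W] [Module R W] {x : Ob True R} {f g : Sc M x →ₗ[R] W}
    (h : ∀ m : Sc M x0, f (ta x m) = g (ta x m)) : f = g := (ta_isExt x M).hom_ext h

lemma tt_bij (h : IsExtL (thL A M)) : Function.Bijective (tt A M) := by
  have h1 : IsExtL (thP A M) := isExtL_congr (pob_rV A).symm (fun m => rfl) h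
  obtain ⟨k, hk2⟩ : ∃ k : V.V M →ₗ[R] Sc M (pob A), ∀ m : Sc M x0, k (th A m) = ta (pob A) m := by
    obtain ⟨k, hk, -⟩ := h1 (Sc M (pob A)) (thL (V := FF.sc (pob A)) (scPt (pob A)) M)
    exact ⟨k, hk⟩
  refine Function.bijective_iff_has_inverse.mpr ⟨k, fun m => ?_, fun m => ?_⟩
  · have h2 : k.comp (tt A M) = LinearMap.id := ta_ext fun m => by
      rw [LinearMap.comp_apply, tt_ta, hk2]
      rfl
    exact LinearMap.congr_fun h2 m
  · have h2 : (tt A M).comp k = LinearMap.id := h.hom_ext fun m => by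
      rw [LinearMap.comp_apply, thL_ap, hk2, tt_ta]
      rfl
    exact LinearMap.congr_fun h2 m

lemma tt_nat (a : QSh.Hom M N) (m : Sc M (pob A)) :
    V.mp a (tt A M m) = tt A N (ap a (pob A) m) := by
  have h : (V.mp a).comp (tt A M) = (tt A N).comp (ap a (pob A)) := ta_ext fun m => by
    rw [LinearMap.comp_apply, LinearMap.comp_apply, tt_ta, th_nat]
    have h1 : ap a (pob A) (ta (pob A) m) = ta (pob A) (ap a x0 m) :=
      th_nat (V := FF.sc (pob A)) (scPt (pob A)) a m
    rw [h1, tt_ta]
  exact LinearMap.congr_fun h m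

lemma tt_one : tt A OO (o1 (pob A)) = V.one := by
  have h1 : ta (pob A) (o1 x0) = o1 (pob A) := th_one (V := FF.sc (pob A)) (scPt (pob A))
  rw [← h1, tt_ta, th_one]

lemma ta_tens (x : Ob True R) (m : Sc M x0) (n : Sc N x0) : ta x (tp m n) =
    tp (ta x m) (ta x n) + x.a • tp (ta x (dl M m)) (ta x (dl N n)) +
      x.c • tp (ta x (DD M m)) (ta x (DD N n)) +
      (x.a * x.c) • tp (ta x (dl M (DD M m))) (ta x (dl N (DD N n))) :=
  th_tens (V := FF.sc x) (scPt x) m n

lemma ta_zero (x : Ob True R) : ta x (0 : Sc M x0) = 0 := th_zero (V := FF.sc x) (scPt x)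

/-- The defect of compatibility with tensor products. -/
noncomputable def er (m : Sc M x0) (n : Sc N x0) : V.V (M.tens N) :=
  tt A (M.tens N) (tp (ta (pob A) m) (ta (pob A) n)) - V.bx (th A m) (th A n)

lemma er_zero (n : Sc N x0) : er A (0 : Sc M x0) n = 0 := by
  unfold er
  rw [ta_zero, tp_zero_left, map_zero, th_zero, map_zero, LinearMap.zero_apply, sub_zero]

lemma er_rel (m : Sc M x0) (n : Sc N x0) : er A m n + A.a • er A (dl M m) (dl N n) +
    A.c • er A (DD M m) (DD N n) + (A.a * A.c) • er A (dl M (DD M m)) (dl N (DD N n)) = 0 := by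
  have h1 := congrArg (tt A (M.tens N)) (ta_tens (pob A) m n)
  rw [tt_ta, th_tens, map_add, map_add, map_add, map_smul, map_smul, map_smul] at h1
  have h2 := sub_eq_zero.mpr h1.symm
  rw [← h2]
  unfold er
  have h3 : (pob A).a = A.a := rfl
  have h4 : (pob A).c = A.c := rfl
  rw [h3, h4, smul_sub, smul_sub, smul_sub]
  abel

lemma er_eq (m : Sc M x0) (n : Sc N x0) : er A m n = 0 := by
  have h1 : er A (dl M (DD M m)) (dl N (DD N n)) = 0 := by
    have := er_rel A (dl M (DD M m)) (dl N (DD N n))
    simp only [dl_dl, ← dl_DD, DD_DD, dl_zero, er_zero, smul_zero, add_zero] at this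
    exact this
  have h2 : er A (dl M m) (dl N n) = 0 := by
    have := er_rel A (dl M m) (dl N n)
    simp only [dl_dl, ← dl_DD, er_zero, smul_zero, add_zero, h1] at this
    exact this
  have h3 : er A (DD M m) (DD N n) = 0 := by
    have := er_rel A (DD M m) (DD N n)
    simp only [DD_DD, er_zero, smul_zero, add_zero, h1, dl_zero] at this
    exact this
  have := er_rel A m n
  rw [h1, h2, h3, smul_zero, smul_zero, smul_zero, add_zero, add_zero, add_zero] at this
  exact this

lemma tt_tp (m : Sc M (pob A)) (n : Sc N (pob A)) :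
    tt A (M.tens N) (tp m n) = V.bx (tt A M m) (tt A N n) := by
  have h : (LinearMap.compr₂ (TensorProduct.mk R (Sc M (pob A)) (Sc N (pob A)))
      (tt A (M.tens N))) = V.bx.compl₁₂ (tt A M) (tt A N) := by
    refine ta_ext fun m => ta_ext fun n => ?_
    have h1 := sub_eq_zero.mp (er_eq A m n)
    refine h1.trans ?_
    rw [LinearMap.compl₁₂_apply, tt_ta, tt_ta]
  exact LinearMap.congr_fun (LinearMap.congr_fun h m) n

end FF

theorem XX_ESProp : (XX True).ESProp := by
  intro T F R _ t
  obtain ⟨A⟩ := FF.exists_pt (FF.vs F t)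
  refine ⟨FF.pob A, fun M => ⟨FF.tt A M⟩, fun M => FF.tt_bij A (th_isExt F t A M),
    fun M N a m => FF.tt_nat A a m, FF.tt_one A, fun M N m n => FF.tt_tp A m n⟩

end Pool.Agent.TH165.Tan
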