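import Mathlib
import Pool.Agent.TH165.Tan2.Tau

set_option autoImplicit false
set_option linter.unusedVariables false

open CategoryTheory TensorProduct

namespace Pool.Agent.TH165.Tan

variable {R S T U : Type} [CommRing R] [CommRing S] [CommRing T] [CommRing U]
  {φ φ' : R →+* S} {ψ : S →+* T} {x x' : Ob True R} {y y' : Ob True S} {z : Ob True T}
  {p q s : S} {M N P Q : QSh (XX True)}

/-- Natural monoidal semilinear families of maps. -/
structure NF (φ : R →+* S) (x : Ob True R) (y : Ob True S) where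
  t (M : QSh (XX True)) : Sc M x →ₛₗ[φ] Sc M y
  nat {M N : QSh (XX True)} (a : QSh.Hom M N) (m : Sc M x) : ap a y (t M m) = t N (ap a x m)
  one : t OO (o1 x) = o1 y
  tens {M N : QSh (XX True)} (m : Sc M x) (n : Sc N x) :
    t (M.tens N) (tp m n) = tp (t M m) (t N n)

/-- The family of maps given by a morphism. -/
noncomputable def Mp.nf (H : Mp φ x y p q s) : NF φ x y where
  t M := ac M H
  nat a m := ap_nat a H m
  one := ac_o1 H
  tens m n := ac_tp H m n

namespace NF

variable (B : NF φ x y)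

include B in
lemma pi_eq : φ x.pi = y.pi := by
  have h := B.nat (mulR Polynomial.X OO) (o1 x)
  rw [ap_mulR, B.one, ap_mulR, map_smulₛₗ, B.one] at h
  have h1 : x.rho Polynomial.X = x.pi := x.rho_pi
  have h2 : y.rho Polynomial.X = y.pi := y.rho_pi
  rw [h1, h2] at h
  have h3 : ∀ r : S, r • o1 y = (show Sc OO y from r) := fun r => mul_one r
  rw [h3, h3] at h
  exact h.symm

lemma t_e2 (C : Coc) : B.t C.sh (C.e2 x) = C.e2 y := by
  have h := B.nat C.io (o1 x)
  rw [B.one, Coc.ap_io1, Coc.ap_io1] at h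
  exact h.symm

lemma t_ep (C : Coc) : ap C.ep y (B.t C.sh (C.e1 x)) = o1 y := by
  rw [B.nat, Coc.ep_e1, B.one]

lemma t_De (C : Coc) : ap C.De y (B.t C.sh (C.e1 x)) =
    tp (B.t C.sh (C.e1 x)) (B.t C.sh (C.e1 x)) + φ (C.al x) • tp (C.e2 y) (C.e2 y) := by
  rw [B.nat, Coc.De_e1, map_add, map_smulₛₗ, B.tens, B.tens, B.t_e2]

lemma good (n : ℕ) : (FF.sc y).Good (B.t (cocA 0).sh ((cocA 0).e1 x)) (φ x.a) n
    (B.t (cocA n).sh ((cocA n).e1 x)) where
  ep := B.t_ep _
  tr := by
    refine (B.nat (trA (Nat.zero_le n)) _).trans ?_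
    rw [trA_e1]
  de := by
    rw [FF.sc_de]
    exact B.t_De (cocA n)

lemma exists_z (C : Coc) : ∃ z f : S, B.t C.sh (C.e1 x) = C.e1 y + z • C.e2 y ∧
    C.al y + C.th * z - z ^ 2 - φ (C.al x) = C.g y * f := by
  obtain ⟨a, z, h⟩ := C.exists_e (B.t C.sh (C.e1 x))
  have h1 := B.t_ep C
  rw [h, map_add, map_smul, map_smul, Coc.ep_e1, Coc.ep_e2, smul_zero, add_zero] at h1
  have ha : a = 1 := (mul_one a).symm.trans h1
  rw [ha, one_smul] at h
  have hs : (FF.sc y).mp C.ep (C.e1 y) = (FF.sc y).one := C.ep_e1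
  have hD : (FF.sc y).mp C.De (C.e1 y) = (FF.sc y).bx (M := C.sh) (N := C.sh) (C.e1 y) (C.e1 y) +
      C.al y • (FF.sc y).bx ((FF.sc y).de C) ((FF.sc y).de C) := by
    rw [FF.sc_de]
    exact C.De_e1
  have h2 := (FF.sc y).De_chg hs hD z
  have h3 := B.t_De C
  rw [h] at h3
  rw [FF.sc_de] at h2
  have h4 := h2.symm.trans h3
  have h5 : (C.al y + C.th * z - z ^ 2 - φ (C.al x)) •
      (FF.sc y).bx ((FF.sc y).de C) ((FF.sc y).de C) = 0 := by
    rw [sub_smul, sub_eq_zero, FF.sc_de]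
    exact add_left_cancel h4
  obtain ⟨f, hf⟩ := (FF.sc y).dd_inj hs _ h5
  refine ⟨z, f, h, ?_⟩
  rw [hf, FF.sc_rV, C.g_rho]

/-- The families are determined by two values. -/
lemma det {B B' : NF φ x y}
    (hA : B.t (cocA 0).sh ((cocA 0).e1 x) = B'.t (cocA 0).sh ((cocA 0).e1 x))
    (hB : B.t cocB.sh (cocB.e1 x) = B'.t cocB.sh (cocB.e1 x)) (M : QSh (XX True)) (m : Sc M x) :
    B.t M m = B'.t M m := by
  have h1 : ∀ n, B.t (cocA n).sh ((cocA n).e1 x) = B'.t (cocA n).sh ((cocA n).e1 x) := by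
    intro n
    have hb := B.good n
    rw [hA] at hb
    exact FF.good_unique (V := FF.sc y) (B'.t_ep (cocA 0)) n (B'.good n) hb
  refine ext_ind (P := fun m => B.t M m = B'.t M m) (FF.ta_isExt x M) ?_ ?_ ?_ ?_ m
  · exact (map_zero (B.t M)).trans (map_zero (B'.t M)).symm
  · intro a b ha hb
    exact (map_add (B.t M) a b).trans ((congrArg₂ (· + ·) ha hb).trans
      (map_add (B'.t M) a b).symm)
  · intro r a ha
    exact ((B.t M).map_smulₛₗ r a).trans ((congrArg (φ r • ·) ha).trans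
      ((B'.t M).map_smulₛₗ r a).symm)
  · intro m
    change B.t M (FF.ta x m) = B'.t M (FF.ta x m)
    obtain ⟨n, hn⟩ := FF.exists_hm m
    rw [FF.ta_eq x n m hn, ← B.nat, ← B'.nat]
    unfold p1
    rw [B.tens, B'.tens, h1, hB]

lemma exists_nf : ∃ (p q s : S) (H : Mp φ x y p q s), ∀ (M : QSh (XX True)) (m : Sc M x),
    ac M H m = B.t M m := by
  obtain ⟨p, s, hA, hA'⟩ := B.exists_z (cocA 0)
  obtain ⟨q, f, hB, hB'⟩ := B.exists_z cocB
  have H : Mp φ x y p q s := by
    refine ⟨B.pi_eq, ?_, ?_, ?_⟩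
    · rw [eta_zero, eta_zero, map_zero]
    · have h1 : (cocA 0).al y = y.a := rfl
      have h2 : (cocA 0).al x = x.a := rfl
      have h3 : ((cocA 0).th : S) = 1 := Nat.cast_one
      have h4 : (cocA 0).g y = y.pi := pow_one _
      rw [h1, h2, h3, h4] at hA'
      linear_combination (-1 : S) * hA' + (p - φ x.a) * y.two
    · have h1 : cocB.al y = y.c := rfl
      have h2 : cocB.al x = x.c := rfl
      have h3 : (cocB.th : S) = 0 := Nat.cast_zero
      have h4 : cocB.g y = 0 := rfl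
      rw [h1, h2, h3, h4] at hB'
      linear_combination (-1 : S) * hB' - φ x.c * y.two
  refine ⟨p, q, s, H, fun M m => ?_⟩
  refine det (B := H.nf) (B' := B) ?_ ?_ M m
  · change ac (cocA 0).sh H ((cocA 0).e1 x) = _
    have h1 : (cocA 0).z y p q s = p := add_zero p
    rw [Coc.ac_e1, hA, h1]
  · change ac cocB.sh H (cocB.e1 x) = _
    have h1 : cocB.z y p q s = q := rfl
    rw [Coc.ac_e1, hB, h1]

end NF

/-- Morphisms are determined by their action. -/
lemma hom_eq_of_ac {p' q' s' : S} (H : Mp φ x y p q s) (H' : Mp φ x y p' q' s')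
    (h : ∀ (M : QSh (XX True)) (m : Sc M x), ac M H m = ac M H' m) : H.hom = H'.hom := by
  have hA := h (cocA 0).sh ((cocA 0).e1 x)
  have hB := h cocB.sh (cocB.e1 x)
  rw [Coc.ac_e1, Coc.ac_e1] at hA hB
  have key : ∀ (C : Coc) (a b : S), C.e1 y + a • C.e2 y = C.e1 y + b • C.e2 y →
      ∃ e, a = b + C.g y * e := by
    intro C a b hab
    have hs : (FF.sc y).mp C.ep (C.e1 y) = (FF.sc y).one := C.ep_e1
    have h1 : (1 : S) • (show (FF.sc y).V C.sh from C.e1 y) + a • (FF.sc y).de C =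
        (1 : S) • (show (FF.sc y).V C.sh from C.e1 y) + b • (FF.sc y).de C := by
      rw [one_smul, FF.sc_de]
      exact hab
    obtain ⟨-, e, he⟩ := (FF.sc y).sd_inj hs h1
    refine ⟨e, ?_⟩
    rw [he, FF.sc_rV, C.g_rho]
  obtain ⟨w, hw⟩ := key _ _ _ hA
  obtain ⟨w', hw'⟩ := key _ _ _ hB
  have h1 : p = p' + y.pi * w := by
    have e1 : (cocA 0).z y p q s = p := add_zero p
    have e2 : (cocA 0).z y p' q' s' = p' := add_zero p'
    have e3 : (cocA 0).g y = y.pi := pow_one _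
    rw [e1, e2, e3] at hw
    exact hw
  have h2 : q = q' := by
    have e1 : cocB.z y p q s = q := rfl
    have e2 : cocB.z y p' q' s' = q' := rfl
    have e3 : cocB.g y = 0 := rfl
    rw [e1, e2, e3, zero_mul, add_zero] at hw'
    exact hw'
  have htwo := y.two
  -- the correction
  have h3 : y.pi * (y.pi * w ^ 2 + w + s + s') = 0 := by
    have e1 := H.a
    have e2 := H'.a
    rw [h1] at e1
    linear_combination e1 + e2 + (-(p' * y.pi * w) - p' ^ 2 - p' + φ x.a + y.a) * htwo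
  apply XHom.ext
  change y.cl p q s = y.cl p' q' s'
  rw [y.cl_eq]
  refine ⟨w + (y.pi * w ^ 2 + w + s + s'), ?_, ?_, ?_⟩
  · linear_combination (-1 : S) * h1 - h3 - (y.pi * w) * htwo
  · rw [h2, eta_zero]
    ring
  · have h4 : y.pi * (w + (y.pi * w ^ 2 + w + s + s')) ^ 2 = y.pi * w ^ 2 := by
      linear_combination (y.pi * w ^ 2 + w + s + s' + 2 * w) * h3
    rw [h4]
    linear_combination (-(y.pi * w ^ 2) - w - s) * htwo

theorem XX_FFProp : (XX True).FFProp := by
  intro R S _ _ φ x y θ hnat hone htens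
  change Ob True R at x
  change Ob True S at y
  let B : NF φ x y :=
    { t := fun M => (θ M).lin
      nat := fun {M N} a m => hnat M N a m
      one := hone
      tens := fun {M N} m n => htens M N m n }
  obtain ⟨p, q, s, H, hH⟩ := B.exists_nf
  refine ⟨H.hom, fun M => Slin.ext' fun m => hH M m, ?_⟩
  intro f hf
  change XHom φ x y at f
  obtain ⟨p', q', s', H', rfl⟩ := exists_mp f
  refine hom_eq_of_ac H' H fun M m => ?_
  rw [hH]
  exact congrArg (fun u => Slin.app u m) (hf M)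

end Pool.Agent.TH165.Tan
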