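import Mathlib
import Pool.Agent.TH165.Tan2.Ops2
import Pool.Agent.TH165.Tan.Omega
import Pool.Agent.TH165.Tan.Affine

set_option autoImplicit false
set_option linter.unusedVariables false

open CategoryTheory

namespace Pool.Agent.TH165.Tan

variable {t : Prop} {R S T U : Type} [CommRing R] [CommRing S] [CommRing T] [CommRing U]
  {φ φ' : R →+* S} {ψ : S →+* T} {x x' : Ob t R} {y y' : Ob t S} {z : Ob t T}

/-! ### The closed immersion -/

/-- The image of an object. -/
def Ob.toF (x : Ob True R) : Ob False R := ⟨x.pi, x.eta, x.a, x.c, x.two, x.sq, fun h => h.elim⟩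

/-- The closed immersion. -/
def XX.incl : Mor (XX True) (XX False) where
  obj {R} _ x := Ob.toF x
  map {R S _ _ φ x y} f := (⟨f.cls, f.pi_eq, f.eta_eq, f.lam_eq⟩ :
    XHom φ (Ob.toF x) (Ob.toF y))
  map_id _ := rfl
  map_comp _ _ := rfl

theorem XX.incl_isNilpotentClosedImmersion : XX.incl.IsNilpotentClosedImmersion := by
  refine ⟨?_, fun {R} _ x => Ideal.span {Ob.eta x}, 2, by norm_num, ?_, ?_, ?_⟩
  · intro R S _ _ φ x y
    constructor
    · intro f g h
      apply XHom.ext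
      exact congrArg (XHom.cls (x := Ob.toF x) (y := Ob.toF y)) h
    · intro f
      change XHom φ (Ob.toF x) (Ob.toF y) at f
      exact ⟨(⟨f.cls, f.pi_eq, f.eta_eq, f.lam_eq⟩ : XHom φ x y), rfl⟩
  · intro R S _ _ φ x y f
    rw [Ideal.map_span, Set.image_singleton, XHom.eta_eq f]
  · intro R _ x
    rw [Ideal.span_singleton_pow, Ob.sq x, Ideal.span_singleton_eq_bot]
  · intro R _ x
    rw [Ideal.span_singleton_eq_bot]
    constructor
    · rintro ⟨x₀, ⟨f⟩⟩
      have h1 := XHom.eta_eq f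
      have h2 : Ob.eta x₀ = 0 := Ob.cond x₀ trivial
      change Ob.eta x₀ = Ob.eta x at h1
      rw [← h1, h2]
    · intro h
      exact ⟨(⟨Ob.pi x, Ob.eta x, Ob.a x, Ob.c x, Ob.two x, Ob.sq x, fun _ => h⟩ : Ob True R),
        ⟨(XX False).id x⟩⟩

/-! ### The failure of faithfulness -/

/-- The morphism from an affine scheme given by an object. -/
def Ob.toMor (x : Ob t R) : Mor (Fib.spec R) (XX t) where
  obj f := x.pull f.hom
  map {S T _ _ φ f g} h := (⟨0, by
      change φ (f.hom x.pi) = g.hom x.pi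
      rw [← h.eq]; rfl, by
      change φ (f.hom x.eta) = g.hom x.eta
      rw [← h.eq]; rfl, by
      have t2 := (x.pull g.hom).two
      rw [map_zero]
      change 0 = (φ (f.hom x.a) + g.hom x.a, φ (f.hom x.c) + g.hom x.c)
      rw [← h.eq]
      have h1 : φ (f.hom x.a) + (φ.comp f.hom) x.a = 0 := add_self_two t2 _
      have h2 : φ (f.hom x.c) + (φ.comp f.hom) x.c = 0 := add_self_two t2 _
      rw [h1, h2]
      rfl⟩ : XHom φ (x.pull f.hom) (x.pull g.hom))
  map_id _ := rfl
  map_comp {R S T _ _ _ φ ψ f g k} a b := by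
    apply XHom.ext
    change 0 = Ob.gm ψ _ _ 0 + 0
    rw [map_zero, zero_add]

/-- The automorphism. -/
def Ob.aut (x : Ob t R) (ρ : R) (h : ρ * ρ = 0) : x.toMor ⟶ x.toMor where
  app {S} _ f := (⟨(x.pull f.hom).cl 0 (f.hom ρ) 0, rfl, rfl, by
      have t2 := (x.pull f.hom).two
      have h' := congrArg f.hom h
      rw [map_mul, map_zero] at h'
      rw [Ob.lam_cl]
      refine Prod.ext ?_ ?_
      · change 0 ^ 2 + 0 + (x.pull f.hom).pi * 0 = f.hom x.a + f.hom x.a
        linear_combination (- f.hom x.a) * t2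
      · change (f.hom ρ) ^ 2 = f.hom x.c + f.hom x.c
        linear_combination (- f.hom x.c) * t2 + h'⟩ :
      XHom (RingHom.id S) (x.pull f.hom) (x.pull f.hom))
  naturality {S T _ _ φ f g} a := by
    apply XHom.ext
    change Ob.gm (x := x.pull g.hom) (y := x.pull g.hom) (RingHom.id T) _ _ 0 +
      (x.pull g.hom).cl 0 (g.hom ρ) 0 =
      Ob.gm (x := x.pull f.hom) (y := x.pull g.hom) φ _ _ ((x.pull f.hom).cl 0 (f.hom ρ) 0) + 0
    rw [map_zero, zero_add, add_zero, Ob.gm_cl, map_zero]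
    have h1 : φ (f.hom ρ) = g.hom ρ := by
      rw [← a.eq]; rfl
    rw [h1]

/-- An element of `R` with the properties which make the automorphism act trivially. -/
def IsDivT (π δ : R) : Prop := π * δ = 0 ∧ ∀ n : ℕ, ∃ d : R, δ = d * π ^ n

lemma IsDivT.map {π δ : R} (h : IsDivT π δ) (φ : R →+* S) : IsDivT (φ π) (φ δ) := by
  refine ⟨by rw [← map_mul, h.1, map_zero], fun n => ?_⟩
  obtain ⟨d, hd⟩ := h.2 n
  exact ⟨φ d, by rw [hd, map_mul, map_pow]⟩

lemma act_trivial (M : QSh (XX t)) {δ : R} (hδ : IsDivT x.pi δ) (H : Mp (RingHom.id R) x x 0 (x.eta * δ) 0)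
    (m : Sc M x) : ac M H m = m := by
  have hsq : x.eta * δ * (x.eta * δ) = 0 := by
    linear_combination δ ^ 2 * x.sq
  rw [ac_rho M (mpId x) _ hsq H, ac_id, ac_id]
  obtain ⟨n, hn⟩ := exists_tor M m
  obtain ⟨d, hd⟩ := hδ.2 n
  have h1 : (x.eta * δ) • DD M m = d • (x.pi ^ n • (x.eta • DD M m)) := by
    rw [smul_smul, smul_smul, hd]
    congr 1
    ring
  have h2 : x.pi ^ n • (x.eta • DD M m) = x.pi ^ n • (x.pi • dl M m) := by
    rw [smul_sub] at hn
    exact (sub_eq_zero.mp hn).symm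
  have h3 : d * (x.pi ^ n * x.pi) = 0 := by
    have := hδ.1
    rw [hd] at this
    linear_combination this
  rw [← mul_assoc] at h3
  rw [h1, h2, smul_smul, smul_smul, h3, zero_smul, add_zero]

theorem omega_XX_not_isEquivalence (x : Ob t R) {δ : R} (hδ : IsDivT x.pi δ)
    (h : x.eta * δ ≠ 0) : ¬ (omega (XX t) (Fib.spec R)).IsEquivalence := by
  intro hE
  have hsq : x.eta * δ * (x.eta * δ) = 0 := by
    linear_combination δ ^ 2 * x.sq
  have key : (omega (XX t) (Fib.spec R)).map (x.aut _ hsq) =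
      (omega (XX t) (Fib.spec R)).map (𝟙 x.toMor) := by
    rw [CategoryTheory.Functor.map_id]
    refine CTF.Hom.ext (NatTrans.ext (funext fun M => QSh.hom_ext _ _ fun {S} _ f m => ?_))
    have H : Mp (RingHom.id S) (x.pull f.hom) (x.pull f.hom) 0
        ((x.pull f.hom).eta * f.hom δ) 0 := by
      refine ⟨rfl, rfl, (mpId _).a, ?_⟩
      have h' := congrArg f.hom hsq
      have h2 : (x.pull f.hom).eta = f.hom x.eta := rfl
      rw [map_mul, map_mul, map_zero, ← h2] at h'
      linear_combination h' + (mpId (x.pull f.hom)).c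
    have h1 := act_trivial M (x := x.pull f.hom) (hδ.map f.hom) H m
    have h2 : Mor2.app (x.aut _ hsq) f = H.hom := by
      apply XHom.ext
      change (x.pull f.hom).cl 0 (f.hom (x.eta * δ)) 0 = (x.pull f.hom).cl 0 (f.hom x.eta * f.hom δ) 0
      rw [map_mul]
    have h3 : (M.res (X := XX t) (Mor2.app (x.aut _ hsq) f)).app m = m := by
      rw [h2]
      exact h1
    exact h3
  have key2 := (omega (XX t) (Fib.spec R)).map_injective key
  have key3 : XHom.cls (Mor2.app (x.aut _ hsq) (⟨RingHom.id R, trivial⟩ : (Fib.spec R).Obj R)) = 0 :=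
    congrArg (fun a : x.toMor ⟶ x.toMor =>
      XHom.cls (Mor2.app a (⟨RingHom.id R, trivial⟩ : (Fib.spec R).Obj R))) key2
  have key4 : x.cl 0 (x.eta * δ) 0 = 0 := key3
  rw [x.cl_eq_zero] at key4
  obtain ⟨w, w1, w2, w3⟩ := key4
  have hw : w = 0 := by linear_combination (-1 : R) * w3 + w * w1
  rw [hw, mul_zero] at w2
  exact h w2

/-! ### The ring -/

/-- The ideal of sequences divisible by high powers. -/
noncomputable def seqIdeal : Ideal (ℕ → Polynomial (ZMod 2)) where
  carrier := {f | ∃ n₀ : ℕ, ∀ n ≥ n₀, (Polynomial.X : Polynomial (ZMod 2)) ^ (n + 1) ∣ f n}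
  zero_mem' := ⟨0, fun n _ => dvd_zero _⟩
  add_mem' := by
    rintro f g ⟨n, hn⟩ ⟨m, hm⟩
    refine ⟨max n m, fun k hk => dvd_add (hn k (le_trans (le_max_left _ _) hk))
      (hm k (le_trans (le_max_right _ _) hk))⟩
  smul_mem' := by
    rintro c f ⟨n, hn⟩
    exact ⟨n, fun k hk => Dvd.dvd.mul_left (hn k hk) _⟩

/-- The ring of sequences. -/
abbrev Sq : Type := (ℕ → Polynomial (ZMod 2)) ⧸ seqIdeal

lemma Sq_two : (2 : Sq) = 0 := by
  have h : (2 : ℕ → Polynomial (ZMod 2)) = 0 := by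
    funext n
    have : (2 : Polynomial (ZMod 2)) = 0 := by
      have h2 : (2 : ZMod 2) = 0 := rfl
      rw [← map_ofNat (Polynomial.C : ZMod 2 →+* Polynomial (ZMod 2)) 2, h2, map_zero]
    exact this
  rw [← map_ofNat (Ideal.Quotient.mk seqIdeal) 2, h, map_zero]

/-- The element `π`. -/
noncomputable def sqPi : Sq :=
  Ideal.Quotient.mk seqIdeal (fun _ => (Polynomial.X : Polynomial (ZMod 2)))

/-- The element `δ`. -/
noncomputable def sqDel : Sq :=
  Ideal.Quotient.mk seqIdeal (fun n => (Polynomial.X : Polynomial (ZMod 2)) ^ n)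

lemma sqDel_isDivT : IsDivT sqPi sqDel := by
  constructor
  · unfold sqPi sqDel
    rw [← map_mul, Ideal.Quotient.eq_zero_iff_mem]
    refine ⟨0, fun n _ => ?_⟩
    change (Polynomial.X : Polynomial (ZMod 2)) ^ (n + 1) ∣ Polynomial.X * Polynomial.X ^ n
    rw [pow_succ']
  · intro k
    refine ⟨Ideal.Quotient.mk seqIdeal (fun n => (Polynomial.X : Polynomial (ZMod 2)) ^ (n - k)),
      ?_⟩
    unfold sqPi sqDel
    rw [← map_pow, ← map_mul, Ideal.Quotient.eq]
    refine ⟨k, fun n hn => ?_⟩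
    change (Polynomial.X : Polynomial (ZMod 2)) ^ (n + 1) ∣
      Polynomial.X ^ n - Polynomial.X ^ (n - k) * Polynomial.X ^ k
    rw [← pow_add, Nat.sub_add_cancel hn, sub_self]
    exact dvd_zero _

lemma sqDel_ne : sqDel ≠ 0 := by
  unfold sqDel
  rw [Ne, Ideal.Quotient.eq_zero_iff_mem]
  rintro ⟨n₀, h⟩
  have h1 : (Polynomial.X : Polynomial (ZMod 2)) ^ (n₀ + 1) ∣ Polynomial.X ^ n₀ := h n₀ le_rfl
  have h2 := (pow_dvd_pow_iff Polynomial.X_ne_zero Polynomial.not_isUnit_X).mp h1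
  omega

/-- The object over the ring. -/
noncomputable def sqOb : Ob False (Dn Sq) where
  pi := algebraMap Sq (Dn Sq) sqPi
  eta := eps Sq
  a := 0
  c := 0
  two := by rw [← map_ofNat (algebraMap Sq (Dn Sq)) 2, Sq_two, map_zero]
  sq := by rw [pow_two, eps_sq]
  cond h := h.elim

theorem omega_XX_false : ¬ (omega (XX False) (Fib.spec (Dn Sq))).IsEquivalence := by
  refine omega_XX_not_isEquivalence sqOb (δ := algebraMap Sq (Dn Sq) sqDel)
    (sqDel_isDivT.map _) ?_
  intro h
  apply sqDel_ne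
  have h1 := congrArg QuadraticAlgebra.im h
  change (eps Sq * algebraMap Sq (Dn Sq) sqDel).im = 0 at h1
  unfold eps at h1
  simpa [QuadraticAlgebra.omega] using h1

end Pool.Agent.TH165.Tan
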