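import Mathlib
import Pool.Agent.TH165.Tan2.H1
import Pool.Agent.TH165.Tan2.XX
import Pool.Agent.TH165.Tan.Stack

set_option autoImplicit false
set_option linter.unusedVariables false

open CategoryTheory

namespace Pool.Agent.TH165.Tan

variable {t : Prop} {R S T U : Type} [CommRing R] [CommRing S] [CommRing T] [CommRing U]

lemma two_map (h2 : (2 : R) = 0) (φ : R →+* S) : (2 : S) = 0 := by
  rw [← map_ofNat φ 2, h2, map_zero]

lemma w_zero {π w : R} (h1 : π * w = 0) (h2 : π * w ^ 2 + w = 0) : w = 0 := by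
  linear_combination h2 - w * h1

lemma w_unique (htwo : (2 : R) = 0) {π w w' : R} (h1 : π * w = π * w')
    (h2 : π * w ^ 2 + w = π * w' ^ 2 + w') : w = w' := by
  have h3 : w + w' = 0 := by
    refine w_zero (π := π) ?_ ?_
    · linear_combination h1 + (π * w') * htwo
    · linear_combination h2 + (π * w * w' + π * w' ^ 2 + w') * htwo
  linear_combination h3 - w' * htwo

/-- Compatible families of classes glue. -/
theorem G_glue {𝒰 : Sv R} (h𝒰 : 𝒰.Covers) (htwo : (2 : R) = 0) (π η : R)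
    (p q s : ∀ (S : Type) [CommRing S] (φ : R →+* S), 𝒰.mem φ → S)
    (hc : ∀ (S T : Type) [CommRing S] [CommRing T] (φ : R →+* S) (ψ : S →+* T) (h : 𝒰.mem φ)
      (h' : 𝒰.mem (ψ.comp φ)), ∃ w : T,
        p T (ψ.comp φ) h' = ψ (p S φ h) + ψ (φ π) * w ∧
        q T (ψ.comp φ) h' = ψ (q S φ h) + ψ (φ η) * w ∧
        s T (ψ.comp φ) h' = ψ (s S φ h) + ψ (φ π) * w ^ 2 + w) :
    ∃ p₀ q₀ s₀ : R, ∀ (S : Type) [CommRing S] (φ : R →+* S) (h : 𝒰.mem φ), ∃ w : S,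
      p S φ h = φ p₀ + φ π * w ∧ q S φ h = φ q₀ + φ η * w ∧
      s S φ h = φ s₀ + φ π * w ^ 2 + w := by
  choose w hp hq hs using hc
  obtain ⟨r, hr⟩ := h𝒰.h1 (fun S T _ _ φ ψ h => w S T φ ψ h (𝒰.comp_mem _ _ h)) (by
    intro S T U _ _ _ φ ψ χ h h'
    have t2 : (2 : U) = 0 := two_map htwo (χ.comp (ψ.comp φ))
    have h'' := 𝒰.comp_mem _ (χ.comp ψ) h
    have p1 := hp S U φ (χ.comp ψ) h h''
    have p2 := hp T U (ψ.comp φ) χ h' h''
    have p3 := congrArg χ (hp S T φ ψ h h')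
    have s1 := hs S U φ (χ.comp ψ) h h''
    have s2 := hs T U (ψ.comp φ) χ h' h''
    have s3 := congrArg χ (hs S T φ ψ h h')
    simp only [map_add, map_mul, map_pow, RingHom.comp_apply] at p1 p2 p3 s1 s2 s3
    have p4 := p1.symm.trans p2
    have s4 := s1.symm.trans s2
    rw [p3] at p4
    rw [s3] at s4
    refine w_unique (π := χ (ψ (φ π))) t2 ?_ ?_
    · linear_combination p4
    · linear_combination s4 -
        (χ (ψ (φ π)) * χ (w S T φ ψ h h') * w T U (ψ.comp φ) χ h' h'') * t2)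
  have hw : ∀ (S T : Type) [CommRing S] [CommRing T] (φ : R →+* S) (ψ : S →+* T) (h : 𝒰.mem φ)
      (h' : 𝒰.mem (ψ.comp φ)), w S T φ ψ h h' = r T (ψ.comp φ) h' - ψ (r S φ h) := hr
  obtain ⟨p₀, hp₀, -⟩ := h𝒰.glue (fun S _ φ h => p S φ h - φ π * r S φ h) (by
    intro S T _ _ φ ψ h h'
    have e1 := hp S T φ ψ h h'
    have e2 := hw S T φ ψ h h'
    simp only [map_sub, map_mul, RingHom.comp_apply]
    linear_combination (-1 : T) * e1 - ψ (φ π) * e2)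
  obtain ⟨q₀, hq₀, -⟩ := h𝒰.glue (fun S _ φ h => q S φ h - φ η * r S φ h) (by
    intro S T _ _ φ ψ h h'
    have e1 := hq S T φ ψ h h'
    have e2 := hw S T φ ψ h h'
    simp only [map_sub, map_mul, RingHom.comp_apply]
    linear_combination (-1 : T) * e1 - ψ (φ η) * e2)
  obtain ⟨s₀, hs₀, -⟩ := h𝒰.glue (fun S _ φ h => s S φ h - φ π * r S φ h ^ 2 - r S φ h) (by
    intro S T _ _ φ ψ h h'
    have e1 := hs S T φ ψ h h'
    have e2 := hw S T φ ψ h h'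
    have t2 : (2 : T) = 0 := two_map htwo (ψ.comp φ)
    simp only [map_sub, map_mul, map_pow, RingHom.comp_apply]
    rw [e2] at e1
    linear_combination (-1 : T) * e1 + (ψ (φ π) * r T (ψ.comp φ) h' * ψ (r S φ h) -
      ψ (φ π) * ψ (r S φ h) ^ 2) * t2)
  refine ⟨p₀, q₀, s₀, fun S _ φ h => ⟨r S φ h, ?_, ?_, ?_⟩⟩
  · linear_combination (-1 : S) * hp₀ S φ h
  · linear_combination (-1 : S) * hq₀ S φ h
  · linear_combination (-1 : S) * hs₀ S φ h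

/-- The group of classes is separated. -/
theorem G_sep {𝒰 : Sv R} (h𝒰 : 𝒰.Covers) (htwo : (2 : R) = 0) (π η p q s : R)
    (hc : ∀ (S : Type) [CommRing S] (φ : R →+* S), 𝒰.mem φ → ∃ w : S,
        φ p = φ π * w ∧ φ q = φ η * w ∧ φ s = φ π * w ^ 2 + w) :
    ∃ w : R, p = π * w ∧ q = η * w ∧ s = π * w ^ 2 + w := by
  choose w hp hq hs using hc
  obtain ⟨w₀, hw₀, -⟩ := h𝒰.glue w (by
    intro S T _ _ φ ψ h h'
    have t2 : (2 : T) = 0 := two_map htwo (ψ.comp φ)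
    have p1 := hp T (ψ.comp φ) h'
    have p2 := congrArg ψ (hp S φ h)
    have s1 := hs T (ψ.comp φ) h'
    have s2 := congrArg ψ (hs S φ h)
    simp only [map_add, map_mul, map_pow, RingHom.comp_apply] at p1 p2 s1 s2
    exact w_unique (π := ψ (φ π)) t2 (p2.symm.trans p1) (s2.symm.trans s1))
  refine ⟨w₀, ?_, ?_, ?_⟩
  · refine h𝒰.ext fun S _ φ h => ?_
    rw [map_mul, hw₀ S φ h, ← hp S φ h]
  · refine h𝒰.ext fun S _ φ h => ?_
    rw [map_mul, hw₀ S φ h, ← hq S φ h]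
  · refine h𝒰.ext fun S _ φ h => ?_
    rw [map_add, map_mul, map_pow, hw₀ S φ h, ← hs S φ h]

/-- Cocycles of classes are coboundaries. -/
theorem G_h1 {𝒰 : Sv R} (h𝒰 : 𝒰.Covers) (htwo : (2 : R) = 0) (π η : R)
    (P Q Z : ∀ (S T : Type) [CommRing S] [CommRing T] (φ : R →+* S) (_ : S →+* T), 𝒰.mem φ → T)
    (hc : ∀ (S T U : Type) [CommRing S] [CommRing T] [CommRing U] (φ : R →+* S) (ψ : S →+* T)
      (χ : T →+* U) (h : 𝒰.mem φ) (h' : 𝒰.mem (ψ.comp φ)), ∃ w : U,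
        P S U φ (χ.comp ψ) h = χ (P S T φ ψ h) + P T U (ψ.comp φ) χ h' + χ (ψ (φ π)) * w ∧
        Q S U φ (χ.comp ψ) h = χ (Q S T φ ψ h) + Q T U (ψ.comp φ) χ h' + χ (ψ (φ η)) * w ∧
        Z S U φ (χ.comp ψ) h = χ (Z S T φ ψ h) + Z T U (ψ.comp φ) χ h' +
          χ (ψ (φ π)) * w ^ 2 + w) :
    ∃ p q s : ∀ (S : Type) [CommRing S] (φ : R →+* S), 𝒰.mem φ → S,
      ∀ (S T : Type) [CommRing S] [CommRing T] (φ : R →+* S) (ψ : S →+* T) (h : 𝒰.mem φ)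
        (h' : 𝒰.mem (ψ.comp φ)), ∃ w : T,
          p T (ψ.comp φ) h' = ψ (p S φ h) + P S T φ ψ h + ψ (φ π) * w ∧
          q T (ψ.comp φ) h' = ψ (q S φ h) + Q S T φ ψ h + ψ (φ η) * w ∧
          s T (ψ.comp φ) h' = ψ (s S φ h) + Z S T φ ψ h + ψ (φ π) * w ^ 2 + w := by
  choose w hP hQ hZ using hc
  obtain ⟨d, hd⟩ := h𝒰.h1mod π P (fun S T U _ _ _ φ ψ χ h h' => ⟨w S T U φ ψ χ h h', hP _ _ _ _ _ _ _ _⟩)
  choose e₁ he₁ using hd
  obtain ⟨y, hy⟩ := h𝒰.h1 (fun S T _ _ φ ψ h => P S T φ ψ h ^ 2 + P S T φ ψ h +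
      ψ (φ π) * Z S T φ ψ h) (by
    intro S T U _ _ _ φ ψ χ h h'
    have t2 : (2 : U) = 0 := two_map htwo (χ.comp (ψ.comp φ))
    have p1 := hP S T U φ ψ χ h h'
    have s1 := hZ S T U φ ψ χ h h'
    simp only [map_add, map_mul, map_pow, RingHom.comp_apply]
    rw [p1, s1]
    linear_combination (χ (P S T φ ψ h) * P T U (ψ.comp φ) χ h' +
      χ (P S T φ ψ h) * χ (ψ (φ π)) * w S T U φ ψ χ h h' +
      P T U (ψ.comp φ) χ h' * χ (ψ (φ π)) * w S T U φ ψ χ h h' +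
      χ (ψ (φ π)) ^ 2 * w S T U φ ψ χ h h' ^ 2 + χ (ψ (φ π)) * w S T U φ ψ χ h h') * t2)
  obtain ⟨a₀, ha₀⟩ := h𝒰.h0mod π (fun S _ φ h => d S φ h ^ 2 + d S φ h + y S φ h) (by
    intro S T _ _ φ ψ h h'
    have t2 : (2 : T) = 0 := two_map htwo (ψ.comp φ)
    have e1 := he₁ S T φ ψ h h'
    have e2 := hy S T φ ψ h h'
    refine ⟨ψ (φ π) * e₁ S T φ ψ h h' ^ 2 + e₁ S T φ ψ h h' + Z S T φ ψ h, ?_⟩
    have e3 : d T (ψ.comp φ) h' = P S T φ ψ h + ψ (d S φ h) - ψ (φ π) * e₁ S T φ ψ h h' := by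
      linear_combination (-1 : T) * e1
    have e4 : y T (ψ.comp φ) h' = P S T φ ψ h ^ 2 + P S T φ ψ h + ψ (φ π) * Z S T φ ψ h +
      ψ (y S φ h) := by
      linear_combination (-1 : T) * e2
    simp only [map_add, map_mul, map_pow]
    rw [e3, e4]
    linear_combination (P S T φ ψ h ^ 2 + P S T φ ψ h + P S T φ ψ h * ψ (d S φ h)
      - P S T φ ψ h * ψ (φ π) * e₁ S T φ ψ h h'
      - ψ (d S φ h) * ψ (φ π) * e₁ S T φ ψ h h' - ψ (φ π) * e₁ S T φ ψ h h') * t2)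
  choose e₂ he₂ using ha₀
  -- the parameter `w₁`
  let w₁ : ∀ (S T : Type) [CommRing S] [CommRing T] (φ : R →+* S) (_ : S →+* T), 𝒰.mem φ → T :=
    fun S T _ _ φ ψ h => ψ (φ π) * e₁ S T φ ψ h (𝒰.comp_mem _ _ h) ^ 2 +
      (Z S T φ ψ h + e₂ T (ψ.comp φ) (𝒰.comp_mem _ _ h) + ψ (e₂ S φ h))
  have hw₁ : ∀ (S T : Type) [CommRing S] [CommRing T] (φ : R →+* S) (ψ : S →+* T) (h : 𝒰.mem φ)
      (h' : 𝒰.mem (ψ.comp φ)),
      d T (ψ.comp φ) h' = ψ (d S φ h) + P S T φ ψ h + ψ (φ π) * w₁ S T φ ψ h ∧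
      e₂ T (ψ.comp φ) h' = ψ (e₂ S φ h) + Z S T φ ψ h + ψ (φ π) * w₁ S T φ ψ h ^ 2 +
        w₁ S T φ ψ h := by
    intro S T _ _ φ ψ h h'
    have t2 : (2 : T) = 0 := two_map htwo (ψ.comp φ)
    have e1 := he₁ S T φ ψ h h'
    have e2 := hy S T φ ψ h h'
    have e3 := congrArg ψ (he₂ S φ h)
    have e4 := he₂ T (ψ.comp φ) h'
    simp only [map_add, map_mul, map_pow, RingHom.comp_apply] at e3 e4
    have ed : d T (ψ.comp φ) h' = P S T φ ψ h + ψ (d S φ h) - ψ (φ π) * e₁ S T φ ψ h h' := by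
      linear_combination (-1 : T) * e1
    have ey : y T (ψ.comp φ) h' = P S T φ ψ h ^ 2 + P S T φ ψ h + ψ (φ π) * Z S T φ ψ h +
      ψ (y S φ h) := by
      linear_combination (-1 : T) * e2
    -- `π u = 0`
    have hu : ψ (φ π) * (ψ (φ π) * e₁ S T φ ψ h h' ^ 2 + e₁ S T φ ψ h h' +
        (Z S T φ ψ h + e₂ T (ψ.comp φ) h' + ψ (e₂ S φ h))) = 0 := by
      rw [ed, ey] at e4
      linear_combination (-1 : T) * e4 - e3 +
        (P S T φ ψ h ^ 2 + P S T φ ψ h + P S T φ ψ h * ψ (d S φ h)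
        - P S T φ ψ h * ψ (φ π) * e₁ S T φ ψ h h'
        - ψ (d S φ h) * ψ (φ π) * e₁ S T φ ψ h h'
        + ψ (φ π) ^ 2 * e₁ S T φ ψ h h' ^ 2 + ψ (d S φ h) + ψ (d S φ h) ^ 2
        + ψ (y S φ h) + ψ (φ π) * Z S T φ ψ h - ψ (φ a₀)) * t2
    constructor
    · linear_combination ed - hu
    · linear_combination (-(w₁ S T φ ψ h - e₁ S T φ ψ h h')) * hu -
        (ψ (φ π) * e₁ S T φ ψ h h' ^ 2 + Z S T φ ψ h + ψ (e₂ S φ h)) * t2
  obtain ⟨q, hq⟩ := h𝒰.h1 (fun S T _ _ φ ψ h => Q S T φ ψ h + ψ (φ η) * w₁ S T φ ψ h) (by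
    intro S T U _ _ _ φ ψ χ h h'
    have t2 : (2 : U) = 0 := two_map htwo (χ.comp (ψ.comp φ))
    have h'' := 𝒰.comp_mem _ (χ.comp ψ) h
    obtain ⟨a1, a2⟩ := hw₁ S U φ (χ.comp ψ) h h''
    obtain ⟨c1, c2⟩ := hw₁ T U (ψ.comp φ) χ h' h''
    obtain ⟨b1, b2⟩ := hw₁ S T φ ψ h h'
    have b1 := congrArg χ b1
    have b2 := congrArg χ b2
    have p1 := hP S T U φ ψ χ h h'
    have q1 := hQ S T U φ ψ χ h h'
    have s1 := hZ S T U φ ψ χ h h'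
    simp only [map_add, map_mul, map_pow, RingHom.comp_apply] at a1 a2 b1 b2 c1 c2 ⊢
    have d1 := a1.symm.trans c1
    have d2 := a2.symm.trans c2
    rw [b1, p1] at d1
    rw [b2, s1] at d2
    have key : w S T U φ ψ χ h h' = w₁ S U φ (χ.comp ψ) h + χ (w₁ S T φ ψ h) +
        w₁ T U (ψ.comp φ) χ h' := by
      refine w_unique (π := χ (ψ (φ π))) t2 ?_ ?_
      · linear_combination d1 - (χ (ψ (φ π)) * w₁ S U φ (χ.comp ψ) h) * t2
      · linear_combination d2 - (χ (ψ (φ π)) * w₁ S U φ (χ.comp ψ) h ^ 2 +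
          w₁ S U φ (χ.comp ψ) h + χ (ψ (φ π)) * (w₁ S U φ (χ.comp ψ) h * χ (w₁ S T φ ψ h) +
          w₁ S U φ (χ.comp ψ) h * w₁ T U (ψ.comp φ) χ h' +
          χ (w₁ S T φ ψ h) * w₁ T U (ψ.comp φ) χ h')) * t2
    rw [q1, key]
    linear_combination (χ (ψ (φ η)) * w₁ S U φ (χ.comp ψ) h) * t2)
  refine ⟨d, q, e₂, fun S T _ _ φ ψ h h' => ⟨w₁ S T φ ψ h, (hw₁ S T φ ψ h h').1, ?_,
    (hw₁ S T φ ψ h h').2⟩⟩
  linear_combination (-1 : T) * hq S T φ ψ h h'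

end Pool.Agent.TH165.Tan
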