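import Mathlib
import Pool.Agent.TH165.Tan2.Glue

set_option autoImplicit false
set_option linter.unusedVariables false

open CategoryTheory

namespace Pool.Agent.TH165.Tan

variable {t : Prop} {R S T U : Type} [CommRing R] [CommRing S] [CommRing T] [CommRing U]

theorem XX_glueHom (t : Prop) : (XX t).GlueHom := by
  intro R _ 𝒰 h𝒰 x y z a b hab
  change Ob t R at x
  change Ob t R at y
  change ∀ (S : Type) [CommRing S] (φ : R →+* S), 𝒰.mem φ → Ob t S at z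
  change ∀ (S : Type) [CommRing S] (φ : R →+* S) (h : 𝒰.mem φ), XHom φ x (z S φ h) at a
  change ∀ (S : Type) [CommRing S] (φ : R →+* S) (h : 𝒰.mem φ), XHom φ y (z S φ h) at b
  choose p q s hg using fun (S : Type) [CommRing S] (φ : R →+* S) (h : 𝒰.mem φ) =>
    (z S φ h).cl_surj ((a S φ h).cls + (b S φ h).cls)
  obtain ⟨p₀, q₀, s₀, h₀⟩ := G_glue h𝒰 y.two y.pi y.eta p q s (by
    intro S T _ _ φ ψ h h'
    obtain ⟨c, hc1, hc2⟩ := hab S T φ ψ h h'
    change XHom ψ (z S φ h) (z T (ψ.comp φ) h') at c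
    have e1 := congrArg XHom.cls hc1
    have e2 := congrArg XHom.cls hc2
    change Ob.gm ψ c.pi_eq c.eta_eq (a S φ h).cls + c.cls = (a T (ψ.comp φ) h').cls at e1
    change Ob.gm ψ c.pi_eq c.eta_eq (b S φ h).cls + c.cls = (b T (ψ.comp φ) h').cls at e2
    have e3 := hg T (ψ.comp φ) h'
    rw [← e1, ← e2] at e3
    have e4 : Ob.gm ψ c.pi_eq c.eta_eq ((z S φ h).cl (p S φ h) (q S φ h) (s S φ h)) =
      Ob.gm ψ c.pi_eq c.eta_eq (a S φ h).cls + Ob.gm ψ c.pi_eq c.eta_eq (b S φ h).cls := by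
      rw [hg S φ h, map_add]
    rw [Ob.gm_cl] at e4
    have e5 : c.cls + c.cls = 0 := by
      obtain ⟨u, v, w, h⟩ := (z T (ψ.comp φ) h').cl_surj c.cls
      rw [← h, Ob.cl_add, add_self_two (z T (ψ.comp φ) h').two,
        add_self_two (z T (ψ.comp φ) h').two, add_self_two (z T (ψ.comp φ) h').two]
      rfl
    have e6 := e4.trans ((by rw [add_add_add_comm, e5, add_zero] : _ = Ob.gm ψ c.pi_eq c.eta_eq (a S φ h).cls + c.cls +
      (Ob.gm ψ c.pi_eq c.eta_eq (b S φ h).cls + c.cls)).trans e3.symm)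
    rw [Ob.cl_eq] at e6
    have h1 : ψ (φ y.pi) = (z T (ψ.comp φ) h').pi := (b T (ψ.comp φ) h').pi_eq
    have h2 : ψ (φ y.eta) = (z T (ψ.comp φ) h').eta := (b T (ψ.comp φ) h').eta_eq
    rw [h1, h2]
    exact e6)
  have hz : ∀ (S : Type) [CommRing S] (φ : R →+* S) (h : 𝒰.mem φ),
      Ob.gm φ (b S φ h).pi_eq (b S φ h).eta_eq (y.cl p₀ q₀ s₀) + (b S φ h).cls =
        (a S φ h).cls := by
    intro S _ φ h
    rw [Ob.gm_cl]
    obtain ⟨w, w1, w2, w3⟩ := h₀ S φ h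
    have e1 : (z S φ h).cl (φ p₀) (φ q₀) (φ s₀) = (a S φ h).cls + (b S φ h).cls := by
      rw [← hg S φ h, Ob.cl_eq]
      refine ⟨w, ?_, ?_, ?_⟩
      · rw [w1, (b S φ h).pi_eq]
      · rw [w2, (b S φ h).eta_eq]
      · rw [w3, (b S φ h).pi_eq]
    rw [e1]
    have e5 : (b S φ h).cls + (b S φ h).cls = 0 := by
      obtain ⟨u, v, w, h'⟩ := (z S φ h).cl_surj (b S φ h).cls
      rw [← h', Ob.cl_add, add_self_two (z S φ h).two,
        add_self_two (z S φ h).two, add_self_two (z S φ h).two]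
      rfl
    rw [add_assoc, e5, add_zero]
  refine ⟨(⟨y.cl p₀ q₀ s₀, ?_, ?_, ?_⟩ : XHom (RingHom.id R) x y), ?_, ?_⟩
  · refine h𝒰.ext fun S _ φ h => ?_
    rw [RingHom.id_apply, (a S φ h).pi_eq, (b S φ h).pi_eq]
  · refine h𝒰.ext fun S _ φ h => ?_
    rw [RingHom.id_apply, (a S φ h).eta_eq, (b S φ h).eta_eq]
  · have key : ∀ (S : Type) [CommRing S] (φ : R →+* S) (h : 𝒰.mem φ),
        (φ (y.lam (y.cl p₀ q₀ s₀)).1, φ (y.lam (y.cl p₀ q₀ s₀)).2) =
        (φ x.a + φ y.a, φ x.c + φ y.c) := by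
      intro S _ φ h
      have e1 := hz S φ h
      have e2 := congrArg (z S φ h).lam e1
      rw [map_add, Ob.lam_gm, (a S φ h).lam_eq, (b S φ h).lam_eq] at e2
      have t2 := (z S φ h).two
      have e3 := congrArg Prod.fst e2
      have e4 := congrArg Prod.snd e2
      simp only [Prod.fst_add, Prod.snd_add] at e3 e4
      refine Prod.ext ?_ ?_
      · simp only
        linear_combination e3 - φ y.a * t2
      · simp only
        linear_combination e4 - φ y.c * t2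
    refine Prod.ext ?_ ?_
    · refine h𝒰.ext fun S _ φ h => ?_
      have := congrArg Prod.fst (key S φ h)
      simpa using this
    · refine h𝒰.ext fun S _ φ h => ?_
      have := congrArg Prod.snd (key S φ h)
      simpa using this
  · intro S _ φ h
    apply XHom.ext
    exact hz S φ h
  · intro f hf
    change XHom (RingHom.id R) x y at f
    obtain ⟨p, q, s, hp⟩ := y.cl_surj f.cls
    apply XHom.ext
    change f.cls = y.cl p₀ q₀ s₀
    rw [← hp, ← sub_eq_zero]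
    have e1 : y.cl p q s - y.cl p₀ q₀ s₀ = y.cl (p - p₀) (q - q₀) (s - s₀) := rfl
    rw [e1, y.cl_eq_zero]
    refine G_sep h𝒰 y.two y.pi y.eta _ _ _ fun S _ φ h => ?_
    have e2 := congrArg XHom.cls (hf S φ h)
    change Ob.gm φ (b S φ h).pi_eq (b S φ h).eta_eq f.cls + (b S φ h).cls = (a S φ h).cls at e2
    have e3 := e2.trans (hz S φ h).symm
    rw [add_left_inj, ← hp, ← sub_eq_zero, ← map_sub, e1, Ob.gm_cl, Ob.cl_eq_zero] at e3
    rw [(b S φ h).pi_eq, (b S φ h).eta_eq]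
    exact e3

theorem XX_glueObj (t : Prop) : (XX t).GlueObj := by
  intro R _ 𝒰 h𝒰 F
  -- the objects
  let X : ∀ (S : Type) [CommRing S] (φ : R →+* S), 𝒰.mem φ → Ob t S :=
    fun S _ φ h => F.obj ⟨φ, h⟩
  let m : ∀ (S T : Type) [CommRing S] [CommRing T] (φ : R →+* S) (ψ : S →+* T) (h : 𝒰.mem φ)
      (h' : 𝒰.mem (ψ.comp φ)), XHom ψ (X S φ h) (X T (ψ.comp φ) h') :=
    fun S T _ _ φ ψ h h' => F.map (𝒰.mor φ ψ h h')
  have hm : ∀ (S T U : Type) [CommRing S] [CommRing T] [CommRing U] (φ : R →+* S) (ψ : S →+* T)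
      (χ : T →+* U) (h : 𝒰.mem φ) (h' : 𝒰.mem (ψ.comp φ)) (h'' : 𝒰.mem (χ.comp (ψ.comp φ))),
      (m S U φ (χ.comp ψ) h h'').cls =
        Ob.gm χ (m T U (ψ.comp φ) χ h' h'').pi_eq (m T U (ψ.comp φ) χ h' h'').eta_eq
          (m S T φ ψ h h').cls + (m T U (ψ.comp φ) χ h' h'').cls := by
    intro S T U _ _ _ φ ψ χ h h' h''
    have := F.map_comp (𝒰.mor φ ψ h h') (𝒰.mor (ψ.comp φ) χ h' h'')
    exact congrArg XHom.cls this
  have htwo : (2 : R) = 0 := by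
    refine h𝒰.ext fun S _ φ h => ?_
    rw [map_ofNat, map_zero, (X S φ h).two]
  obtain ⟨π, hπ, -⟩ := h𝒰.glue (fun S _ φ h => (X S φ h).pi)
    (fun S T _ _ φ ψ h h' => (m S T φ ψ h h').pi_eq)
  obtain ⟨η, hη, -⟩ := h𝒰.glue (fun S _ φ h => (X S φ h).eta)
    (fun S T _ _ φ ψ h h' => (m S T φ ψ h h').eta_eq)
  choose P Q Z hPQZ using fun (S T : Type) [CommRing S] [CommRing T] (φ : R →+* S) (ψ : S →+* T)
    (h : 𝒰.mem φ) => (X T (ψ.comp φ) (𝒰.comp_mem _ _ h)).cl_surj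
      (m S T φ ψ h (𝒰.comp_mem _ _ h)).cls
  have hPQZ' : ∀ (S T : Type) [CommRing S] [CommRing T] (φ : R →+* S) (ψ : S →+* T)
      (h : 𝒰.mem φ) (h' : 𝒰.mem (ψ.comp φ)), (X T (ψ.comp φ) h').cl (P S T φ ψ h)
        (Q S T φ ψ h) (Z S T φ ψ h) = (m S T φ ψ h h').cls := fun S T _ _ φ ψ h h' =>
    hPQZ S T φ ψ h
  obtain ⟨p, q, s, hpqs⟩ := G_h1 h𝒰 htwo π η P Q Z (by
    intro S T U _ _ _ φ ψ χ h h'
    have h'' := 𝒰.comp_mem _ (χ.comp ψ) h
    have e1 := hm S T U φ ψ χ h h' h''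
    rw [← hPQZ' S T φ ψ h h', Ob.gm_cl, ← hPQZ' T U (ψ.comp φ) χ h' h'', Ob.cl_add] at e1
    have e2 := (e1.symm.trans (hPQZ' S U φ (χ.comp ψ) h h'').symm)
    have e3 := (Ob.cl_eq _ _ _ _ _ _ _).mp e2
    have h1 := hπ U (χ.comp (ψ.comp φ)) h''
    have h2 := hη U (χ.comp (ψ.comp φ)) h''
    simp only [RingHom.comp_apply] at h1 h2
    rw [h1, h2]
    exact e3)
  -- the parameters
  have hlam : ∀ (S T : Type) [CommRing S] [CommRing T] (φ : R →+* S) (ψ : S →+* T)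
      (h : 𝒰.mem φ) (h' : 𝒰.mem (ψ.comp φ)),
      P S T φ ψ h ^ 2 + P S T φ ψ h + (X T (ψ.comp φ) h').pi * Z S T φ ψ h =
        ψ (X S φ h).a + (X T (ψ.comp φ) h').a ∧
      Q S T φ ψ h ^ 2 = ψ (X S φ h).c + (X T (ψ.comp φ) h').c := by
    intro S T _ _ φ ψ h h'
    have e1 := (m S T φ ψ h h').lam_eq
    rw [← hPQZ' S T φ ψ h h', Ob.lam_cl] at e1
    exact ⟨congrArg Prod.fst e1, congrArg Prod.snd e1⟩
  obtain ⟨a, ha, -⟩ := h𝒰.glue (fun S _ φ h => (X S φ h).a + (p S φ h ^ 2 + p S φ h +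
      (X S φ h).pi * s S φ h)) (by
    intro S T _ _ φ ψ h h'
    have t2 := (X T (ψ.comp φ) h').two
    obtain ⟨w, w1, w2, w3⟩ := hpqs S T φ ψ h h'
    have e1 := (hlam S T φ ψ h h').1
    have e2 : ψ (X S φ h).pi = (X T (ψ.comp φ) h').pi := (m S T φ ψ h h').pi_eq
    rw [hπ S φ h, e2] at w1 w3
    simp only [map_add, map_mul, map_pow]
    rw [w1, w3, e2]
    linear_combination (-1 : T) * e1 + (P S T φ ψ h ^ 2 + P S T φ ψ h +
      (X T (ψ.comp φ) h').pi * Z S T φ ψ h - (X T (ψ.comp φ) h').a) * t2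
      - (P S T φ ψ h ^ 2 + P S T φ ψ h + (X T (ψ.comp φ) h').pi * Z S T φ ψ h +
        ψ (p S φ h) * P S T φ ψ h + ψ (p S φ h) * ((X T (ψ.comp φ) h').pi * w) +
        P S T φ ψ h * ((X T (ψ.comp φ) h').pi * w) + ((X T (ψ.comp φ) h').pi * w) ^ 2 +
        (X T (ψ.comp φ) h').pi * w) * t2)
  obtain ⟨c, hc, -⟩ := h𝒰.glue (fun S _ φ h => (X S φ h).c + q S φ h ^ 2) (by
    intro S T _ _ φ ψ h h'
    have t2 := (X T (ψ.comp φ) h').two
    have sq := (X T (ψ.comp φ) h').sq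
    obtain ⟨w, w1, w2, w3⟩ := hpqs S T φ ψ h h'
    have e1 := (hlam S T φ ψ h h').2
    have e2 : ψ (X S φ h).eta = (X T (ψ.comp φ) h').eta := (m S T φ ψ h h').eta_eq
    rw [hη S φ h, e2] at w2
    simp only [map_add, map_mul, map_pow]
    rw [w2]
    linear_combination (-1 : T) * e1 - w ^ 2 * sq + (Q S T φ ψ h ^ 2 - (X T (ψ.comp φ) h').c) * t2
      - (Q S T φ ψ h ^ 2 + ψ (q S φ h) * Q S T φ ψ h +
        ψ (q S φ h) * ((X T (ψ.comp φ) h').eta * w) +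
        Q S T φ ψ h * ((X T (ψ.comp φ) h').eta * w)) * t2)
  let x : Ob t R :=
    { pi := π
      eta := η
      a := a
      c := c
      two := htwo
      sq := by
        refine h𝒰.ext fun S _ φ h => ?_
        rw [map_pow, hη S φ h, (X S φ h).sq, map_zero]
      cond := by
        intro ht
        refine h𝒰.ext fun S _ φ h => ?_
        rw [hη S φ h, (X S φ h).cond ht, map_zero] }
  refine ⟨x, fun S _ φ h => (⟨(X S φ h).cl (p S φ h) (q S φ h) (s S φ h), hπ S φ h, hη S φ h,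
    ?_⟩ : XHom φ x (X S φ h)), ?_⟩
  · rw [Ob.lam_cl]
    have t2 := (X S φ h).two
    have e1 := ha S φ h
    have e2 := hc S φ h
    refine Prod.ext ?_ ?_
    · change _ = φ a + _
      rw [e1]
      linear_combination (-(X S φ h).a) * t2
    · change _ = φ c + _
      rw [e2]
      linear_combination (-(X S φ h).c) * t2
  · intro S T _ _ φ ψ h h'
    apply XHom.ext
    change Ob.gm ψ (m S T φ ψ h h').pi_eq (m S T φ ψ h h').eta_eq
      ((X S φ h).cl (p S φ h) (q S φ h) (s S φ h)) + (m S T φ ψ h h').cls =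
        (X T (ψ.comp φ) h').cl (p T (ψ.comp φ) h') (q T (ψ.comp φ) h') (s T (ψ.comp φ) h')
    rw [Ob.gm_cl, ← hPQZ' S T φ ψ h h', Ob.cl_add, Ob.cl_eq]
    obtain ⟨w, w1, w2, w3⟩ := hpqs S T φ ψ h h'
    have e1 : ψ (φ π) = (X T (ψ.comp φ) h').pi := hπ T (ψ.comp φ) h'
    have e2 : ψ (φ η) = (X T (ψ.comp φ) h').eta := hη T (ψ.comp φ) h'
    rw [e1] at w1 w3
    rw [e2] at w2
    exact ⟨w, w1, w2, w3⟩

theorem XX_isStack (t : Prop) : (XX t).IsStack :=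
  Fib.isStack_of_glue (XX_glueHom t) (XX_glueObj t)

end Pool.Agent.TH165.Tan
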