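import Mathlib
import Pool.Agent.TH165.Tan2.Kit1
import Pool.Agent.TH165.Tan2.XStack
import Pool.Agent.TH165.Tan.Affine

set_option autoImplicit false
set_option linter.unusedVariables false

open CategoryTheory

namespace Pool.Agent.TH165.Tan

variable {t : Prop} {A C R S T U : Type} [CommRing A] [CommRing C] [CommRing R] [CommRing S]
  [CommRing T] [CommRing U]

/-- The universal property of the universal object. -/
def IsUniv (u : Ob t A) : Prop :=
  ∀ (Q : Type) [CommRing Q] (π' η' a' c' : Q), (2 : Q) = 0 → η' ^ 2 = 0 → (t → η' = 0) →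
    ∃! α : A →+* Q, α u.pi = π' ∧ α u.eta = η' ∧ α u.a = a' ∧ α u.c = c'

section

variable {u : Ob t A} (hu : IsUniv u) (y : Ob t C)

/-- The points of the fibre product. -/
noncomputable def fpt (hu : IsUniv u) (y : Ob t C) (ψ : C →+* R) (p q s : R) :
    (XX t).FibPt u y R :=
  have h := (hu R (ψ y.pi) (ψ y.eta) (p ^ 2 + p + ψ y.pi * s + ψ y.a) (q ^ 2 + ψ y.c)
    (y.pull ψ).two (y.pull ψ).sq (y.pull ψ).cond).exists.choose_spec
  { fst := (hu R (ψ y.pi) (ψ y.eta) (p ^ 2 + p + ψ y.pi * s + ψ y.a) (q ^ 2 + ψ y.c)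
      (y.pull ψ).two (y.pull ψ).sq (y.pull ψ).cond).exists.choose
    snd := ψ
    iso := (⟨(y.pull ψ).cl p q s, h.1, h.2.1, by
      rw [h.2.2.1, h.2.2.2, Ob.lam_cl]
      have t2 := (y.pull ψ).two
      refine Prod.ext ?_ ?_
      · change p ^ 2 + p + ψ y.pi * s = p ^ 2 + p + ψ y.pi * s + ψ y.a + ψ y.a
        linear_combination (-ψ y.a) * t2
      · change q ^ 2 = q ^ 2 + ψ y.c + ψ y.c
        linear_combination (-ψ y.c) * t2⟩ : XHom _ u (y.pull ψ)) }

lemma fpt_ext (f g : (XX t).FibPt u y R) (h : f.snd = g.snd) (p q s : R)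
    (hf : XHom.cls (y := y.pull f.snd) f.iso = (y.pull f.snd).cl p q s)
    (hg : XHom.cls (y := y.pull g.snd) g.iso = (y.pull g.snd).cl p q s) (hu : IsUniv u) :
    f = g := by
  obtain ⟨f1, f2, f3⟩ := f
  obtain ⟨g1, g2, g3⟩ := g
  change f2 = g2 at h
  subst h
  change XHom f1 u (y.pull f2) at f3
  change XHom g1 u (y.pull f2) at g3
  obtain ⟨f, ff1, ff2, ff3⟩ := f3
  obtain ⟨g, gg1, gg2, gg3⟩ := g3
  change f = (y.pull f2).cl p q s at hf
  change g = (y.pull f2).cl p q s at hg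
  subst hf
  subst hg
  have e : f1 = g1 := by
    have e1 : u.a = u.a := rfl
    have t2 := (y.pull f2).two
    have h3 := (ff3.symm.trans gg3)
    have h4 := congrArg Prod.fst h3
    have h5 := congrArg Prod.snd h3
    simp only [add_left_inj] at h4 h5
    exact (hu R (g1 u.pi) (g1 u.eta) (g1 u.a) (g1 u.c) t2 (by rw [← map_pow, u.sq, map_zero])
      (fun h => by rw [u.cond h, map_zero])).unique ⟨ff1.trans gg1.symm, ff2.trans gg2.symm, h4, h5⟩
        ⟨rfl, rfl, rfl, rfl⟩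
  subst e
  rfl

lemma fpt_surj (f : (XX t).FibPt u y R) : ∃ p q s : R, f = fpt hu y f.snd p q s := by
  obtain ⟨p, q, s, h⟩ := (y.pull f.snd).cl_surj (XHom.cls (y := y.pull f.snd) f.iso)
  exact ⟨p, q, s, fpt_ext y _ _ rfl p q s h.symm rfl hu⟩

lemma fpt_eq {ψ ψ' : C →+* R} {p q s p' q' s' : R} :
    fpt hu y ψ p q s = fpt hu y ψ' p' q' s' ↔ ψ = ψ' ∧
      ∃ w, p' = p + ψ y.pi * w ∧ q' = q + ψ y.eta * w ∧ s' = s + ψ y.pi * w ^ 2 + w := by
  constructor
  · intro h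
    have h1 : ψ = ψ' := congrArg Fib.FibPt.snd h
    subst h1
    refine ⟨rfl, ?_⟩
    have key : ∀ (f g : (XX t).FibPt u y R) (h : f = g) (p q s p' q' s' : R)
        (hf : XHom.cls (y := y.pull f.snd) f.iso = (y.pull f.snd).cl p q s)
        (hg : XHom.cls (y := y.pull g.snd) g.iso = (y.pull g.snd).cl p' q' s'),
        (y.pull f.snd).cl p q s = (y.pull f.snd).cl p' q' s' := by
      rintro f _ rfl p q s p' q' s' hf hg
      exact hf.symm.trans hg
    exact ((y.pull ψ).cl_eq _ _ _ _ _ _).mp (key _ _ h p q s p' q' s' rfl rfl)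
  · rintro ⟨rfl, h⟩
    refine fpt_ext y _ _ rfl p q s rfl ?_ hu
    exact (((y.pull ψ).cl_eq _ _ _ _ _ _).mpr h).symm

lemma XX_pullMap (φ : R →+* S) (ψ : S →+* T) (x : Ob t R) :
    XHom.cls (y := x.pull (ψ.comp φ)) ((XX t).pullMap φ ψ x) = 0 := by
  have h := (XX t).comp_pullMap φ ψ x
  have h1 := congrArg (XHom.cls (y := x.pull (ψ.comp φ))) h
  change Ob.gm (x := x.pull φ) (y := x.pull (ψ.comp φ)) ψ _ _ 0 +
    XHom.cls (y := x.pull (ψ.comp φ)) ((XX t).pullMap φ ψ x) = 0 at h1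
  rw [map_zero, zero_add] at h1
  exact h1

lemma fpt_map (ψ : C →+* R) (φ : R →+* S) (p q s : R) :
    Fib.FibPt.map φ (fpt hu y ψ p q s) = fpt hu y (φ.comp ψ) (φ p) (φ q) (φ s) := by
  refine fpt_ext y _ _ rfl (φ p) (φ q) (φ s) ?_ rfl hu
  change Ob.gm (x := y.pull ψ) (y := y.pull (φ.comp ψ)) φ _ _ ((y.pull ψ).cl p q s) +
    XHom.cls (y := y.pull (φ.comp ψ)) ((XX t).pullMap ψ φ y) = _
  rw [XX_pullMap, add_zero]
  rfl

lemma fpt_surj' (f : (XX t).FibPt u y R) (ψ : C →+* R) (h : f.snd = ψ) :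
    ∃ p q s : R, f = fpt hu y ψ p q s := by
  subst h
  exact fpt_surj hu y f

include hu in
lemma XX_fibre_isSheaf : ((XX t).fibre u y).IsSheaf := by
  intro R _ 𝒰 h𝒰 s hs
  obtain ⟨ψ, hψ, hψ'⟩ := h𝒰.glue_hom (fun S _ φ h => (s S φ h).snd)
    (fun S T _ _ φ ψ h h' => congrArg Fib.FibPt.snd (hs S T φ ψ h h'))
  choose p q r hpqr using fun (S : Type) [CommRing S] (φ : R →+* S) (h : 𝒰.mem φ) =>
    fpt_surj' hu y (s S φ h) (φ.comp ψ) (hψ S φ h).symm
  obtain ⟨p₀, q₀, s₀, h₀⟩ := G_glue h𝒰 (two_map y.two ψ) (ψ y.pi) (ψ y.eta) p q r (by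
    intro S T _ _ φ χ h h'
    have e1 := hs S T φ χ h h'
    rw [hpqr S φ h, hpqr T (χ.comp φ) h'] at e1
    have e2 := (fpt_map hu y (φ.comp ψ) χ (p S φ h) (q S φ h) (r S φ h)).symm.trans e1
    exact ((fpt_eq hu y).mp e2).2)
  refine ⟨fpt hu y ψ p₀ q₀ s₀, ?_, ?_⟩
  · intro S _ φ h
    rw [hpqr S φ h]
    refine (fpt_map hu y ψ φ p₀ q₀ s₀).trans ?_
    exact (fpt_eq hu y).mpr ⟨rfl, h₀ S φ h⟩
  · intro f hf
    have h1 : f.snd = ψ := hψ' f.snd fun S _ φ h => congrArg Fib.FibPt.snd (hf S φ h)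
    obtain ⟨p', q', s', rfl⟩ := fpt_surj' hu y f ψ h1
    refine (fpt_eq hu y).mpr ⟨rfl, ?_⟩
    have t2 : (2 : R) = 0 := two_map y.two ψ
    obtain ⟨w, w1, w2, w3⟩ := G_sep h𝒰 t2 (ψ y.pi) (ψ y.eta) (p₀ - p') (q₀ - q')
        (s₀ - s') (by
      intro S _ φ h
      have e1 := hf S φ h
      rw [hpqr S φ h] at e1
      have e2 := (fpt_map hu y ψ φ p' q' s').symm.trans e1
      obtain ⟨-, v, v1, v2, v3⟩ := (fpt_eq hu y).mp e2
      obtain ⟨w, w1, w2, w3⟩ := h₀ S φ h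
      have t3 : (2 : S) = 0 := two_map t2 φ
      rw [w1] at v1
      rw [w2] at v2
      rw [w3] at v3
      simp only [RingHom.comp_apply] at v1 v2 v3
      refine ⟨v + w, ?_, ?_, ?_⟩
      · rw [map_sub]
        linear_combination v1 - (φ (ψ y.pi) * w) * t3
      · rw [map_sub]
        linear_combination v2 - (φ (ψ y.eta) * w) * t3
      · rw [map_sub]
        linear_combination v3 - (φ (ψ y.pi) * w ^ 2 + w + φ (ψ y.pi) * v * w) * t3)
    exact ⟨w, by linear_combination w1, by linear_combination w2, by linear_combination w3⟩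

include hu in
lemma XX_fibre_isSmoothSpace : ((XX t).fibre u y).IsSmoothSpace := by
  obtain ⟨B, _, ι, P, Q, hι, hB⟩ := exists_poly2 C
  refine ⟨XX_fibre_isSheaf hu y, 0, Unit, fun _ => B, fun _ => inferInstance,
    fun _ => fpt hu y ι P Q 0, fun _ => hι, ?_, ?_⟩
  · intro _ D _ d
    obtain ⟨ψ, p, q, s, rfl⟩ : ∃ ψ p q s, d = fpt hu y ψ p q s := ⟨_, fpt_surj hu y d⟩
    have t2 : (2 : D) = 0 := two_map y.two ψ
    obtain ⟨E, _, ιE, w, hE, hw, hE'⟩ := exists_wAlg t2 (ψ y.pi) s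
    obtain ⟨β, ⟨hβ1, hβ2, hβ3⟩, hβ'⟩ := hB E (ιE.comp ψ) (ιE p + ιE (ψ y.pi) * w)
      (ιE q + ιE (ψ y.eta) * w)
    have t3 : (2 : E) = 0 := two_map t2 ιE
    refine ⟨E, inferInstance, ⟨β, ιE, ?_⟩, hE, ?_⟩
    · refine (fpt_map hu y ι β P Q 0).trans (Eq.trans ?_ (fpt_map hu y ψ ιE p q s).symm)
      refine Eq.symm ?_
      rw [fpt_eq]
      refine ⟨hβ1.symm, w, hβ2, hβ3, ?_⟩
      rw [map_zero]
      simp only [RingHom.comp_apply]
      linear_combination (-1 : E) * hw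
    · rintro R _ ⟨β', ζ, h⟩
      have h1 := (fpt_map hu y ψ ζ p q s).symm.trans (h.symm.trans (fpt_map hu y ι β' P Q 0))
      obtain ⟨h2, v, v1, v2, v3⟩ := (fpt_eq hu y).mp h1
      rw [map_zero] at v3
      simp only [RingHom.comp_apply] at v1 v2 v3
      obtain ⟨ε, ⟨hε1, hε2⟩, hε'⟩ := hE' R ζ v (by linear_combination (-1 : R) * v3)
      have t4 : (2 : R) = 0 := two_map t2 ζ
      refine ⟨ε, ?_, ?_⟩
      · refine Fn.FibPt.ext ?_ hε1
        change ε.comp β = β'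
        obtain ⟨γ, -, hγ⟩ := hB R (ζ.comp ψ) (β' P) (β' Q)
        rw [hγ β' ⟨h2.symm, rfl, rfl⟩]
        refine hγ _ ⟨?_, ?_, ?_⟩
        · rw [RingHom.comp_assoc, hβ1, ← hε1]
          rfl
        · rw [RingHom.comp_apply, hβ2, map_add, map_mul, hε2, v1, ← hε1]
          rfl
        · rw [RingHom.comp_apply, hβ3, map_add, map_mul, hε2, v2, ← hε1]
          rfl
      · intro ε' h'
        have g1 : ε'.comp β = β' := congrArg Fn.FibPt.fst h'
        have g2 : ε'.comp ιE = ζ := congrArg Fn.FibPt.snd h'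
        refine hε' ε' ⟨g2, ?_⟩
        have g3 : ε' (β P) = β' P := RingHom.congr_fun g1 P
        have g4 : ∀ z, ε' (ιE z) = ζ z := RingHom.congr_fun g2
        have g5 := congrArg ε' hw
        rw [hβ2] at g3
        simp only [map_add, map_mul, map_pow, map_zero, g4] at g3 g5
        rw [v1] at g3
        refine w_unique (π := ζ (ψ y.pi)) t4 ?_ ?_
        · linear_combination g3
        · linear_combination g5 + v3
  · intro D _ d
    obtain ⟨ψ, p, q, s, rfl⟩ : ∃ ψ p q s, d = fpt hu y ψ p q s := ⟨_, fpt_surj hu y d⟩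
    have t2 : (2 : D) = 0 := two_map y.two ψ
    obtain ⟨E, _, ιE, w, hE, hw, hE'⟩ := exists_wAlg t2 (ψ y.pi) s
    intro x
    refine ⟨E, inferInstance, ιE, hE, ?_, ?_⟩
    · obtain ⟨β, ⟨hβ1, hβ2, hβ3⟩, hβ'⟩ := hB E (ιE.comp ψ) (ιE p + ιE (ψ y.pi) * w)
        (ιE q + ιE (ψ y.eta) * w)
      refine ⟨(), β, ?_⟩
      refine (fpt_map hu y ι β P Q 0).trans (Eq.trans ?_ (fpt_map hu y ψ ιE p q s).symm)
      refine Eq.symm ?_
      rw [fpt_eq]
      refine ⟨hβ1.symm, w, hβ2, hβ3, ?_⟩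
      rw [map_zero]
      simp only [RingHom.comp_apply]
      linear_combination (-1 : E) * hw
    · let κ := x.asIdeal.ResidueField
      let K := AlgebraicClosure κ
      let ζ : D →+* K := (algebraMap κ K).comp (algebraMap D κ)
      obtain ⟨v, hv⟩ : ∃ v : K, ζ (ψ y.pi) * v ^ 2 + v + ζ s = 0 := by
        have hdeg : (Polynomial.C (ζ (ψ y.pi)) * Polynomial.X ^ 2 + Polynomial.X +
            Polynomial.C (ζ s)).degree ≠ 0 := by
          intro h0
          by_cases h : ζ (ψ y.pi) = 0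
          · rw [h, map_zero, zero_mul, zero_add, Polynomial.degree_X_add_C] at h0
            exact one_ne_zero h0
          · have h3 : (Polynomial.C (ζ (ψ y.pi)) * Polynomial.X ^ 2 + Polynomial.X +
              Polynomial.C (ζ s)) = Polynomial.C (ζ (ψ y.pi)) * Polynomial.X ^ 2 +
              Polynomial.C 1 * Polynomial.X + Polynomial.C (ζ s) := by
              rw [map_one, one_mul]
            rw [h3, Polynomial.degree_quadratic h] at h0
            exact two_ne_zero h0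
        obtain ⟨v, hv⟩ := IsAlgClosed.exists_root _ hdeg
        refine ⟨v, ?_⟩
        simpa [Polynomial.IsRoot] using hv
      obtain ⟨ε, ⟨hε1, hε2⟩, -⟩ := hE' K ζ v hv
      refine ⟨PrimeSpectrum.comap ε ⊥, ?_⟩
      rw [← PrimeSpectrum.comap_comp_apply, hε1, PrimeSpectrum.comap_comp_apply]
      ext z
      simp only [PrimeSpectrum.comap_asIdeal, PrimeSpectrum.asIdeal_bot, Ideal.mem_comap,
        Ideal.mem_bot, map_eq_zero]
      exact Ideal.algebraMap_residueField_eq_zero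

end

theorem XX_isAlgebraic (t : Prop) : (XX t).IsAlgebraic := by
  obtain ⟨A, _, π, η, a, c, htwo, hsq, hcond, hA⟩ := exists_univ t
  let u : Ob t A := ⟨π, η, a, c, htwo, hsq, hcond⟩
  have hu : IsUniv u := hA
  refine ⟨XX_isStack t, Unit, fun _ => A, fun _ => inferInstance, fun _ => u, ?_, ?_⟩
  · intro _ C _ y
    exact XX_fibre_isSmoothSpace hu y
  · intro C _ y
    change Ob t C at y
    refine Sv.covers_of_id ?_
    obtain ⟨α, ⟨h1, h2, h3, h4⟩, -⟩ := hA C y.pi y.eta y.a y.c y.two y.sq y.cond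
    refine ⟨(), α, ⟨(⟨0, h1, h2, ?_⟩ : XHom α u (y.pull (RingHom.id C)))⟩⟩
    rw [map_zero]
    change 0 = (α a + y.a, α c + y.c)
    rw [h3, h4, add_self_two y.two, add_self_two y.two]
    rfl

end Pool.Agent.TH165.Tan
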