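import Mathlib
import Pool.Agent.TH165.Tan2.ES
import Pool.Agent.TH165.Tan2.FFP
import Pool.Agent.TH165.Tan2.XAlg
import Pool.Agent.TH165.Tan2.Neg
import Pool.Agent.TH111.Tan165Assembly

set_option autoImplicit false

open CategoryTheory

namespace Pool.Agent.TH165.Tan

theorem omega_XX_true (T : Fib) : (omega (XX True) T).IsEquivalence :=
  omega_isEquivalence_of XX_FFProp XX_ESProp T

/-- The counterexample. -/
theorem counterexample2 : ∃ (X₀ X : Fib) (i : Mor X₀ X),
    X₀.IsAlgebraic ∧ X.IsAlgebraic ∧ i.IsNilpotentClosedImmersion ∧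
    (∀ T : Fib, (omega X₀ T).IsEquivalence) ∧
    ∃ (B : Type) (_ : CommRing B), (Fib.spec B).IsAlgebraic ∧
      ¬ (omega X (Fib.spec B)).IsEquivalence :=
  ⟨XX True, XX False, XX.incl, XX_isAlgebraic True, XX_isAlgebraic False,
    XX.incl_isNilpotentClosedImmersion, omega_XX_true, Dn Sq, inferInstance,
    spec_isAlgebraic (Dn Sq), omega_XX_false⟩

end Pool.Agent.TH165.Tan
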